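import Pool.Agent.NH76.FE.Tot

/-!
# Facts which hold for all large `N`
-/

set_option autoImplicit false

open Finset Filter

namespace Pool.Agent.NH76.FE

noncomputable def tt (τ : ℝ) (N : ℕ) : ℕ := ⌊τ * Real.log N⌋₊

noncomputable def MM (η : ℝ) (N : ℕ) : ℕ := ⌊η * (N : ℝ)⌋₊

theorem ev_log (A : ℝ) : ∀ᶠ N : ℕ in atTop, A ≤ Real.log N :=
  (Real.tendsto_log_atTop.comp (tendsto_natCast_atTop_atTop (R := ℝ))).eventually_ge_atTop A

theorem tt_lower (τ : ℝ) (N : ℕ) : τ * Real.log N < (tt τ N : ℝ) + 1 := Nat.lt_floor_add_one _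

theorem tt_upper {τ : ℝ} (hτ : 0 ≤ τ) (N : ℕ) : (tt τ N : ℝ) ≤ τ * Real.log N :=
  Nat.floor_le (mul_nonneg hτ (Real.log_natCast_nonneg N))

theorem ev_T {τ : ℝ} (hτ : 0 < τ) (A : ℝ) : ∀ᶠ N : ℕ in atTop, A ≤ (tt τ N : ℝ) + 1 := by
  filter_upwards [ev_log (A / τ)] with N hN
  have h1 := tt_lower τ N
  rw [div_le_iff₀ hτ] at hN
  linarith

theorem ev_L2 {τ s : ℝ} (hτ : 0 < τ) (hs : 0 < s) : ∀ᶠ N : ℕ in atTop,
    (Real.log ((tt τ N : ℝ) + 1)) ^ 2 ≤ s * Real.log N := by
  set s' := s / (τ + 1) with hs'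
  have hs'0 : 0 < s' := by positivity
  have h1 := (Real.isLittleO_pow_log_id_atTop (n := 2)).def hs'0
  have h2 : Tendsto (fun N : ℕ => τ * Real.log N + 1) atTop atTop := by
    refine tendsto_atTop_add_const_right _ _ ?_
    exact Tendsto.const_mul_atTop hτ
      (Real.tendsto_log_atTop.comp (tendsto_natCast_atTop_atTop (R := ℝ)))
  filter_upwards [h2.eventually h1, ev_log 1] with N h3 h4
  simp only [id, Real.norm_eq_abs] at h3
  have h5 : 0 < τ * Real.log N + 1 := by positivity
  rw [abs_of_nonneg (sq_nonneg _), abs_of_pos h5] at h3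
  have h6 : 0 ≤ Real.log ((tt τ N : ℝ) + 1) := Real.log_nonneg (by
    have := Nat.cast_nonneg (α := ℝ) (tt τ N)
    linarith)
  have h7 : Real.log ((tt τ N : ℝ) + 1) ≤ Real.log (τ * Real.log N + 1) := by
    apply Real.log_le_log (by positivity)
    have := tt_upper hτ.le N
    linarith
  calc (Real.log ((tt τ N : ℝ) + 1)) ^ 2 ≤ (Real.log (τ * Real.log N + 1)) ^ 2 :=
        pow_le_pow_left₀ h6 h7 2
    _ ≤ s' * (τ * Real.log N + 1) := h3
    _ ≤ s' * (τ * Real.log N + Real.log N) :=
        mul_le_mul_of_nonneg_left (by linarith) hs'0.le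
    _ = s * Real.log N := by rw [hs']; field_simp

theorem ev_L {τ s : ℝ} (hτ : 0 < τ) (hs : 0 < s) : ∀ᶠ N : ℕ in atTop,
    Real.log ((tt τ N : ℝ) + 1) ≤ s * Real.log N := by
  filter_upwards [ev_L2 hτ (half_pos hs), ev_log (1 / (s / 2))] with N h1 h2
  rw [div_le_iff₀ (half_pos hs)] at h2
  nlinarith [sq_nonneg (Real.log ((tt τ N : ℝ) + 1) - 1)]

theorem M_le {η : ℝ} (hη1 : η ≤ 1) (N : ℕ) : MM η N ≤ N := by
  unfold MM
  refine Nat.floor_le_of_le ?_
  have := Nat.cast_nonneg (α := ℝ) N
  nlinarith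

theorem ev_M {η : ℝ} (hη : 0 < η) : ∀ᶠ N : ℕ in atTop,
    Real.log N - |Real.log (η / 2)| ≤ Real.log (MM η N) := by
  have h1 : ∀ᶠ N : ℕ in atTop, 2 / η ≤ (N : ℝ) :=
    (tendsto_natCast_atTop_atTop (R := ℝ)).eventually_ge_atTop _
  filter_upwards [h1, eventually_ge_atTop 1] with N h1 h2
  have hN : (0 : ℝ) < N := by exact_mod_cast h2
  rw [div_le_iff₀ hη] at h1
  have h3 : η * N < (MM η N : ℝ) + 1 := Nat.lt_floor_add_one _
  have h4 : η / 2 * N ≤ MM η N := by linarith
  have h5 : Real.log (η / 2 * N) ≤ Real.log (MM η N) := Real.log_le_log (by positivity) h4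
  rw [Real.log_mul (by positivity) hN.ne'] at h5
  have h6 := neg_abs_le (Real.log (η / 2))
  linarith

theorem ev_TT {τ : ℝ} (hτ : 0 < τ) : ∀ᶠ N : ℕ in atTop, ((tt τ N : ℝ) + 1) ^ 2 ≤ N := by
  filter_upwards [ev_L hτ (s := 1 / 2) (by norm_num), eventually_ge_atTop 1] with N h1 h2
  have hN : (0 : ℝ) < N := by exact_mod_cast h2
  have hT : (0 : ℝ) < (tt τ N : ℝ) + 1 := by positivity
  have h3 : Real.log (((tt τ N : ℝ) + 1) ^ 2) ≤ Real.log N := by
    rw [Real.log_pow]
    push_cast
    linarith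
  exact (Real.log_le_log_iff (by positivity) hN).1 h3

/-! ### The constants -/

noncomputable def th2 : ℝ := (4 * Real.log 2 - Real.log 3) / Real.log 48

noncomputable def th3 : ℝ := (3 * Real.log 3 - 4 * Real.log 2) / Real.log 48

theorem log48 : Real.log 48 = 4 * Real.log 2 + Real.log 3 := by
  rw [show (48 : ℝ) = 2 ^ 4 * 3 by norm_num, Real.log_mul (by norm_num) (by norm_num),
    Real.log_pow]
  norm_num

theorem l2pos : 0 < Real.log 2 := Real.log_pos (by norm_num)
theorem l3pos : 0 < Real.log 3 := Real.log_pos (by norm_num)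
theorem l48pos : 0 < Real.log 48 := Real.log_pos (by norm_num)

theorem c16_9 : 2 * Real.log 3 < 4 * Real.log 2 := by
  have : Real.log (3 ^ 2) < Real.log (2 ^ 4) := Real.log_lt_log (by norm_num) (by norm_num)
  rw [Real.log_pow, Real.log_pow] at this
  push_cast at this
  exact this

theorem c27_16 : 4 * Real.log 2 < 3 * Real.log 3 := by
  have : Real.log (2 ^ 4) < Real.log (3 ^ 3) := Real.log_lt_log (by norm_num) (by norm_num)
  rw [Real.log_pow, Real.log_pow] at this
  push_cast at this
  exact this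

theorem c16_15 : Real.log 5 < 4 * Real.log 2 - Real.log 3 := by
  have : Real.log (5 * 3) < Real.log (2 ^ 4) := Real.log_lt_log (by norm_num) (by norm_num)
  rw [Real.log_pow, Real.log_mul (by norm_num) (by norm_num)] at this
  push_cast at this
  linarith

theorem one_le_l5 : 1 ≤ Real.log 5 := by
  rw [Real.le_log_iff_exp_le (by norm_num)]
  have := Real.exp_one_lt_d9
  linarith

theorem th2_pos : 0 < th2 := div_pos (by have := c16_9; have := l3pos; linarith) l48pos
theorem th3_pos : 0 < th3 := div_pos (by have := c27_16; linarith) l48pos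

theorem th_sum : 1 - (th2 + th3) = th2 := by
  unfold th2 th3
  have := l48pos
  field_simp
  rw [log48]
  ring

/-- `θ_p` -/
noncomputable def thp (p : ℕ) : ℝ := if p = 2 then th2 else if p = 3 then th3 else 0

theorem thp_nonneg (p : ℕ) : 0 ≤ thp p := by
  unfold thp
  split_ifs
  · exact th2_pos.le
  · exact th3_pos.le
  · exact le_rfl

theorem thp_lt (p : ℕ) : 0 < (th2 + th3) - thp p := by
  have h2 := th2_pos
  have h3 := th3_pos
  unfold thp
  split_ifs <;> linarith

theorem thp_le_one (p : ℕ) : thp p ≤ 1 := by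
  have h1 := thp_lt p
  have h2 := th_sum
  have h3 := th2_pos
  linarith

theorem log_div_le {p : ℕ} (hp : 5 ≤ p) : Real.log p / ((p : ℝ) - 1) ≤ Real.log 5 / 4 := by
  have hp' : (5 : ℝ) ≤ p := by exact_mod_cast hp
  have h1 : Real.log (p / 5) ≤ p / 5 - 1 := Real.log_le_sub_one_of_pos (by positivity)
  rw [Real.log_div (by positivity) (by norm_num)] at h1
  have h2 := one_le_l5
  rw [div_le_iff₀ (by linarith)]
  nlinarith

/-- the two inequalities which determine the constant `4 / log 48` -/
theorem gap {p : ℕ} (hp : p.Prime) :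
    4 / Real.log 48 * (Real.log p / ((p : ℝ) - 1)) ≤ (1 + thp p) / 2 ∧
    4 / Real.log 48 * (Real.log p / ((p : ℝ) - 1)) ≤ thp p + (1 - (th2 + th3)) := by
  have h48 := l48pos
  have e := th_sum
  have c1 := c16_9
  have c2 := c27_16
  have c3 := c16_15
  have h2p := l2pos
  have h3p := l3pos
  rw [e]
  by_cases h2 : p = 2
  · subst h2
    have : thp 2 = th2 := by unfold thp; simp
    rw [this]
    unfold th2
    constructor
    · rw [← sub_nonneg]
      have : (1 + (4 * Real.log 2 - Real.log 3) / Real.log 48) / 2 -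
          4 / Real.log 48 * (Real.log ((2 : ℕ) : ℝ) / (((2 : ℕ) : ℝ) - 1)) = 0 := by
        push_cast
        field_simp
        rw [log48]
        ring
      rw [this]
    · rw [← sub_nonneg]
      have : (4 * Real.log 2 - Real.log 3) / Real.log 48 +
          (4 * Real.log 2 - Real.log 3) / Real.log 48 -
          4 / Real.log 48 * (Real.log ((2 : ℕ) : ℝ) / (((2 : ℕ) : ℝ) - 1)) =
          (4 * Real.log 2 - 2 * Real.log 3) / Real.log 48 := by
        push_cast
        field_simp
        ring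
      rw [this]
      exact div_nonneg (by linarith) h48.le
  · by_cases h3 : p = 3
    · subst h3
      have : thp 3 = th3 := by unfold thp; simp
      rw [this]
      unfold th2 th3
      constructor
      · rw [← sub_nonneg]
        have : (1 + (3 * Real.log 3 - 4 * Real.log 2) / Real.log 48) / 2 -
            4 / Real.log 48 * (Real.log ((3 : ℕ) : ℝ) / (((3 : ℕ) : ℝ) - 1)) = 0 := by
          push_cast
          field_simp
          rw [log48]
          ring
        rw [this]
      · rw [← sub_nonneg]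
        have : (3 * Real.log 3 - 4 * Real.log 2) / Real.log 48 +
            (4 * Real.log 2 - Real.log 3) / Real.log 48 -
            4 / Real.log 48 * (Real.log ((3 : ℕ) : ℝ) / (((3 : ℕ) : ℝ) - 1)) = 0 := by
          push_cast
          field_simp
          ring
        rw [this]
    · have hp5 : 5 ≤ p := by
        by_contra hcon
        have hp2 := hp.two_le
        have : p = 4 := by omega
        rw [this] at hp
        exact absurd hp (by norm_num)
      have : thp p = 0 := by unfold thp; simp [h2, h3]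
      rw [this]
      have h5 := log_div_le hp5
      have h6 : 4 / Real.log 48 * (Real.log p / ((p : ℝ) - 1)) ≤ Real.log 5 / Real.log 48 := by
        calc _ ≤ 4 / Real.log 48 * (Real.log 5 / 4) :=
              mul_le_mul_of_nonneg_left h5 (by positivity)
          _ = _ := by field_simp
      constructor
      · refine h6.trans ?_
        rw [add_zero, div_le_div_iff₀ h48 (by norm_num), log48]
        linarith
      · refine h6.trans ?_
        rw [zero_add]
        unfold th2
        exact div_le_div_of_nonneg_right c3.le h48.le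

/-! ### The modulus -/

noncomputable def aa (θ : ℝ) (p N : ℕ) : ℕ := ⌊θ * Real.log N / Real.log p⌋₊

noncomputable def qq (N : ℕ) : ℕ := 2 ^ aa th2 2 N * 3 ^ aa th3 3 N

theorem qq_pos (N : ℕ) : 0 < qq N := by unfold qq; positivity

theorem aa_upper {θ : ℝ} {p N : ℕ} (hθ : 0 ≤ θ) (hp : 1 < p) :
    (aa θ p N : ℝ) * Real.log p ≤ θ * Real.log N := by
  have hlp : 0 < Real.log p := Real.log_pos (by exact_mod_cast hp)
  have h1 : (aa θ p N : ℝ) ≤ θ * Real.log N / Real.log p :=
    Nat.floor_le (div_nonneg (mul_nonneg hθ (Real.log_natCast_nonneg N)) hlp.le)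
  rwa [le_div_iff₀ hlp] at h1

theorem aa_lower {θ : ℝ} {p N : ℕ} (hp : 1 < p) :
    θ * Real.log N - Real.log p ≤ (aa θ p N : ℝ) * Real.log p := by
  have hlp : 0 < Real.log p := Real.log_pos (by exact_mod_cast hp)
  have h1 : θ * Real.log N / Real.log p < (aa θ p N : ℝ) + 1 := Nat.lt_floor_add_one _
  rw [div_lt_iff₀ hlp] at h1
  linarith

theorem log_qq (N : ℕ) : Real.log (qq N) =
    (aa th2 2 N : ℝ) * Real.log 2 + (aa th3 3 N : ℝ) * Real.log 3 := by
  unfold qq
  push_cast
  rw [Real.log_mul (by positivity) (by positivity), Real.log_pow, Real.log_pow]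

theorem qq_upper (N : ℕ) : Real.log (qq N) ≤ (th2 + th3) * Real.log N := by
  have h1 := aa_upper (θ := th2) (p := 2) (N := N) th2_pos.le (by norm_num)
  have h2 := aa_upper (θ := th3) (p := 3) (N := N) th3_pos.le (by norm_num)
  rw [log_qq]
  push_cast at h1 h2
  linarith

theorem qq_lower (N : ℕ) :
    (th2 + th3) * Real.log N - (Real.log 2 + Real.log 3) ≤ Real.log (qq N) := by
  have h1 := aa_lower (θ := th2) (p := 2) (N := N) (by norm_num)
  have h2 := aa_lower (θ := th3) (p := 3) (N := N) (by norm_num)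
  rw [log_qq]
  push_cast at h1 h2
  linarith

theorem qq_coprime {p : ℕ} (hp : p.Prime) (h2 : p ≠ 2) (h3 : p ≠ 3) (N : ℕ) :
    Nat.Coprime p (qq N) := by
  unfold qq
  refine Nat.Coprime.mul_right (Nat.Coprime.pow_right _ ?_) (Nat.Coprime.pow_right _ ?_)
  · exact (Nat.coprime_primes hp Nat.prime_two).2 h2
  · exact (Nat.coprime_primes hp Nat.prime_three).2 h3

/-- `q ≤ M` for large `N`, with room -/
theorem ev_q {η : ℝ} (hη : 0 < η) (A : ℝ) : ∀ᶠ N : ℕ in atTop,
    A ≤ Real.log (MM η N) - Real.log (qq N) := by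
  filter_upwards [ev_M hη, ev_log ((A + |Real.log (η / 2)|) / th2)] with N h1 h2
  have h3 := qq_upper N
  rw [div_le_iff₀ th2_pos] at h2
  have e : (th2 + th3) * Real.log N = Real.log N - Real.log N * th2 := by
    have := th_sum
    have h4 : th2 + th3 = 1 - th2 := by linarith
    rw [h4]; ring
  linarith

theorem ev_q_le {η : ℝ} (hη : 0 < η) : ∀ᶠ N : ℕ in atTop, qq N ≤ MM η N := by
  filter_upwards [ev_q hη 1, ev_M hη, ev_log (|Real.log (η / 2)| + 1)] with N h1 h2 h3
  have hM : 0 < MM η N := by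
    rcases Nat.eq_zero_or_pos (MM η N) with h0 | h0
    · rw [h0] at h2
      simp only [Nat.cast_zero, Real.log_zero] at h2
      linarith
    · exact h0
  have h4 : Real.log (qq N) ≤ Real.log (MM η N) := by linarith
  have h5 := (Real.log_le_log_iff (by exact_mod_cast qq_pos N) (by exact_mod_cast hM)).1 h4
  exact_mod_cast h5

end Pool.Agent.NH76.FE
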