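import Pool.Agent.NH76.FE.Ind

/-!
# The upper bound, and averages
-/

set_option autoImplicit false

open Finset Filter

namespace Pool.Agent.NH76.FE

theorem fac_le (k : ℕ) : ∀ a : Fin (k + 1) → ℕ, ((∑ i, a i).factorial).factorization 2 ≤
    (∏ i, (a i).factorial).factorization 2 + k * Nat.log 2 (∑ i, a i) := by
  induction k with
  | zero => intro a; simp
  | succ k ih =>
    intro a
    have h1 := ih (fun i => a i.castSucc)
    rw [Fin.prod_univ_castSucc, Fin.sum_univ_castSucc]
    set s := ∑ i : Fin (k + 1), a i.castSucc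
    set P := ∏ i : Fin (k + 1), (a i.castSucc).factorial with hP
    have hP0 : P ≠ 0 := by
      rw [hP]
      exact prod_ne_zero_iff.2 fun i _ => Nat.factorial_ne_zero _
    set b := a (Fin.last (k + 1))
    have h2 : (s + b).factorial = (s + b).choose s * s.factorial * b.factorial := by
      have := Nat.choose_mul_factorial_mul_factorial (Nat.le_add_right s b)
      rw [Nat.add_sub_cancel_left] at this
      exact this.symm
    have h3 : ((s + b).choose s).factorization 2 ≤ Nat.log 2 (s + b) :=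
      Nat.factorization_choose_le_log
    have hc0 : (s + b).choose s ≠ 0 := (Nat.choose_pos (Nat.le_add_right s b)).ne'
    rw [h2, Nat.factorization_mul (mul_ne_zero hc0 (Nat.factorial_ne_zero _))
      (Nat.factorial_ne_zero _), Nat.factorization_mul hc0 (Nat.factorial_ne_zero _),
      Nat.factorization_mul hP0 (Nat.factorial_ne_zero _)]
    simp only [Finsupp.add_apply]
    have h4 : Nat.log 2 s ≤ Nat.log 2 (s + b) := Nat.log_mono_right (Nat.le_add_right s b)
    have h5 : k * Nat.log 2 s ≤ k * Nat.log 2 (s + b) := Nat.mul_le_mul_left _ h4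
    have h6 : (k + 1) * Nat.log 2 (s + b) = k * Nat.log 2 (s + b) + Nat.log 2 (s + b) := by ring
    omega

theorem val_two (t : ℕ) : t ≤ (t.factorial).factorization 2 + (Nat.log 2 t + 1) := by
  have : Fact (Nat.Prime 2) := ⟨Nat.prime_two⟩
  have h1 := sub_one_mul_padicValNat_factorial (p := 2) t
  rw [show (2 - 1 : ℕ) = 1 from rfl, one_mul] at h1
  rw [Nat.factorization_def _ Nat.prime_two, h1]
  have h2 : (Nat.digits 2 t).sum ≤ Nat.log 2 t + 1 := by
    rcases Nat.eq_zero_or_pos t with h0 | h0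
    · subst h0; simp
    · have h3 : (Nat.digits 2 t).sum ≤ (Nat.digits 2 t).length • 1 :=
        List.sum_le_card_nsmul _ _ fun x hx => by
          have := Nat.digits_lt_base (by norm_num : 1 < 2) hx
          omega
      rw [smul_eq_mul, mul_one, Nat.length_digits 2 t (by norm_num) h0.ne'] at h3
      exact h3
  omega

theorem upper_nat {k n t : ℕ} (a : Fin (k + 1) → ℕ) (h : (∏ i, (a i).factorial) ∣ n.factorial)
    (ht : ∑ i, a i = n + t) : t ≤ k * Nat.log 2 (n + t) + (Nat.log 2 t + 1) := by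
  have h1 := fac_le k a
  rw [ht] at h1
  have hP0 : (∏ i, (a i).factorial) ≠ 0 := prod_ne_zero_iff.2 fun i _ => Nat.factorial_ne_zero _
  have h2 : (∏ i, (a i).factorial).factorization 2 ≤ n.factorial.factorization 2 :=
    (Nat.factorization_le_iff_dvd hP0 (Nat.factorial_ne_zero _)).2 h 2
  have h3 : n.factorial * t.factorial ∣ (n + t).factorial := Nat.factorial_mul_factorial_dvd_factorial_add n t
  have h4 : (n.factorial * t.factorial).factorization 2 ≤ (n + t).factorial.factorization 2 :=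
    (Nat.factorization_le_iff_dvd (mul_ne_zero (Nat.factorial_ne_zero _) (Nat.factorial_ne_zero _))
      (Nat.factorial_ne_zero _)).2 h3 2
  rw [Nat.factorization_mul (Nat.factorial_ne_zero _) (Nat.factorial_ne_zero _),
    Finsupp.add_apply] at h4
  have h5 := val_two t
  omega

theorem log_two_le {n : ℕ} (hn : n ≠ 0) : (Nat.log 2 n : ℝ) ≤ Real.log n / Real.log 2 := by
  rw [le_div_iff₀ (Real.log_pos (by norm_num)), ← Real.log_pow]
  apply Real.log_le_log (by positivity)
  exact_mod_cast Nat.pow_log_le_self 2 hn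

/-- the upper bound -/
theorem upper (k : ℕ) {ε : ℝ} (hε : 0 < ε) : ∀ᶠ n : ℕ in atTop,
    (Nfa7bfd82.g (k + 1) n : ℝ) ≤ (k / Real.log 2 + ε) * Real.log n := by
  have hl2 : 0 < Real.log 2 := Real.log_pos (by norm_num)
  set c : ℝ := k / Real.log 2 with hc
  have hc0 : 0 ≤ c := by positivity
  set ε1 : ℝ := (ε / 2) / (c + ε) with hε1
  have hce : 0 < c + ε := by linarith
  have hε1pos : 0 < ε1 := by positivity
  -- `log y ≤ small * y`
  have hlo : ∀ s : ℝ, 0 < s → ∀ᶠ n : ℕ in atTop, Real.log n ≤ s * n := by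
    intro s hs
    have h1 := (Real.isLittleO_log_id_atTop.def hs)
    have h2 := tendsto_natCast_atTop_atTop (R := ℝ) |>.eventually h1
    filter_upwards [h2] with n hn
    simp only [id, Real.norm_eq_abs] at hn
    exact (le_abs_self _).trans (hn.trans (by rw [abs_of_nonneg (Nat.cast_nonneg n)]))
  have htop : ∀ A : ℝ, ∀ᶠ n : ℕ in atTop, A ≤ Real.log n := fun A =>
    (Real.tendsto_log_atTop.comp (tendsto_natCast_atTop_atTop (R := ℝ))).eventually_ge_atTop A
  -- constants
  set s1 : ℝ := min (ε1 * Real.log 2) (1 / (2 * (c + 1 / Real.log 2 + 1))) with hs1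
  have hs1pos : 0 < s1 := lt_min (by positivity) (by positivity)
  obtain ⟨Y1, hY1⟩ := eventually_atTop.1 (hlo s1 hs1pos)
  obtain ⟨Y2, hY2⟩ := exists_nat_gt (2 * (k + 1 : ℝ) + 2)
  set Y := max (max Y1 Y2) 1 with hY
  filter_upwards [eventually_ge_atTop Y, htop (Y / (c + ε)), htop ((k + 1) / (ε / 2))]
    with n hn1 hn2 hn3
  have hlogn : 0 ≤ Real.log n := (by positivity : (0 : ℝ) ≤ Y / (c + ε)).trans hn2
  have hY1n : Y1 ≤ n := (le_max_left _ _).trans ((le_max_left _ _).trans hn1)
  have hn0 : 1 ≤ n := (le_max_right _ _).trans hn1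
  -- it suffices to bound each tuple
  have key : ∀ a : Fin (k + 1) → ℕ, (∏ i, (a i).factorial) ∣ n.factorial →
      (((∑ i, a i) - n : ℕ) : ℝ) ≤ (c + ε) * Real.log n := by
    intro a ha
    set t := (∑ i, a i) - n with ht
    rcases le_or_gt (∑ i, a i) n with hle | hgt
    · have : t = 0 := by omega
      rw [this, Nat.cast_zero]
      positivity
    have hsum : ∑ i, a i = n + t := by omega
    have h1 := upper_nat a ha hsum
    rcases le_or_gt t Y with htY | htY
    · have h2 : (t : ℝ) ≤ Y := by exact_mod_cast htY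
      rw [div_le_iff₀ hce] at hn2
      linarith
    have ht0 : t ≠ 0 := by omega
    have ht0' : (0 : ℝ) < t := by exact_mod_cast Nat.pos_of_ne_zero ht0
    have hY1t : Y1 ≤ t := (le_max_left _ _).trans ((le_max_left _ _).trans htY.le)
    have hlt := hY1 t hY1t
    have hl1 := log_two_le ht0
    have h1' : (t : ℝ) ≤ k * (Nat.log 2 (n + t) : ℝ) + ((Nat.log 2 t : ℝ) + 1) := by
      exact_mod_cast h1
    have hY2t : (2 * (k + 1 : ℝ) + 2) < t := by
      refine hY2.trans_le ?_
      exact_mod_cast (le_max_right _ _).trans ((le_max_left _ _).trans htY.le)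
    -- `t < n`
    have htn : t < n := by
      by_contra hcon
      rw [not_lt] at hcon
      have h3 : Nat.log 2 (n + t) ≤ Nat.log 2 t + 1 := by
        calc Nat.log 2 (n + t) ≤ Nat.log 2 (t * 2) := Nat.log_mono_right (by omega)
          _ = Nat.log 2 t + 1 := Nat.log_mul_base (by norm_num) ht0
      have h3' : (Nat.log 2 (n + t) : ℝ) ≤ Nat.log 2 t + 1 := by exact_mod_cast h3
      have h4 : (t : ℝ) ≤ k * ((Nat.log 2 t : ℝ) + 1) + ((Nat.log 2 t : ℝ) + 1) :=
        h1'.trans (by
          have := mul_le_mul_of_nonneg_left h3' (Nat.cast_nonneg (α := ℝ) k)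
          linarith)
      have h5 : (k + 1 : ℝ) * (Nat.log 2 t : ℝ) ≤ t / 2 := by
        have h6 : Real.log t ≤ 1 / (2 * (c + 1 / Real.log 2 + 1)) * t :=
          hlt.trans (mul_le_mul_of_nonneg_right (min_le_right _ _) ht0'.le)
        calc (k + 1 : ℝ) * (Nat.log 2 t : ℝ) ≤ (k + 1) * (Real.log t / Real.log 2) :=
              mul_le_mul_of_nonneg_left hl1 (by positivity)
          _ = (c + 1 / Real.log 2) * Real.log t := by rw [hc]; field_simp
          _ ≤ (c + 1 / Real.log 2) * (1 / (2 * (c + 1 / Real.log 2 + 1)) * t) :=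
              mul_le_mul_of_nonneg_left h6 (by positivity)
          _ ≤ (c + 1 / Real.log 2 + 1) * (1 / (2 * (c + 1 / Real.log 2 + 1)) * t) :=
              mul_le_mul_of_nonneg_right (by linarith) (by positivity)
          _ = t / 2 := by
              have : c + 1 / Real.log 2 + 1 ≠ 0 := by positivity
              field_simp
      nlinarith
    have h3 : Nat.log 2 (n + t) ≤ Nat.log 2 n + 1 := by
      calc Nat.log 2 (n + t) ≤ Nat.log 2 (n * 2) := Nat.log_mono_right (by omega)
        _ = Nat.log 2 n + 1 := Nat.log_mul_base (by norm_num) (by omega)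
    have h3' : (Nat.log 2 (n + t) : ℝ) ≤ Nat.log 2 n + 1 := by exact_mod_cast h3
    have hl3 := log_two_le (n := n) (by omega)
    have h4 : (k : ℝ) * (Nat.log 2 (n + t) : ℝ) ≤ c * Real.log n + k := by
      calc (k : ℝ) * (Nat.log 2 (n + t) : ℝ) ≤ k * (Real.log n / Real.log 2 + 1) :=
            mul_le_mul_of_nonneg_left (by linarith) (by positivity)
        _ = _ := by rw [hc]; ring
    have h5 : (Nat.log 2 t : ℝ) ≤ ε1 * t := by
      refine hl1.trans ?_
      rw [div_le_iff₀ hl2]
      refine hlt.trans ?_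
      calc s1 * t ≤ (ε1 * Real.log 2) * t :=
            mul_le_mul_of_nonneg_right (min_le_left _ _) ht0'.le
        _ = _ := by ring
    have h6 : (1 - ε1) * t ≤ c * Real.log n + (k + 1) := by linarith
    have h7 : (k + 1 : ℝ) ≤ ε / 2 * Real.log n := by
      rw [div_le_iff₀ (by positivity)] at hn3
      linarith
    have h8 : (1 - ε1) * (c + ε) = c + ε / 2 := by
      rw [hε1]; field_simp; ring
    have h9 : 0 < 1 - ε1 := by
      have : 0 < (1 - ε1) * (c + ε) := by rw [h8]; linarith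
      by_contra hcon
      rw [not_lt] at hcon
      have := mul_nonpos_of_nonpos_of_nonneg hcon hce.le
      linarith
    refine le_of_mul_le_mul_left ?_ h9
    calc (1 - ε1) * (t : ℝ) ≤ c * Real.log n + (k + 1) := h6
      _ ≤ (c + ε / 2) * Real.log n := by linarith
      _ = (1 - ε1) * ((c + ε) * Real.log n) := by rw [← h8]; ring
  have h0 : 0 ≤ (c + ε) * Real.log n := by positivity
  have h1 : Nfa7bfd82.g (k + 1) n ≤ ⌊(c + ε) * Real.log n⌋₊ :=
    g_le fun a ha => Nat.le_floor (key a ha)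
  exact (Nat.cast_le.2 h1).trans (Nat.floor_le h0)

/-- the lower bound for almost all `n` -/
theorem lower (k : ℕ) {τ : ℝ} (hτ0 : 0 ≤ τ) (hτ : BadSmall τ) {ε δ : ℝ} (hε : 0 < ε)
    (hδ : 0 < δ) : ∀ᶠ N : ℕ in atTop,
    (cnt (range N) (fun n => (Nfa7bfd82.g (k + 1) n : ℝ) < (k * τ - ε) * Real.log n) : ℝ)
      ≤ δ * N := by
  have htop : ∀ A : ℝ, ∀ᶠ n : ℕ in atTop, A ≤ Real.log n := fun A =>
    (Real.tendsto_log_atTop.comp (tendsto_natCast_atTop_atTop (R := ℝ))).eventually_ge_atTop A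
  obtain ⟨n0, hn0⟩ := eventually_atTop.1 (htop (k / ε))
  have hN : ∀ᶠ N : ℕ in atTop, (n0 + 1 : ℝ) / (δ / 2) ≤ N :=
    (tendsto_natCast_atTop_atTop (R := ℝ)).eventually_ge_atTop _
  filter_upwards [almost hτ k (δ / 2) (by positivity), hN] with N h1 h2
  have h3 : cnt (range N) (fun n => (Nfa7bfd82.g (k + 1) n : ℝ) < (k * τ - ε) * Real.log n) ≤
      cnt (range N) (fun n => (¬ H (k + 1) n (k * ⌊τ * Real.log N⌋₊)) ∨ n < n0 + 1) := by
    refine cnt_mono fun n hn hg => ?_
    by_contra hcon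
    rw [not_or, not_not, not_lt] at hcon
    obtain ⟨c1, c2⟩ := hcon
    have c3 := g_ge c1
    have c3' : (k : ℝ) * (⌊τ * Real.log N⌋₊ : ℝ) ≤ (Nfa7bfd82.g (k + 1) n : ℝ) := by
      exact_mod_cast c3
    have c4 : τ * Real.log N < ⌊τ * Real.log N⌋₊ + 1 := Nat.lt_floor_add_one _
    have c5 : Real.log n ≤ Real.log N :=
      Real.log_le_log (by exact_mod_cast (by omega : 0 < n))
        (by exact_mod_cast (mem_range.1 hn).le)
    have c6 : τ * Real.log n ≤ τ * Real.log N := mul_le_mul_of_nonneg_left c5 hτ0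
    have c7 := hn0 n (by omega)
    rw [div_le_iff₀ hε] at c7
    have c8 : (k : ℝ) * (τ * Real.log n) ≤ k * ((⌊τ * Real.log N⌋₊ : ℝ) + 1) :=
      mul_le_mul_of_nonneg_left (by linarith) (Nat.cast_nonneg k)
    nlinarith
  have h4 := h3.trans (cnt_or _ _ _)
  have h5 : cnt (range N) (fun n => n < n0 + 1) ≤ n0 + 1 := by
    rw [cnt_eq]
    calc _ ≤ (range (n0 + 1)).card := by
          apply card_le_card
          intro x hx
          rw [mem_filter] at hx
          exact mem_range.2 hx.2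
      _ = _ := card_range _
  have h6 : (cnt (range N) (fun n => (Nfa7bfd82.g (k + 1) n : ℝ) < (k * τ - ε) * Real.log n) : ℝ)
      ≤ (cnt (range N) (fun n => ¬ H (k + 1) n (k * ⌊τ * Real.log N⌋₊)) : ℝ) + (n0 + 1) := by
    exact_mod_cast h4.trans (Nat.add_le_add_left h5 _)
  rw [div_le_iff₀ (by positivity)] at h2
  linarith

/-- the average, upper bound -/
theorem avg_upper (k : ℕ) {ε : ℝ} (hε : 0 < ε) : ∀ᶠ x : ℕ in atTop,
    ∑ n ∈ Icc 1 x, (Nfa7bfd82.g (k + 1) n : ℝ) ≤ (k / Real.log 2 + ε) * (x * Real.log x) := by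
  have hl2 : 0 < Real.log 2 := Real.log_pos (by norm_num)
  obtain ⟨n0, hn0⟩ := eventually_atTop.1 (upper k (half_pos hε))
  have htop : ∀ A : ℝ, ∀ᶠ n : ℕ in atTop, A ≤ Real.log n := fun A =>
    (Real.tendsto_log_atTop.comp (tendsto_natCast_atTop_atTop (R := ℝ))).eventually_ge_atTop A
  set C : ℝ := ∑ n ∈ range n0, (Nfa7bfd82.g (k + 1) n : ℝ) with hC
  have hC0 : 0 ≤ C := sum_nonneg fun _ _ => Nat.cast_nonneg _
  filter_upwards [htop (C / (ε / 2)), eventually_ge_atTop 1] with x h1 h2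
  have hx : (1 : ℝ) ≤ x := by exact_mod_cast h2
  have hlx : 0 ≤ Real.log x := Real.log_nonneg hx
  rw [div_le_iff₀ (by positivity)] at h1
  have h3 : ∑ n ∈ Icc 1 x, (Nfa7bfd82.g (k + 1) n : ℝ) ≤
      ∑ n ∈ Icc 1 x, ((if n < n0 then (Nfa7bfd82.g (k + 1) n : ℝ) else 0) +
        (k / Real.log 2 + ε / 2) * Real.log x) := by
    refine sum_le_sum fun n hn => ?_
    rw [mem_Icc] at hn
    have hc : 0 ≤ k / Real.log 2 + ε / 2 := by positivity
    split_ifs with h
    · have : 0 ≤ (k / Real.log 2 + ε / 2) * Real.log x := by positivity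
      linarith
    · have h4 := hn0 n (by omega)
      have h5 : Real.log n ≤ Real.log x :=
        Real.log_le_log (by exact_mod_cast hn.1) (by exact_mod_cast hn.2)
      have h6 := mul_le_mul_of_nonneg_left h5 hc
      linarith
  rw [sum_add_distrib, sum_const, Nat.card_Icc, Nat.add_sub_cancel, nsmul_eq_mul] at h3
  have h4 : ∑ n ∈ Icc 1 x, (if n < n0 then (Nfa7bfd82.g (k + 1) n : ℝ) else 0) ≤ C := by
    rw [← sum_filter]
    refine sum_le_sum_of_subset_of_nonneg ?_ fun _ _ _ => Nat.cast_nonneg _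
    intro n hn
    rw [mem_filter] at hn
    exact mem_range.2 hn.2
  have h5 : Real.log x ≤ x * Real.log x := by nlinarith
  have h6 : C ≤ ε / 2 * (x * Real.log x) := by
    have := mul_le_mul_of_nonneg_left h5 (half_pos hε).le
    linarith
  calc _ ≤ _ := h3
    _ ≤ C + x * ((k / Real.log 2 + ε / 2) * Real.log x) := by linarith
    _ ≤ _ := by nlinarith

/-- the average, lower bound -/
theorem avg_lower (k : ℕ) {τ : ℝ} (hτ0 : 0 ≤ τ) (hτ : BadSmall τ) {ε : ℝ} (hε : 0 < ε) :
    ∀ᶠ x : ℕ in atTop,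
    (k * τ - ε) * (x * Real.log x) ≤ ∑ n ∈ Icc 1 x, (Nfa7bfd82.g (k + 1) n : ℝ) := by
  classical
  have htop : ∀ A : ℝ, ∀ᶠ n : ℕ in atTop, A ≤ Real.log n := fun A =>
    (Real.tendsto_log_atTop.comp (tendsto_natCast_atTop_atTop (R := ℝ))).eventually_ge_atTop A
  set δ : ℝ := ε / (4 * (k * τ + 1)) with hδ
  have hkτ : 0 ≤ k * τ := by positivity
  have hδ0 : 0 < δ := by positivity
  have h1 := (tendsto_add_atTop_nat 1).eventually (almost hτ k δ hδ0)
  filter_upwards [h1, htop (2 * k / ε), eventually_ge_atTop 1] with x h1 h2 h3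
  have hx : (1 : ℝ) ≤ x := by exact_mod_cast h3
  have hlx : 0 ≤ Real.log x := Real.log_nonneg hx
  rw [div_le_iff₀ hε] at h2
  set t := ⌊τ * Real.log ((x + 1 : ℕ) : ℝ)⌋₊ with ht
  set G := (Icc 1 x).filter fun n => H (k + 1) n (k * t) with hG
  have h4 : (k * t : ℝ) * G.card ≤ ∑ n ∈ Icc 1 x, (Nfa7bfd82.g (k + 1) n : ℝ) := by
    calc (k * t : ℝ) * G.card = ∑ _n ∈ G, (k * t : ℝ) := by
          rw [sum_const, nsmul_eq_mul]; ring
      _ ≤ ∑ n ∈ G, (Nfa7bfd82.g (k + 1) n : ℝ) := by
          refine sum_le_sum fun n hn => ?_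
          rw [hG, mem_filter] at hn
          exact_mod_cast g_ge hn.2
      _ ≤ _ := sum_le_sum_of_subset_of_nonneg (filter_subset _ _) fun _ _ _ => Nat.cast_nonneg _
  have h5 : x ≤ G.card + cnt (range (x + 1)) (fun n => ¬ H (k + 1) n (k * t)) := by
    have h6 : G.card + ((Icc 1 x).filter fun n => ¬ H (k + 1) n (k * t)).card = x := by
      rw [hG, card_filter_add_card_filter_not, Nat.card_Icc, Nat.add_sub_cancel]
    have h7 : ((Icc 1 x).filter fun n => ¬ H (k + 1) n (k * t)).card ≤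
        cnt (range (x + 1)) (fun n => ¬ H (k + 1) n (k * t)) := by
      rw [cnt_eq]
      apply card_le_card
      intro n hn
      rw [mem_filter, mem_Icc] at hn
      rw [mem_filter, mem_range]
      exact ⟨by omega, hn.2⟩
    omega
  have h5' : (x : ℝ) ≤ G.card + δ * ((x + 1 : ℕ) : ℝ) := by
    have : (x : ℝ) ≤ G.card + (cnt (range (x + 1)) (fun n => ¬ H (k + 1) n (k * t)) : ℝ) := by
      exact_mod_cast h5
    linarith
  push_cast at h5'
  have h8 : τ * Real.log x ≤ t + 1 := by
    have c4 : τ * Real.log ((x + 1 : ℕ) : ℝ) < t + 1 := Nat.lt_floor_add_one _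
    have c5 : Real.log x ≤ Real.log ((x + 1 : ℕ) : ℝ) :=
      Real.log_le_log (by positivity) (by push_cast; linarith)
    have := mul_le_mul_of_nonneg_left c5 hτ0
    linarith
  refine le_trans ?_ h4
  -- `G.card ≥ (1 - 2 δ) x`, `k t ≥ k τ log x - k`
  have h9 : (1 - 2 * δ) * x ≤ G.card := by nlinarith
  have h10 : k * τ * Real.log x - k ≤ k * t := by
    have := mul_le_mul_of_nonneg_left h8 (Nat.cast_nonneg (α := ℝ) k)
    linarith
  have h11 : (G.card : ℝ) ≤ x := by
    have : G.card ≤ (Icc 1 x).card := card_filter_le _ _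
    rw [Nat.card_Icc, Nat.add_sub_cancel] at this
    exact_mod_cast this
  have hG0 : (0 : ℝ) ≤ G.card := Nat.cast_nonneg _
  have h12 : (k * τ * Real.log x - k) * G.card ≤ k * t * G.card :=
    mul_le_mul_of_nonneg_right h10 hG0
  refine le_trans ?_ h12
  have h13 : k * τ * Real.log x * ((1 - 2 * δ) * x) ≤ k * τ * Real.log x * G.card :=
    mul_le_mul_of_nonneg_left h9 (by positivity)
  have h14 : (k : ℝ) * G.card ≤ k * x := mul_le_mul_of_nonneg_left h11 (Nat.cast_nonneg k)
  have h15 : k * τ * (2 * δ) ≤ ε / 2 := by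
    rw [hδ]
    have : k * τ * (2 * (ε / (4 * (k * τ + 1)))) = (ε / 2) * (k * τ / (k * τ + 1)) := by
      field_simp
      ring
    rw [this]
    have h16 : k * τ / (k * τ + 1) ≤ 1 := (div_le_one (by positivity)).2 (by linarith)
    nlinarith
  have h16 : (k * τ * (2 * δ)) * (x * Real.log x) ≤ ε / 2 * (x * Real.log x) :=
    mul_le_mul_of_nonneg_right h15 (by positivity)
  have h17 : (k : ℝ) * x ≤ ε / 2 * (x * Real.log x) := by
    have : (k : ℝ) ≤ ε / 2 * Real.log x := by linarith
    nlinarith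
  nlinarith

end Pool.Agent.NH76.FE
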