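import Pool.Agent.NH76.FE.Par
import Pool.Agent.NH76.FE.Ev
import Pool.Agent.NH76.FE.Up

/-!
# The number of bad pairs is small
-/

set_option autoImplicit false

open Finset Filter

namespace Pool.Agent.NH76.FE

/-- the decomposition of the modulus -/
theorem qq_split {p : ℕ} (hp : p.Prime) (N : ℕ) : ∃ a q' : ℕ, qq N = p ^ a * q' ∧
    Nat.Coprime p q' ∧ thp p * Real.log N - Real.log p ≤ a * Real.log p ∧
    a * Real.log p ≤ thp p * Real.log N := by
  by_cases h2 : p = 2
  · subst h2
    refine ⟨aa th2 2 N, 3 ^ aa th3 3 N, rfl, Nat.Coprime.pow_right _ (by norm_num), ?_, ?_⟩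
    · have : thp 2 = th2 := by unfold thp; simp
      rw [this]
      exact aa_lower (by norm_num)
    · have : thp 2 = th2 := by unfold thp; simp
      rw [this]
      exact aa_upper th2_pos.le (by norm_num)
  · by_cases h3 : p = 3
    · subst h3
      refine ⟨aa th3 3 N, 2 ^ aa th2 2 N, by unfold qq; rw [mul_comm],
        Nat.Coprime.pow_right _ (by norm_num), ?_, ?_⟩
      · have : thp 3 = th3 := by unfold thp; simp
        rw [this]
        exact aa_lower (by norm_num)
      · have : thp 3 = th3 := by unfold thp; simp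
        rw [this]
        exact aa_upper th3_pos.le (by norm_num)
    · refine ⟨0, qq N, by rw [pow_zero, one_mul], qq_coprime hp h2 h3 N, ?_, ?_⟩
      · have : thp p = 0 := by unfold thp; simp [h2, h3]
        rw [this, Nat.cast_zero, zero_mul, zero_mul]
        have := Real.log_natCast_nonneg p
        linarith
      · have : thp p = 0 := by unfold thp; simp [h2, h3]
        rw [this, Nat.cast_zero, zero_mul, zero_mul]

/-- a fixed prime -/
theorem lemA {τ η δ : ℝ} (hτ0 : 0 < τ) (hτ : τ < 4 / Real.log 48) (hη : 0 < η) (hη1 : η ≤ 1)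
    (hδ : 0 < δ) {p : ℕ} (hp : p.Prime) : ∀ᶠ N : ℕ in atTop,
    (cnt (FF N (tt τ N) (qq N) (MM η N)) (fun z => Bad2' (tt τ N) p z.1 z.2) : ℝ) ≤
      N * (SS (tt τ N) (qq N) (MM η N)).card * δ := by
  have hlp : 0 < Real.log p := Real.log_pos (by exact_mod_cast hp.one_lt)
  have hp1 : (0 : ℝ) < (p : ℝ) - 1 := by
    have : (1 : ℝ) < p := by exact_mod_cast hp.one_lt
    linarith
  set r := Real.log p / ((p : ℝ) - 1) with hr
  have hr0 : 0 < r := by positivity
  obtain ⟨g1, g2⟩ := gap hp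
  rw [← hr] at g1 g2
  set g := (4 / Real.log 48 - τ) * r with hg
  have hg0 : 0 < g := mul_pos (by linarith) hr0
  have g1' : τ * r + g ≤ (1 + thp p) / 2 := by rw [hg]; linarith
  have g2' : τ * r + g ≤ thp p + (1 - (th2 + th3)) := by rw [hg]; linarith
  set κ := min (g / 4) (1 / 2) with hκ
  have hκ0 : 0 < κ := lt_min (by positivity) (by norm_num)
  have hκ1 : κ < 1 := (min_le_right _ _).trans_lt (by norm_num)
  have hκg : κ ≤ g / 4 := min_le_left _ _
  set C := |Real.log (η / 2)| + (Real.log 2 + Real.log 3) + Real.log p with hC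
  have hCp : Real.log p ≤ C := by
    have := abs_nonneg (Real.log (η / 2))
    have := l2pos
    have := l3pos
    rw [hC]; linarith
  have hC0 : 0 < C := hlp.trans_le hCp
  set A := (1 + 96 / (κ ^ 2 * (δ / 3))) * Real.log p with hA
  have ht1 : 0 < 1 - (th2 + th3) := by rw [th_sum]; exact th2_pos
  have ht2 := thp_lt p
  filter_upwards [ev_L hτ0 (s := g / 48) (by positivity), ev_M hη, ev_q_le hη,
    ev_log ((A + 4 * C) / (1 - (th2 + th3))), ev_log ((A + 4 * C) / (th2 + th3 - thp p)),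
    ev_log (8 * C / (g / 2)), ev_T hτ0 (6 / δ), ev_TT hτ0] with N e1 e2 e3 e4 e5 e6 e7 e8
  rw [div_le_iff₀ ht1] at e4
  rw [div_le_iff₀ ht2] at e5
  rw [div_le_iff₀ (by positivity)] at e6
  have hx : 0 ≤ Real.log N := Real.log_natCast_nonneg N
  obtain ⟨a, q', hq, hcop, ha1, ha2⟩ := qq_split hp N
  have hq1 := qq_lower N
  have hq2 := qq_upper N
  have hCb : Real.log 2 + Real.log 3 ≤ C := by
    have := abs_nonneg (Real.log (η / 2))
    rw [hC]; linarith
  have hCc : |Real.log (η / 2)| ≤ C := by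
    have := l2pos
    have := l3pos
    rw [hC]; linarith
  have hθ0 := thp_nonneg p
  have hθ1 := thp_le_one p
  have hst : 1 - (th2 + th3) ≤ 1 := by
    have := th2_pos
    have := th3_pos
    linarith
  obtain ⟨J1, i1, J2, K1, K2, k1, k2, k3, k4, k5, k6, k7, k8, k9⟩ := exists_param (p := p) (a := a)
    (q := qq N) (M := MM η N) (t := tt τ N) (x := Real.log N) (C := C) (θp := thp p)
    (θ := th2 + th3) (τ := τ) (κ := κ) (s := g / 48) (δ := δ / 3) hp (qq_pos N) e3 hCp
    (by linarith) ha2 (by linarith) hq2 (by linarith) (tt_upper hτ0.le N) e1 hκ0 hκ1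
    (by positivity) (by linarith) (by linarith)
    (by
      have f1 : κ / 2 * ((1 - thp p) * Real.log N) ≤ g / 4 * Real.log N := by
        have f2 : (1 - thp p) * Real.log N ≤ 1 * Real.log N :=
          mul_le_mul_of_nonneg_right (by linarith) hx
        have f3 : 0 ≤ (1 - thp p) * Real.log N := mul_nonneg (by linarith) hx
        calc κ / 2 * ((1 - thp p) * Real.log N) ≤ g / 4 * ((1 - thp p) * Real.log N) :=
              mul_le_mul_of_nonneg_right (by linarith) f3
          _ ≤ g / 4 * (1 * Real.log N) := mul_le_mul_of_nonneg_left f2 (by positivity)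
          _ = _ := by ring
      have f4 := mul_le_mul_of_nonneg_right g1' hx
      rw [← hr]
      linarith)
    (by
      have f1 : κ * ((1 - (th2 + th3)) * Real.log N) ≤ g / 4 * Real.log N := by
        have f2 : (1 - (th2 + th3)) * Real.log N ≤ 1 * Real.log N :=
          mul_le_mul_of_nonneg_right hst hx
        have f3 : 0 ≤ (1 - (th2 + th3)) * Real.log N := mul_nonneg ht1.le hx
        calc κ * ((1 - (th2 + th3)) * Real.log N) ≤ g / 4 * ((1 - (th2 + th3)) * Real.log N) :=
              mul_le_mul_of_nonneg_right hκg f3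
          _ ≤ g / 4 * (1 * Real.log N) := mul_le_mul_of_nonneg_left f2 (by positivity)
          _ = _ := by ring
      have f4 := mul_le_mul_of_nonneg_right g2' hx
      rw [← hr]
      linarith)
  have h1 := cls_prime (N := N) hp (qq_pos N) hq hcop k1 k2 k3 k4 (M_le hη1 N) k5 k6 k7
  refine h1.trans (mul_le_mul_of_nonneg_left ?_ (by positivity))
  have hT : (0 : ℝ) < (tt τ N : ℝ) + 1 := by positivity
  have hT1 : (1 : ℝ) ≤ (tt τ N : ℝ) + 1 := by
    have := Nat.cast_nonneg (α := ℝ) (tt τ N)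
    linarith
  have hN0 : (0 : ℝ) < N := lt_of_lt_of_le (by positivity) e8
  have h2 : ((tt τ N : ℝ) + 1) * (1 / ((tt τ N : ℝ) + 1) ^ 6 + 1 / N) ≤ δ / 3 := by
    set T := (tt τ N : ℝ) + 1
    have h3 : 1 / T ^ 6 ≤ 1 / T ^ 2 := by
      refine div_le_div_of_nonneg_left zero_le_one (by positivity) ?_
      exact pow_le_pow_right₀ hT1 (by norm_num)
    have h4 : 1 / (N : ℝ) ≤ 1 / T ^ 2 := div_le_div_of_nonneg_left zero_le_one (by positivity) e8
    calc T * (1 / T ^ 6 + 1 / N) ≤ T * (1 / T ^ 2 + 1 / T ^ 2) :=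
          mul_le_mul_of_nonneg_left (add_le_add h3 h4) hT.le
      _ = 2 / T := by field_simp; ring
      _ ≤ δ / 3 := by
          rw [div_le_iff₀ hT]
          rw [div_le_iff₀ hδ] at e7
          linarith
  linarith

/-- the larger primes -/
theorem lemB {τ η : ℝ} (hτ0 : 0 < τ) (hη : 0 < η) (hη1 : η ≤ 1) :
    ∃ P0 : ℕ, ∀ᶠ N : ℕ in atTop, ∀ p : ℕ, p.Prime → P0 < p → p ≤ (tt τ N + 1) ^ 3 →
    (cnt (FF N (tt τ N) (qq N) (MM η N)) (fun z => Bad2' (tt τ N) p z.1 z.2) : ℝ) ≤
      N * (SS (tt τ N) (qq N) (MM η N)).card * (32 * (1 / ((tt τ N : ℝ) + 1) ^ 4)) := by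
  -- `log p / (p - 1)` is small
  set w0 := 1 - (th2 + th3) with hw0
  have hw : 0 < w0 := by rw [hw0, th_sum]; exact th2_pos
  set ε1 := w0 / (48 * τ) with hε1
  have hε1pos : 0 < ε1 := by positivity
  have h1 := (Real.isLittleO_log_id_atTop.def (half_pos hε1pos))
  have h2 := (tendsto_natCast_atTop_atTop (R := ℝ)).eventually h1
  obtain ⟨Y, hY⟩ := eventually_atTop.1 h2
  refine ⟨max Y 3, ?_⟩
  set C := |Real.log (η / 2)| + 1 with hC
  have hC0 : 0 < C := by positivity
  filter_upwards [ev_L hτ0 (s := w0 / 600) (by positivity),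
    ev_L2 hτ0 (s := w0 / 400) (by positivity), ev_M hη, ev_q_le hη,
    ev_log (C / (w0 / 100))] with N e1 e2 e3 e4 e5 p hp hpP hpT
  rw [div_le_iff₀ (by positivity)] at e5
  have hx : 0 ≤ Real.log N := Real.log_natCast_nonneg N
  have hpY : Y ≤ p := (le_max_left _ _).trans hpP.le
  have hp3 : 3 < p := (le_max_right _ _).trans_lt hpP
  have hcop := qq_coprime hp (by omega) (by omega) N
  have hlp : 0 < Real.log p := Real.log_pos (by exact_mod_cast hp.one_lt)
  have hp1 : (0 : ℝ) < (p : ℝ) - 1 := by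
    have : (1 : ℝ) < p := by exact_mod_cast hp.one_lt
    linarith
  set L := Real.log ((tt τ N : ℝ) + 1) with hL
  have hT1 : (1 : ℝ) ≤ (tt τ N : ℝ) + 1 := by
    have := Nat.cast_nonneg (α := ℝ) (tt τ N)
    linarith
  have hL0 : 0 ≤ L := Real.log_nonneg hT1
  have hpL : Real.log p ≤ 3 * L := by
    have h3 : Real.log p ≤ Real.log (((tt τ N : ℝ) + 1) ^ 3) :=
      Real.log_le_log (by positivity) (by exact_mod_cast hpT)
    rw [Real.log_pow] at h3
    push_cast at h3
    exact h3
  have hpr : Real.log p ≤ ε1 * ((p : ℝ) - 1) := by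
    have h3 := hY p hpY
    simp only [id, Real.norm_eq_abs] at h3
    rw [abs_of_nonneg (Real.log_natCast_nonneg p),
      abs_of_nonneg (Nat.cast_nonneg (α := ℝ) p)] at h3
    have h5 : (3 : ℝ) < p := by exact_mod_cast hp3
    have h6 : (p : ℝ) / 2 ≤ (p : ℝ) - 1 := by linarith
    have h7 := mul_le_mul_of_nonneg_left h6 hε1pos.le
    linarith
  set J := Nat.log p (MM η N / qq N) with hJ
  have f1 := J1_lower (p := p) hp.one_lt (qq_pos N) e4
  rw [← hJ] at f1
  have f2 := qq_upper N
  have f3 : w0 * Real.log N - C - 3 * L ≤ J * Real.log p := by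
    have : (th2 + th3) * Real.log N = Real.log N - w0 * Real.log N := by rw [hw0]; ring
    have hC1 : |Real.log (η / 2)| ≤ C := by rw [hC]; linarith
    linarith
  -- `24 K ≤ J`
  have hK : 24 * K p (tt τ N) ≤ J := by
    have h3 : ((tt τ N / (p - 1) : ℕ) : ℝ) * Real.log p ≤ τ * Real.log N * ε1 := by
      have h4 : ((tt τ N / (p - 1) : ℕ) : ℝ) ≤ (tt τ N : ℝ) / ((p - 1 : ℕ) : ℝ) :=
        Nat.cast_div_le
      rw [Nat.cast_sub hp.one_lt.le, Nat.cast_one] at h4
      calc ((tt τ N / (p - 1) : ℕ) : ℝ) * Real.log p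
          ≤ (tt τ N : ℝ) / ((p : ℝ) - 1) * (ε1 * ((p : ℝ) - 1)) :=
            mul_le_mul h4 hpr hlp.le (by positivity)
        _ = (tt τ N : ℝ) * ε1 := by field_simp
        _ ≤ _ := mul_le_mul_of_nonneg_right (tt_upper hτ0.le N) hε1pos.le
    have h5 : τ * Real.log N * ε1 = w0 * Real.log N / 48 := by
      rw [hε1]; field_simp
    have h6 : (W p (tt τ N) : ℝ) * Real.log p ≤ 6 * L := by
      have h7 := log_mul_le (n := (tt τ N + 1) ^ 6) hp.one_lt (by positivity)
      rw [Nat.cast_pow, Real.log_pow] at h7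
      push_cast at h7
      unfold W
      exact h7
    have h8 : (24 * (K p (tt τ N) : ℝ)) * Real.log p ≤ J * Real.log p := by
      unfold K
      push_cast
      have : (24 * ((((tt τ N / (p - 1) : ℕ) : ℝ)) + (W p (tt τ N) : ℝ))) * Real.log p =
        24 * (((tt τ N / (p - 1) : ℕ) : ℝ) * Real.log p) +
        24 * ((W p (tt τ N) : ℝ) * Real.log p) := by ring
      rw [this]
      linarith
    have h9 : 24 * (K p (tt τ N) : ℝ) ≤ J := le_of_mul_le_mul_right h8 hlp
    exact_mod_cast h9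
  have h3 := cls_prime_exp (N := N) (t := tt τ N) hp (qq_pos N) hcop
    (J1_pow (p := p) (qq_pos N) e4) (M_le hη1 N) hK
  refine h3.trans (mul_le_mul_of_nonneg_left ?_ (by positivity))
  -- `J ≥ 32 L`
  have hJL : 32 * L ≤ J := by
    have h4 : (32 * L) * Real.log p ≤ J * Real.log p := by
      have h5 : (32 * L) * Real.log p ≤ (32 * L) * (3 * L) :=
        mul_le_mul_of_nonneg_left hpL (by positivity)
      have h6 : (32 * L) * (3 * L) = 96 * L ^ 2 := by ring
      linarith
    exact le_of_mul_le_mul_right h4 hlp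
  have h4 : (7 / 8 : ℝ) ^ J ≤ 1 / ((tt τ N : ℝ) + 1) ^ 4 := by
    have h5 : (7 / 8 : ℝ) ≤ Real.exp (-(1 / 8)) := by
      have := Real.add_one_le_exp (-(1 / 8 : ℝ))
      linarith
    calc (7 / 8 : ℝ) ^ J ≤ (Real.exp (-(1 / 8))) ^ J := pow_le_pow_left₀ (by norm_num) h5 J
      _ = Real.exp (-(J / 8)) := by rw [← Real.exp_nat_mul]; congr 1; ring
      _ ≤ Real.exp (-(4 * L)) := Real.exp_le_exp.2 (by linarith)
      _ = 1 / ((tt τ N : ℝ) + 1) ^ 4 := by
          rw [Real.exp_neg, one_div, mul_comm, Real.exp_mul, hL,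
            Real.exp_log (by positivity)]
          norm_cast
  linarith

end Pool.Agent.NH76.FE
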