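import Mathlib

/-!
# Products of two factorials dividing a factorial: arithmetic

`B p J n m` is the number of `1 ≤ j ≤ J` with `n mod p ^ j < m mod p ^ j` (the borrows in `n - m`).
-/

set_option autoImplicit false

open Finset Nat

namespace Pool.Agent.NH76.FE

/-- the number of borrows among the first `J` digits -/
def B (p J n m : ℕ) : ℕ := ((Icc 1 J).filter fun j => n % p ^ j < m % p ^ j).card

theorem B_le {p J n m : ℕ} (hp : p.Prime) (h : m ≤ n) :
    B p J n m ≤ (choose n m).factorization p := by
  rw [factorization_choose hp h (b := max (J + 1) (log p n + 1)) (by omega)]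
  unfold B
  apply card_le_card
  intro j hj
  rw [mem_filter, mem_Icc] at hj
  rw [mem_filter, mem_Ico]
  refine ⟨⟨hj.1.1, by omega⟩, ?_⟩
  by_contra hcon
  rw [not_le] at hcon
  have h1 : n % p ^ j = m % p ^ j + (n - m) % p ^ j := by
    conv_lhs => rw [← Nat.add_sub_cancel' h]
    rw [Nat.add_mod, Nat.mod_eq_of_lt hcon]
  have h2 := hj.2
  rw [h1] at h2
  exact absurd h2 (not_lt.mpr (Nat.le_add_right _ _))

/-- the valuation of `(m + 1) ⋯ (m + t)` -/
theorem asc_val {p m t W : ℕ} (hp : p.Prime) (h : ∀ i, 1 ≤ i → i ≤ t → ¬ p ^ (W + 1) ∣ m + i) :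
    (p - 1) * ((m + 1).ascFactorial t).factorization p ≤ t + (p - 1) * W := by
  have : Fact p.Prime := ⟨hp⟩
  have h0 : (m + 1).ascFactorial t = t ! * (m + t).choose t :=
    ascFactorial_eq_factorial_mul_choose m t
  rw [h0, Nat.factorization_mul (factorial_ne_zero t)
    (choose_pos (Nat.le_add_left t m)).ne', Finsupp.add_apply, mul_add]
  have h1 : (p - 1) * (t !).factorization p ≤ t := by
    rw [Nat.factorization_def _ hp, sub_one_mul_padicValNat_factorial]
    exact Nat.sub_le _ _
  have h2 : ((m + t).choose t).factorization p ≤ W := by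
    rw [factorization_choose' hp (b := log p (m + t) + 1) (by omega)]
    calc _ ≤ (Icc 1 W).card := by
          apply card_le_card
          intro j hj
          rw [mem_filter, mem_Ico] at hj
          rw [mem_Icc]
          refine ⟨hj.1.1, ?_⟩
          by_contra hcon
          rw [not_le] at hcon
          have hdv : p ^ (W + 1) ∣ p ^ j := pow_dvd_pow p hcon
          have hq : 0 < p ^ j := pow_pos hp.pos j
          have hm : m % p ^ j < p ^ j := Nat.mod_lt _ hq
          have hle : p ^ j ≤ t + m % p ^ j := by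
            have := Nat.mod_le t (p ^ j)
            omega
          refine h (p ^ j - m % p ^ j) (by omega) (by omega) (hdv.trans ?_)
          refine ⟨m / p ^ j + 1, ?_⟩
          have := Nat.div_add_mod m (p ^ j)
          rw [mul_add, mul_one]
          omega
      _ = W := by simp
  have h3 : (p - 1) * ((m + t).choose t).factorization p ≤ (p - 1) * W :=
    Nat.mul_le_mul_left _ h2
  omega

theorem dvd_main {n m t : ℕ} (h : m ≤ n)
    (H : ∀ p : ℕ, p.Prime →
      ((m + 1).ascFactorial t).factorization p ≤ (choose n m).factorization p) :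
    (n - m)! * (m + t)! ∣ n ! := by
  have h1 : (m + 1).ascFactorial t ∣ choose n m :=
    (Nat.factorization_prime_le_iff_dvd (Nat.pos_of_ne_zero (by
      rw [Nat.ascFactorial_eq_prod_range]; exact Finset.prod_ne_zero_iff.mpr (fun i _ => by omega))).ne'
      (choose_pos h).ne').1 H
  rw [← factorial_mul_ascFactorial m t, ← choose_mul_factorial_mul_factorial h]
  have : (n - m)! * (m ! * (m + 1).ascFactorial t) = (m + 1).ascFactorial t * m ! * (n - m)! := by
    ring
  rw [this]
  exact Nat.mul_dvd_mul_right (Nat.mul_dvd_mul_right h1 _) _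

/-- there are `a_1, …, a_k` with sum at least `n + s` whose factorials have a product dividing `n!` -/
def H (k n s : ℕ) : Prop := ∃ a : Fin k → ℕ, (∏ i, (a i)!) ∣ n ! ∧ n + s ≤ ∑ i, a i

theorem H_one (n : ℕ) : H 1 n 0 := ⟨fun _ => n, by simp, by simp⟩

theorem H_succ {k n m s t : ℕ} (h : m ≤ n) (h1 : H k (n - m) s)
    (h2 : (n - m)! * (m + t)! ∣ n !) : H (k + 1) n (s + t) := by
  obtain ⟨a, ha1, ha2⟩ := h1
  refine ⟨Fin.snoc a (m + t), ?_, ?_⟩
  · rw [Fin.prod_univ_castSucc]
    simp only [Fin.snoc_castSucc, Fin.snoc_last]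
    exact (Nat.mul_dvd_mul_right ha1 _).trans h2
  · rw [Fin.sum_univ_castSucc]
    simp only [Fin.snoc_castSucc, Fin.snoc_last]
    omega

end Pool.Agent.NH76.FE
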