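import Pool.Agent.NH76.FE.Pairs

/-!
# Pairs whose second component lies in a residue class
-/

set_option autoImplicit false

open Finset

namespace Pool.Agent.NH76.FE

/-- borrows at higher positions -/
theorem B_shift {p i0 J n m : ℕ} (hp : 0 < p) :
    B p i0 n m + B p J (n / p ^ i0) (m / p ^ i0) ≤ B p (i0 + J) n m := by
  classical
  unfold B
  have h1 : ((Icc 1 J).filter fun j => n / p ^ i0 % p ^ j < m / p ^ i0 % p ^ j).card =
      (((Icc 1 J).filter fun j => n / p ^ i0 % p ^ j < m / p ^ i0 % p ^ j).image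
        (fun j => i0 + j)).card := by
    rw [card_image_of_injective _ (add_right_injective i0)]
  rw [h1, ← card_union_of_disjoint]
  · apply card_le_card
    intro j hj
    rw [mem_union, mem_filter, mem_image, mem_Icc] at hj
    rw [mem_filter, mem_Icc]
    rcases hj with hj | ⟨i, hi, rfl⟩
    · exact ⟨⟨hj.1.1, by omega⟩, hj.2⟩
    · rw [mem_filter, mem_Icc] at hi
      refine ⟨⟨by omega, by omega⟩, ?_⟩
      have hq : 0 < p ^ i0 := pow_pos hp _
      rw [pow_add, Nat.mod_mul, Nat.mod_mul]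
      have h2 := Nat.mod_lt n hq
      have h3 : p ^ i0 * (n / p ^ i0 % p ^ i) + p ^ i0 ≤ p ^ i0 * (m / p ^ i0 % p ^ i) := by
        rw [← Nat.mul_succ]
        exact Nat.mul_le_mul_left _ hi.2
      have h4 := Nat.zero_le (m % p ^ i0)
      omega
  · rw [disjoint_left]
    intro j hj hj2
    rw [mem_filter, mem_Icc] at hj
    rw [mem_image] at hj2
    obtain ⟨i, hi, rfl⟩ := hj2
    rw [mem_filter, mem_Icc] at hi
    omega

theorem B_mono {p J J' n m : ℕ} (h : J ≤ J') : B p J n m ≤ B p J' n m := by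
  unfold B
  apply card_le_card
  intro j hj
  rw [mem_filter, mem_Icc] at hj ⊢
  exact ⟨⟨hj.1.1, hj.1.2.trans h⟩, hj.2⟩

/-- borrows below a prescribed residue -/
theorem B_class {p a w t n m : ℕ} (hp : 1 < p) (hm : p ^ a ∣ m + (t + 1)) (hw : t + 1 < p ^ (w + 1))
    (hn : ∀ i, 1 ≤ i → i ≤ t + 1 → ¬ p ^ (w + 1) ∣ n + i) : a - w ≤ B p a n m := by
  unfold B
  calc a - w = (Ioc w a).card := by rw [Nat.card_Ioc]
    _ ≤ _ := by
      apply card_le_card
      intro j hj
      rw [mem_Ioc] at hj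
      rw [mem_filter, mem_Icc]
      refine ⟨⟨by omega, hj.2⟩, ?_⟩
      have hq : 0 < p ^ j := pow_pos (by omega) j
      have hdv : p ^ (w + 1) ∣ p ^ j := pow_dvd_pow p hj.1
      have hle : p ^ (w + 1) ≤ p ^ j := Nat.le_of_dvd hq hdv
      have h1 : p ^ j ∣ m + (t + 1) := (pow_dvd_pow p hj.2).trans hm
      have h2 : m % p ^ j + (t + 1) = p ^ j := by
        have h3 : (m + (t + 1)) % p ^ j = 0 := Nat.mod_eq_zero_of_dvd h1
        have h4 := Nat.mod_lt m hq
        have h4' := Nat.zero_le (m % p ^ j)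
        rw [Nat.add_mod, Nat.mod_eq_of_lt (show t + 1 < p ^ j by omega)] at h3
        rcases lt_or_ge (m % p ^ j + (t + 1)) (p ^ j) with hlt | hge
        · rw [Nat.mod_eq_of_lt hlt] at h3; omega
        · rw [Nat.mod_eq_sub_mod hge, Nat.mod_eq_of_lt (by omega)] at h3; omega
      by_contra hcon
      rw [not_lt] at hcon
      have h5 := Nat.mod_lt n hq
      refine hn (p ^ j - n % p ^ j) (by omega) (by omega) (hdv.trans ?_)
      refine ⟨n / p ^ j + 1, ?_⟩
      have := Nat.div_add_mod n (p ^ j)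
      rw [mul_add, mul_one]
      omega

/-- borrows at a large prime -/
theorem B_large {p W t n m : ℕ} (hp : 1 < p) (htp : t < p) {i : ℕ} (hi1 : 1 ≤ i) (hit : i ≤ t)
    (hm : p ^ W ∣ m + i) (hn : p ∣ m + i → n % p < m % p) : W ≤ B p W n m := by
  unfold B
  calc W = (Icc 1 W).card := by rw [Nat.card_Icc]; omega
    _ ≤ _ := by
      apply card_le_card
      intro j hj
      rw [mem_Icc] at hj
      rw [mem_filter, mem_Icc]
      refine ⟨hj, ?_⟩
      have hq : 0 < p ^ j := pow_pos (by omega) j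
      have hpj : p ∣ p ^ j := dvd_pow_self p (by omega)
      have hle : p ≤ p ^ j := Nat.le_of_dvd hq hpj
      have h1 : p ^ j ∣ m + i := (pow_dvd_pow p hj.2).trans hm
      have key : ∀ r, 0 < r → p ≤ r → r ∣ m + i → m % r + i = r := by
        intro r hr hpr hdv
        have h3 : (m + i) % r = 0 := Nat.mod_eq_zero_of_dvd hdv
        have h4 := Nat.mod_lt m hr
        have h4' := Nat.zero_le (m % r)
        rw [Nat.add_mod, Nat.mod_eq_of_lt (show i < r by omega)] at h3
        rcases lt_or_ge (m % r + i) r with hlt | hge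
        · rw [Nat.mod_eq_of_lt hlt] at h3; omega
        · rw [Nat.mod_eq_sub_mod hge, Nat.mod_eq_of_lt (by omega)] at h3; omega
      have h2 := key (p ^ j) hq hle h1
      have h3 := key p (by omega) le_rfl (hpj.trans h1)
      have h4 := hn (hpj.trans h1)
      by_contra hcon
      rw [not_lt] at hcon
      have h5 := Nat.mod_lt n hq
      -- `n ≡ - s` with `s ≤ i`
      have h6 : p ∣ n + (p ^ j - n % p ^ j) := by
        refine hpj.trans ⟨n / p ^ j + 1, ?_⟩
        have := Nat.div_add_mod n (p ^ j)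
        rw [mul_add, mul_one]
        omega
      have h7 : (n % p + (p ^ j - n % p ^ j)) % p = 0 := by
        have := Nat.mod_eq_zero_of_dvd h6
        rw [Nat.add_mod] at this
        rw [Nat.add_mod, Nat.mod_mod]
        exact this
      have h8 := Nat.mod_lt n (show 0 < p by omega)
      rw [Nat.mod_eq_of_lt (by omega)] at h7
      omega

/-- a pair which is not bad -/
theorem good_of2 {t n m : ℕ} (hmn : m ≤ n)
    (h12 : ∀ p : ℕ, p.Prime → p ≤ (t + 1) ^ 3 → ¬ Bad1 t p m ∧ ∃ L, K p t ≤ B p L n m)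
    (h34 : ∀ p : ℕ, p.Prime → (t + 1) ^ 3 < p → ¬ Bad4 t p n m) :
    (n - m).factorial * (m + t).factorial ∣ n.factorial := by
  classical
  refine dvd_main hmn fun p hp => ?_
  by_cases hpt : p ≤ (t + 1) ^ 3
  · obtain ⟨h1, L, h2⟩ := h12 p hp hpt
    have hv := asc_val (p := p) (m := m) (t := t) (W := W p t) hp (fun i hi1 hi2 hdvd =>
      h1 ⟨i, mem_Icc.2 ⟨hi1, hi2⟩, hdvd⟩)
    have hp1 : 0 < p - 1 := by have := hp.two_le; omega
    have hv2 : ((m + 1).ascFactorial t).factorization p ≤ K p t := by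
      unfold K
      have : ((m + 1).ascFactorial t).factorization p ≤ (t + (p - 1) * W p t) / (p - 1) := by
        rw [Nat.le_div_iff_mul_le hp1, mul_comm]
        exact hv
      rw [Nat.add_mul_div_left _ _ hp1] at this
      exact this
    exact hv2.trans (h2.trans (B_le hp hmn))
  · rw [not_le] at hpt
    have h4 := h34 p hp hpt
    have hbig : t + 1 < p := by
      refine lt_of_le_of_lt ?_ hpt
      exact Nat.le_self_pow (by norm_num) _
    have hex : ∃ w, ∀ i, 1 ≤ i → i ≤ t → ¬ p ^ (w + 1) ∣ m + i := by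
      refine ⟨m + t, fun i hi1 hi2 hdvd => ?_⟩
      have h5 := Nat.le_of_dvd (by omega) hdvd
      have h6 : m + t + 1 < p ^ (m + t + 1) := Nat.lt_pow_self hp.one_lt
      omega
    have hfind := Nat.find_spec hex
    set w := Nat.find hex with hw
    have hv := asc_val (p := p) (m := m) (t := t) (W := w) hp hfind
    have hv2 : ((m + 1).ascFactorial t).factorization p ≤ w := by
      by_contra hcon
      rw [not_le] at hcon
      have h5 : (p - 1) * (w + 1) ≤ (p - 1) * ((m + 1).ascFactorial t).factorization p :=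
        Nat.mul_le_mul_left _ hcon
      rw [mul_add, mul_one] at h5
      omega
    rcases Nat.eq_zero_or_pos w with h0 | h0
    · rw [h0] at hv2
      exact hv2.trans (Nat.zero_le _)
    · have h5 := Nat.find_min hex (m := w - 1) (by omega)
      rw [not_forall] at h5
      obtain ⟨i, hi⟩ := h5
      rw [not_forall] at hi
      obtain ⟨hi1, hi⟩ := hi
      rw [not_forall] at hi
      obtain ⟨hi2, hi⟩ := hi
      rw [not_not, Nat.sub_add_cancel h0] at hi
      have h6 : w ≤ B p w n m := B_large hp.one_lt (by omega) hi1 hi2 hi (fun hdv => by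
        by_contra hcon
        exact h4 ⟨i, mem_Icc.2 ⟨hi1, hi2⟩, hdv, hcon⟩)
      exact hv2.trans (h6.trans (B_le hp hmn))

/-! ### The residue class -/

/-- the numbers `m` in `[M, 2M)` with `m ≡ - t - 1` modulo `q` -/
def SS (t q M : ℕ) : Finset ℕ := (Ico M (M + M)).filter fun m => q ∣ m + (t + 1)

theorem mem_SS {t q M m : ℕ} : m ∈ SS t q M ↔ (M ≤ m ∧ m < M + M) ∧ q ∣ m + (t + 1) := by
  unfold SS
  rw [mem_filter, mem_Ico]

theorem SS_modEq {t q M m m' : ℕ} (h : m ∈ SS t q M) (h' : m' ∈ SS t q M) : m ≡ m' [MOD q] := by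
  rw [mem_SS] at h h'
  have : m + (t + 1) ≡ m' + (t + 1) [MOD q] :=
    (Nat.modEq_zero_iff_dvd.2 h.2).trans (Nat.modEq_zero_iff_dvd.2 h'.2).symm
  exact Nat.ModEq.add_right_cancel' (t + 1) this

theorem card_SS {t q M : ℕ} (hq : 0 < q) : M / q ≤ (SS t q M).card := by
  obtain ⟨δ, hδq, hdv⟩ : ∃ δ, δ < q ∧ q ∣ M + t + 1 + δ := by
    refine ⟨(q - (M + t + 1) % q) % q, Nat.mod_lt _ hq, ?_⟩
    rw [Nat.dvd_iff_mod_eq_zero, Nat.add_mod, Nat.mod_mod, ← Nat.add_mod]
    have h1 := Nat.mod_lt (M + t + 1) hq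
    have h1' := Nat.zero_le ((M + t + 1) % q)
    have h2 : (M + t + 1 + (q - (M + t + 1) % q)) = q * ((M + t + 1) / q + 1) := by
      have := Nat.div_add_mod (M + t + 1) q
      rw [mul_add, mul_one]
      omega
    rw [h2, Nat.mul_mod_right]
  calc M / q = (range (M / q)).card := (card_range _).symm
    _ ≤ (SS t q M).card := by
      refine card_le_card_of_injOn (fun i => M + i * q + δ) ?_ ?_
      · intro i hi
        rw [mem_coe, mem_range] at hi
        rw [mem_coe, mem_SS]
        change (M ≤ M + i * q + δ ∧ M + i * q + δ < M + M) ∧ q ∣ M + i * q + δ + (t + 1)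
        have h1 : (i + 1) * q ≤ M := (Nat.mul_le_mul_right q hi).trans (Nat.div_mul_le_self M q)
        have h2 : (i + 1) * q = i * q + q := by ring
        refine ⟨⟨by omega, by omega⟩, ?_⟩
        have h3 : M + i * q + δ + (t + 1) = q * i + (M + t + 1 + δ) := by ring
        rw [h3]
        exact (Nat.dvd_mul_right q i).add hdv
      · intro i _ j _ hij
        have h1 : M + i * q + δ = M + j * q + δ := hij
        have h2 : i * q = j * q := by omega
        exact Nat.eq_of_mul_eq_mul_right hq h2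

/-- a further congruence modulo a coprime number -/
theorem SS_dvd {t q M d i : ℕ} (hqd : Nat.Coprime q d) :
    ((SS t q M).filter fun m => d ∣ m + i).card ≤ M / (q * d) + 1 := by
  refine card_cong (a := M) _ ?_ ?_
  · intro x hx
    rw [mem_filter, mem_SS] at hx
    exact hx.1.1
  · intro x hx y hy
    rw [mem_filter] at hx hy
    rw [← Nat.modEq_and_modEq_iff_modEq_mul hqd]
    refine ⟨SS_modEq hx.1 hy.1, ?_⟩
    have h3 : x + i ≡ y + i [MOD d] :=
      (Nat.modEq_zero_iff_dvd.2 hx.2).trans (Nat.modEq_zero_iff_dvd.2 hy.2).symm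
    exact Nat.ModEq.add_right_cancel' i h3

/-- the fibres of the digits `i0, …, i0 + J - 1`, first component -/
theorem nfib {p i0 J N x : ℕ} (hp : 0 < p) :
    ((range N).filter fun n => n / p ^ i0 % p ^ J = x).card ≤ p ^ i0 * (N / p ^ (i0 + J) + 1) := by
  have hq : 0 < p ^ i0 := pow_pos hp _
  have h1 : ((range N).filter fun n => n / p ^ i0 % p ^ J = x).card ≤
      (N / p ^ (i0 + J) + 1) * (range (p ^ i0)).card := by
    refine card_le_mul_card_image_of_maps_to (f := fun n => n % p ^ i0) ?_ _ ?_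
    · intro n _
      exact mem_range.2 (Nat.mod_lt _ hq)
    · intro s _
      refine card_cong (a := 0) _ ?_ ?_
      · intro n hn
        rw [mem_filter, mem_filter, mem_range] at hn
        exact ⟨Nat.zero_le _, by omega⟩
      · intro n hn n' hn'
        rw [mem_filter, mem_filter] at hn hn'
        unfold Nat.ModEq
        rw [pow_add, Nat.mod_mul, Nat.mod_mul, hn.2, hn'.2, hn.1.2, hn'.1.2]
  rw [card_range, mul_comm] at h1
  exact h1

/-- the fibres of the low digits, second component -/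
theorem mfib_low {p a J t q M y : ℕ} (hp : 0 < p) {q' : ℕ} (hq : q = p ^ a * q')
    (hc : Nat.Coprime p q') :
    ((SS t q M).filter fun m => m / p ^ a % p ^ J = y).card ≤ M / (q * p ^ J) + 1 := by
  refine card_cong (a := M) _ ?_ ?_
  · intro x hx
    rw [mem_filter, mem_SS] at hx
    exact hx.1.1
  · intro m hm m' hm'
    rw [mem_filter] at hm hm'
    have h1 := SS_modEq hm.1 hm'.1
    rw [hq] at h1
    have h2 : m ≡ m' [MOD p ^ a] := Nat.ModEq.of_mul_right q' h1
    have h3 : m ≡ m' [MOD q'] := Nat.ModEq.of_mul_left (p ^ a) h1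
    have h4 : m ≡ m' [MOD p ^ (a + J)] := by
      unfold Nat.ModEq
      rw [pow_add, Nat.mod_mul, Nat.mod_mul, hm.2, hm'.2]
      rw [show m % p ^ a = m' % p ^ a from h2]
    have h5 : q * p ^ J = p ^ (a + J) * q' := by rw [hq, pow_add]; ring
    rw [h5, ← Nat.modEq_and_modEq_iff_modEq_mul (Nat.Coprime.pow_left _ hc)]
    exact ⟨h4, h3⟩

/-- the fibres of the top digits, second component -/
theorem mfib_top {p i1 J t q M y : ℕ} (hp : 0 < p) :
    ((SS t q M).filter fun m => m / p ^ i1 % p ^ J = y).card ≤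
      (p ^ i1 / q + 1) * ((M / p ^ i1 + 2) / p ^ J + 1) := by
  have hq : 0 < p ^ i1 := pow_pos hp _
  set A := (Ico (M / p ^ i1) (M / p ^ i1 + (M / p ^ i1 + 2))).filter fun x => x % p ^ J = y with hA
  have hAc : A.card ≤ (M / p ^ i1 + 2) / p ^ J + 1 := card_mod
  refine le_trans ?_ (Nat.mul_le_mul_left _ hAc)
  refine card_le_mul_card_image_of_maps_to (f := fun m => m / p ^ i1) ?_ _ ?_
  · intro m hm
    rw [mem_filter, mem_SS] at hm
    rw [hA, mem_filter, mem_Ico]
    refine ⟨⟨Nat.div_le_div_right hm.1.1.1, ?_⟩, hm.2⟩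
    rw [Nat.div_lt_iff_lt_mul hq]
    have h1 := Nat.lt_div_mul_add (a := M) hq
    have h2 : (M / p ^ i1 + (M / p ^ i1 + 2)) * p ^ i1 =
      (M / p ^ i1 * p ^ i1 + p ^ i1) + (M / p ^ i1 * p ^ i1 + p ^ i1) := by ring
    omega
  · intro x _
    refine card_cong (a := x * p ^ i1) _ ?_ ?_
    · intro m hm
      rw [mem_filter] at hm
      have h1 := Nat.div_mul_le_self m (p ^ i1)
      have h2 := Nat.lt_div_mul_add (a := m) hq
      rw [hm.2] at h1 h2
      exact ⟨h1, h2⟩
    · intro m hm m' hm'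
      rw [mem_filter, mem_filter] at hm hm'
      exact SS_modEq hm.1.1 hm'.1.1

end Pool.Agent.NH76.FE
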