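import Pool.Agent.NH76.FE.Cls

/-!
# Counting the bad pairs in a residue class
-/

set_option autoImplicit false

open Finset

namespace Pool.Agent.NH76.FE

/-- the pairs -/
def FF (N t q M : ℕ) : Finset (ℕ × ℕ) := range N ×ˢ SS t q M

theorem cnt_fst {N t q M : ℕ} (P : ℕ → Prop) :
    cnt (FF N t q M) (fun z => P z.1) = (SS t q M).card * cnt (range N) P := by
  classical
  have : (FF N t q M).filter (fun z => P z.1) = ((range N).filter P) ×ˢ SS t q M := by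
    ext z
    unfold FF
    simp only [mem_filter, mem_product]
    tauto
  rw [cnt_eq, cnt_eq, this, card_product, mul_comm]

theorem cnt_snd {N t q M : ℕ} (P : ℕ → Prop) :
    cnt (FF N t q M) (fun z => P z.2) = N * cnt (SS t q M) P := by
  classical
  have : (FF N t q M).filter (fun z => P z.2) = range N ×ˢ ((SS t q M).filter P) := by
    ext z
    unfold FF
    simp only [mem_filter, mem_product]
    tauto
  rw [cnt_eq, cnt_eq, this, card_product, card_range]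

/-- counting pairs through their digits -/
theorem pairs_gen {N p i0 J k t q M : ℕ} (hp : 0 < p) (hN : p ^ (i0 + J) ≤ N)
    (hfib : ∀ y, ((SS t q M).filter fun m => m / p ^ i0 % p ^ J = y).card * p ^ J ≤
      16 * (SS t q M).card) :
    (cnt (FF N t q M) (fun z => B p J (z.1 / p ^ i0) (z.2 / p ^ i0) < k) : ℝ) ≤
      (32 * N * (SS t q M).card / ((p ^ J : ℕ) : ℝ) ^ 2) *
        (((Q (p ^ J)).filter fun z => B p J z.1 z.2 < k).card : ℝ) := by
  classical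
  have hq : 0 < p ^ J := pow_pos hp _
  have hq' : (0 : ℝ) < ((p ^ J : ℕ) : ℝ) := by exact_mod_cast hq
  have hi : 0 < p ^ i0 := pow_pos hp _
  have hi' : (0 : ℝ) < ((p ^ i0 : ℕ) : ℝ) := by exact_mod_cast hi
  set f : ℕ × ℕ → ℕ × ℕ := fun z => (z.1 / p ^ i0 % p ^ J, z.2 / p ^ i0 % p ^ J) with hf
  set S := (FF N t q M).filter fun z => B p J (z.1 / p ^ i0) (z.2 / p ^ i0) < k with hS
  set T := (Q (p ^ J)).filter fun z => B p J z.1 z.2 < k with hT
  have hmap : ∀ z ∈ S, f z ∈ T := by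
    intro z hz
    rw [hS, mem_filter] at hz
    rw [hT, mem_filter, hf]
    refine ⟨?_, ?_⟩
    · unfold Q
      rw [mem_product]
      exact ⟨mem_range.2 (Nat.mod_lt _ hq), mem_range.2 (Nat.mod_lt _ hq)⟩
    · simp only [B_mod]
      exact hz.2
  have hfibre : ∀ y ∈ T, ((S.filter fun z => f z = y).card : ℝ) ≤
      32 * N * (SS t q M).card / ((p ^ J : ℕ) : ℝ) ^ 2 := by
    intro y _
    have h1 : (S.filter fun z => f z = y).card ≤
        ((range N).filter fun n => n / p ^ i0 % p ^ J = y.1).card *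
        ((SS t q M).filter fun m => m / p ^ i0 % p ^ J = y.2).card := by
      rw [← card_product]
      apply card_le_card
      intro z hz
      rw [mem_filter, hS, mem_filter] at hz
      unfold FF at hz
      rw [mem_product] at hz
      rw [mem_product, mem_filter, mem_filter]
      have h3 := hz.2
      refine ⟨⟨hz.1.1.1, ?_⟩, hz.1.1.2, ?_⟩
      · rw [← h3]
      · rw [← h3]
    have h2 : (((range N).filter fun n => n / p ^ i0 % p ^ J = y.1).card : ℝ) ≤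
        2 * N / ((p ^ J : ℕ) : ℝ) := by
      have e1 : (((range N).filter fun n => n / p ^ i0 % p ^ J = y.1).card : ℝ) ≤
          ((p ^ i0 : ℕ) : ℝ) * ((N / p ^ (i0 + J) + 1 : ℕ) : ℝ) := by
        exact_mod_cast nfib hp
      have e2 := div_bound (N := N) (q := p ^ (i0 + J)) (c := 1) (pow_pos hp _) (by omega)
      refine e1.trans ((mul_le_mul_of_nonneg_left e2 hi'.le).trans (le_of_eq ?_))
      have e3 : ((p ^ (i0 + J) : ℕ) : ℝ) = ((p ^ i0 : ℕ) : ℝ) * ((p ^ J : ℕ) : ℝ) := by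
        rw [pow_add]; push_cast; ring
      rw [e3]
      push_cast
      field_simp
      ring
    have h3 : (((SS t q M).filter fun m => m / p ^ i0 % p ^ J = y.2).card : ℝ) ≤
        16 * (SS t q M).card / ((p ^ J : ℕ) : ℝ) := by
      rw [le_div_iff₀ hq']
      exact_mod_cast hfib y.2
    calc ((S.filter fun z => f z = y).card : ℝ)
        ≤ (((range N).filter fun n => n / p ^ i0 % p ^ J = y.1).card : ℝ) *
          (((SS t q M).filter fun m => m / p ^ i0 % p ^ J = y.2).card : ℝ) := by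
          exact_mod_cast h1
      _ ≤ (2 * N / ((p ^ J : ℕ) : ℝ)) * (16 * (SS t q M).card / ((p ^ J : ℕ) : ℝ)) :=
          mul_le_mul h2 h3 (by positivity) (by positivity)
      _ = _ := by field_simp; ring
  rw [cnt_eq]
  have h4 : S.card = ∑ y ∈ T, (S.filter fun z => f z = y).card :=
    card_eq_sum_card_fiberwise hmap
  calc (S.card : ℝ) = ∑ y ∈ T, ((S.filter fun z => f z = y).card : ℝ) := by
        rw [h4]; push_cast; rfl
    _ ≤ ∑ _y ∈ T, 32 * N * (SS t q M).card / ((p ^ J : ℕ) : ℝ) ^ 2 := sum_le_sum hfibre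
    _ = _ := by rw [sum_const, nsmul_eq_mul]; ring

theorem Q_two {p J k : ℕ} (hp : 2 ≤ p) (h : 2 * k < J) :
    (((Q (p ^ J)).filter fun z => B p J z.1 z.2 < k).card : ℝ)
      ≤ 3 * J / ((J : ℝ) - 2 * k) ^ 2 * ((p ^ J : ℕ) : ℝ) ^ 2 := by
  have h2 := tail_two hp J k h.le
  have h3 : (0 : ℝ) < (J : ℝ) - 2 * k := by
    have : (2 : ℝ) * k < J := by exact_mod_cast h
    linarith
  have h4 : (((Q (p ^ J)).filter fun z => B p J z.1 z.2 < k).card : ℝ) * ((J : ℝ) - 2 * k) ^ 2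
      ≤ 3 * J * (p : ℝ) ^ (2 * J) := by exact_mod_cast h2
  have h5 : (((Q (p ^ J)).filter fun z => B p J z.1 z.2 < k).card : ℝ)
      ≤ 3 * J * (p : ℝ) ^ (2 * J) / ((J : ℝ) - 2 * k) ^ 2 := by
    rw [le_div_iff₀ (by positivity)]
    exact h4
  refine h5.trans (le_of_eq ?_)
  have : (p : ℝ) ^ (2 * J) = ((p ^ J : ℕ) : ℝ) ^ 2 := by push_cast; rw [← pow_mul, mul_comm]
  rw [this]
  ring

theorem Q_exp {p J k : ℕ} (hp : 2 ≤ p) (h : 24 * k ≤ J) :
    (((Q (p ^ J)).filter fun z => B p J z.1 z.2 < k).card : ℝ)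
      ≤ (7 / 8) ^ J * ((p ^ J : ℕ) : ℝ) ^ 2 := by
  have h2 := tail_exp hp J k (by omega)
  have h4 : (((Q (p ^ J)).filter fun z => B p J z.1 z.2 < k).card : ℝ) * (16 ^ (J - k) * 4 ^ J)
      ≤ 49 ^ J * (p : ℝ) ^ (2 * J) := by exact_mod_cast h2
  have h5 : (14 : ℝ) ^ J ≤ 16 ^ (J - k) := by
    have e1 : (16 : ℝ) ^ k ≤ (8 / 7) ^ J := by
      calc (16 : ℝ) ^ k ≤ ((8 / 7) ^ 24) ^ k := pow_le_pow_left₀ (by norm_num) (by norm_num) k
        _ = (8 / 7) ^ (24 * k) := by rw [pow_mul]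
        _ ≤ (8 / 7) ^ J := pow_le_pow_right₀ (by norm_num) h
    have e2 : (16 : ℝ) ^ J = 16 ^ (J - k) * 16 ^ k := by
      rw [← pow_add]; congr 1; omega
    have e3 : (14 : ℝ) ^ J * (8 / 7) ^ J = 16 ^ J := by rw [← mul_pow]; norm_num
    have e4 : (14 : ℝ) ^ J * (8 / 7) ^ J ≤ 16 ^ (J - k) * (8 / 7) ^ J := by
      rw [e3, e2]
      exact mul_le_mul_of_nonneg_left e1 (by positivity)
    exact le_of_mul_le_mul_right e4 (by positivity)
  have h6 : (((Q (p ^ J)).filter fun z => B p J z.1 z.2 < k).card : ℝ)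
      ≤ (7 / 8) ^ J * (p : ℝ) ^ (2 * J) := by
    have e5 : (((Q (p ^ J)).filter fun z => B p J z.1 z.2 < k).card : ℝ) * (56 : ℝ) ^ J
        ≤ 49 ^ J * (p : ℝ) ^ (2 * J) := by
      refine le_trans ?_ h4
      refine mul_le_mul_of_nonneg_left ?_ (by positivity)
      have : (56 : ℝ) ^ J = 14 ^ J * 4 ^ J := by rw [← mul_pow]; norm_num
      rw [this]
      exact mul_le_mul_of_nonneg_right h5 (by positivity)
    have e6 : (49 : ℝ) ^ J * (p : ℝ) ^ (2 * J) = (7 / 8) ^ J * (p : ℝ) ^ (2 * J) * 56 ^ J := by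
      have : (49 : ℝ) ^ J = (7 / 8) ^ J * 56 ^ J := by rw [← mul_pow]; norm_num
      rw [this]; ring
    rw [e6] at e5
    exact le_of_mul_le_mul_right e5 (by positivity)
  refine h6.trans (le_of_eq ?_)
  have : (p : ℝ) ^ (2 * J) = ((p ^ J : ℕ) : ℝ) ^ 2 := by push_cast; rw [← pow_mul, mul_comm]
  rw [this]

theorem gen_two {N p i0 J k t q M : ℕ} (hp : 2 ≤ p) (hN : p ^ (i0 + J) ≤ N)
    (hfib : ∀ y, ((SS t q M).filter fun m => m / p ^ i0 % p ^ J = y).card * p ^ J ≤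
      16 * (SS t q M).card) (h : 2 * k < J) :
    (cnt (FF N t q M) (fun z => B p J (z.1 / p ^ i0) (z.2 / p ^ i0) < k) : ℝ) ≤
      N * (SS t q M).card * (96 * J / ((J : ℝ) - 2 * k) ^ 2) := by
  have hq' : (0 : ℝ) < ((p ^ J : ℕ) : ℝ) := by exact_mod_cast pow_pos (by omega : 0 < p) J
  have h3 : (0 : ℝ) < (J : ℝ) - 2 * k := by
    have : (2 : ℝ) * k < J := by exact_mod_cast h
    linarith
  refine (pairs_gen (k := k) (by omega) hN hfib).trans ?_
  refine (mul_le_mul_of_nonneg_left (Q_two hp h) (by positivity)).trans (le_of_eq ?_)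
  field_simp
  ring

theorem gen_exp {N p i0 J k t q M : ℕ} (hp : 2 ≤ p) (hN : p ^ (i0 + J) ≤ N)
    (hfib : ∀ y, ((SS t q M).filter fun m => m / p ^ i0 % p ^ J = y).card * p ^ J ≤
      16 * (SS t q M).card) (h : 24 * k ≤ J) :
    (cnt (FF N t q M) (fun z => B p J (z.1 / p ^ i0) (z.2 / p ^ i0) < k) : ℝ) ≤
      N * (SS t q M).card * (32 * (7 / 8) ^ J) := by
  have hq' : (0 : ℝ) < ((p ^ J : ℕ) : ℝ) := by exact_mod_cast pow_pos (by omega : 0 < p) J
  refine (pairs_gen (k := k) (by omega) hN hfib).trans ?_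
  refine (mul_le_mul_of_nonneg_left (Q_exp hp h) (by positivity)).trans (le_of_eq ?_)
  field_simp

/-- the fibres, low digits -/
theorem fib_low {p a J t q M : ℕ} (hp : 0 < p) {q' : ℕ} (hq : q = p ^ a * q')
    (hc : Nat.Coprime p q') (hq0 : 0 < q) (hM : q * p ^ J ≤ M) (y : ℕ) :
    ((SS t q M).filter fun m => m / p ^ a % p ^ J = y).card * p ^ J ≤ 16 * (SS t q M).card := by
  have h1 := mfib_low (J := J) (t := t) (M := M) (y := y) hp hq hc
  have h2 := card_SS (t := t) (M := M) hq0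
  have hq1 : 0 < p ^ J := pow_pos hp _
  have h3 : M / (q * p ^ J) * p ^ J ≤ M / q := by
    rw [← Nat.div_div_eq_div_mul]
    exact Nat.div_mul_le_self _ _
  have h4 : p ^ J ≤ M / q := by
    rw [Nat.le_div_iff_mul_le hq0, mul_comm]
    exact hM
  calc _ ≤ (M / (q * p ^ J) + 1) * p ^ J := Nat.mul_le_mul_right _ h1
    _ = M / (q * p ^ J) * p ^ J + p ^ J := by ring
    _ ≤ _ := by omega

/-- the fibres, top digits -/
theorem fib_top {p i1 J t q M : ℕ} (hp : 0 < p) (hq0 : 0 < q) (hqp : q ≤ p ^ i1)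
    (hM : p ^ (i1 + J) ≤ M) (y : ℕ) :
    ((SS t q M).filter fun m => m / p ^ i1 % p ^ J = y).card * p ^ J ≤
      16 * (SS t q M).card := by
  have h1 := mfib_top (i1 := i1) (J := J) (t := t) (q := q) (M := M) (y := y) hp
  have h2 := card_SS (t := t) (M := M) hq0
  have hJ : 0 < p ^ J := pow_pos hp _
  have hi : 0 < p ^ i1 := pow_pos hp _
  have hJ' : (0 : ℝ) < ((p ^ J : ℕ) : ℝ) := by exact_mod_cast hJ
  have hi' : (0 : ℝ) < ((p ^ i1 : ℕ) : ℝ) := by exact_mod_cast hi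
  have hq' : (0 : ℝ) < q := by exact_mod_cast hq0
  have hM2 : p ^ i1 * p ^ J ≤ M := by rw [← pow_add]; exact hM
  have hM1 : p ^ i1 ≤ M := (Nat.le_mul_of_pos_right _ hJ).trans hM2
  have hM2' : ((p ^ i1 : ℕ) : ℝ) * ((p ^ J : ℕ) : ℝ) ≤ M := by exact_mod_cast hM2
  have hM1' : ((p ^ i1 : ℕ) : ℝ) ≤ M := by exact_mod_cast hM1
  have e1 := div_bound (N := p ^ i1) (q := q) (c := 1) hq0 (by omega)
  have e2 : (((M / p ^ i1 + 2) / p ^ J + 1 : ℕ) : ℝ) * ((p ^ J : ℕ) : ℝ) ≤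
      4 * M / ((p ^ i1 : ℕ) : ℝ) := by
    have f1 : (M / p ^ i1 + 2) / p ^ J * p ^ J ≤ M / p ^ i1 + 2 := Nat.div_mul_le_self _ _
    have f2 : (((M / p ^ i1 + 2) / p ^ J : ℕ) : ℝ) * ((p ^ J : ℕ) : ℝ) ≤
        ((M / p ^ i1 : ℕ) : ℝ) + 2 := by exact_mod_cast f1
    have f3 : ((M / p ^ i1 : ℕ) : ℝ) ≤ (M : ℝ) / ((p ^ i1 : ℕ) : ℝ) := Nat.cast_div_le
    have f4 : (1 : ℝ) ≤ (M : ℝ) / ((p ^ i1 : ℕ) : ℝ) := by
      rw [le_div_iff₀ hi', one_mul]; exact hM1'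
    have f5 : ((p ^ J : ℕ) : ℝ) ≤ (M : ℝ) / ((p ^ i1 : ℕ) : ℝ) := by
      rw [le_div_iff₀ hi', mul_comm]; exact hM2'
    have f6 : 4 * (M : ℝ) / ((p ^ i1 : ℕ) : ℝ) = 4 * ((M : ℝ) / ((p ^ i1 : ℕ) : ℝ)) := by ring
    rw [f6, Nat.cast_add, Nat.cast_one, add_mul, one_mul]
    linarith
  have e3 : ((M / q : ℕ) : ℝ) ≤ (SS t q M).card := by exact_mod_cast h2
  have e4 : (M : ℝ) / q ≤ 2 * ((M / q : ℕ) : ℝ) := by
    have g1 : 1 ≤ M / q := by
      rw [Nat.le_div_iff_mul_le hq0, one_mul]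
      exact hqp.trans hM1
    have g2 : M < q * (M / q + 1) := Nat.lt_mul_div_succ M hq0
    have g3 : (M : ℝ) < q * (((M / q : ℕ) : ℝ) + 1) := by exact_mod_cast g2
    have g4 : (1 : ℝ) ≤ ((M / q : ℕ) : ℝ) := by exact_mod_cast g1
    rw [div_le_iff₀ hq']
    nlinarith
  have h3 : ((((SS t q M).filter fun m => m / p ^ i1 % p ^ J = y).card * p ^ J : ℕ) : ℝ) ≤
      ((16 * (SS t q M).card : ℕ) : ℝ) := by
    calc _ ≤ (((p ^ i1 / q + 1) * ((M / p ^ i1 + 2) / p ^ J + 1) * p ^ J : ℕ) : ℝ) := by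
          exact_mod_cast Nat.mul_le_mul_right _ h1
      _ = ((p ^ i1 / q + 1 : ℕ) : ℝ) * ((((M / p ^ i1 + 2) / p ^ J + 1 : ℕ) : ℝ) *
          ((p ^ J : ℕ) : ℝ)) := by push_cast; ring
      _ ≤ ((((1 : ℕ) : ℝ) + 1) * ((p ^ i1 : ℕ) : ℝ) / q) * (4 * M / ((p ^ i1 : ℕ) : ℝ)) :=
          mul_le_mul e1 e2 (by positivity) (by positivity)
      _ = 8 * ((M : ℝ) / q) := by
          rw [Nat.cast_one]
          field_simp
          ring
      _ ≤ 16 * ((M / q : ℕ) : ℝ) := by linarith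
      _ ≤ ((16 * (SS t q M).card : ℕ) : ℝ) := by
          rw [Nat.cast_mul, Nat.cast_ofNat]
          linarith
  exact_mod_cast h3

/-- the number of borrows is too small -/
def Bad2' (t p n m : ℕ) : Prop := ¬ ∃ L, K p t ≤ B p L n m

theorem count0 {N t q M p : ℕ} (hp : p.Prime) (hN : 1 ≤ N) :
    (cnt (FF N t q M) (fun z => ∃ i ∈ Icc 1 (t + 1), p ^ (W p t + 1) ∣ z.1 + i) : ℝ) ≤
      N * (SS t q M).card * (((t : ℝ) + 1) * (1 / ((t : ℝ) + 1) ^ 6 + 1 / N)) := by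
  have hN' : (0 : ℝ) < N := by exact_mod_cast hN
  rw [cnt_fst (fun n => ∃ i ∈ Icc 1 (t + 1), p ^ (W p t + 1) ∣ n + i)]
  have hq : (t + 1) ^ 6 < p ^ (W p t + 1) := Nat.lt_pow_succ_log_self hp.one_lt _
  have h1 : (cnt (range N) (fun n => ∃ i ∈ Icc 1 (t + 1), p ^ (W p t + 1) ∣ n + i) : ℝ) ≤
      ∑ _i ∈ Icc 1 (t + 1), ((N : ℝ) / ((t : ℝ) + 1) ^ 6 + 1) := by
    refine card_ex_le _ _ (fun (i n : ℕ) => p ^ (W p t + 1) ∣ n + i) _ ?_
    intro i _
    have e0 : cnt (range N) (fun n => p ^ (W p t + 1) ∣ n + i) ≤ N / p ^ (W p t + 1) + 1 := by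
      rw [cnt_eq]
      have := card_dvd (a := 0) (L := N) (q := p ^ (W p t + 1)) (i := i)
      rw [Nat.zero_add] at this
      rw [range_eq_Ico]
      exact this
    have h2 : (cnt (range N) (fun n => p ^ (W p t + 1) ∣ n + i) : ℝ)
        ≤ ((N / p ^ (W p t + 1) + 1 : ℕ) : ℝ) := by exact_mod_cast e0
    refine h2.trans ?_
    rw [Nat.cast_add, Nat.cast_one]
    have h3 : ((N / p ^ (W p t + 1) : ℕ) : ℝ) ≤ (N : ℝ) / ((p ^ (W p t + 1) : ℕ) : ℝ) :=
      Nat.cast_div_le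
    have h4 : (N : ℝ) / ((p ^ (W p t + 1) : ℕ) : ℝ) ≤ (N : ℝ) / ((t : ℝ) + 1) ^ 6 := by
      refine div_le_div_of_nonneg_left hN'.le (by positivity) ?_
      exact_mod_cast hq.le
    linarith
  rw [sum_const, Nat.card_Icc, Nat.add_sub_cancel, nsmul_eq_mul] at h1
  rw [Nat.cast_mul]
  calc ((SS t q M).card : ℝ) *
        (cnt (range N) (fun n => ∃ i ∈ Icc 1 (t + 1), p ^ (W p t + 1) ∣ n + i) : ℝ)
      ≤ (SS t q M).card * (((t + 1 : ℕ) : ℝ) * ((N : ℝ) / ((t : ℝ) + 1) ^ 6 + 1)) :=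
        mul_le_mul_of_nonneg_left h1 (by positivity)
    _ = _ := by push_cast; field_simp

/-- small primes -/
theorem cls_prime {p t q M N a q' J1 i1 J2 K1 K2 : ℕ} (hp : p.Prime) (hq0 : 0 < q)
    (hq : q = p ^ a * q') (hc : Nat.Coprime p q') (h1 : q * p ^ J1 ≤ M) (h2 : q ≤ p ^ i1)
    (h3 : a + J1 ≤ i1) (h4 : p ^ (i1 + J2) ≤ M) (hMN : M ≤ N)
    (hK : K p t ≤ (a - W p t) + K1 + K2) (hK1 : 2 * K1 < J1) (hK2 : 2 * K2 < J2) :
    (cnt (FF N t q M) (fun z => Bad2' t p z.1 z.2) : ℝ) ≤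
      N * (SS t q M).card * (((t : ℝ) + 1) * (1 / ((t : ℝ) + 1) ^ 6 + 1 / N) +
        96 * J1 / ((J1 : ℝ) - 2 * K1) ^ 2 + 96 * J2 / ((J2 : ℝ) - 2 * K2) ^ 2) := by
  have hN1 : 1 ≤ N := le_trans (le_trans (pow_pos hp.pos _) h4) hMN
  have hsub : cnt (FF N t q M) (fun z => Bad2' t p z.1 z.2) ≤ cnt (FF N t q M) (fun z =>
      ((∃ i ∈ Icc 1 (t + 1), p ^ (W p t + 1) ∣ z.1 + i) ∨
        B p J1 (z.1 / p ^ a) (z.2 / p ^ a) < K1) ∨
        B p J2 (z.1 / p ^ i1) (z.2 / p ^ i1) < K2) := by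
    refine cnt_mono fun z hz hb => ?_
    by_contra hcon
    rw [not_or, not_or, not_lt, not_lt] at hcon
    obtain ⟨⟨c1, c2⟩, c3⟩ := hcon
    refine hb ⟨i1 + J2, ?_⟩
    unfold FF at hz
    rw [mem_product, mem_SS] at hz
    have hdv : p ^ a ∣ z.2 + (t + 1) := (Dvd.intro _ hq.symm).trans hz.2.2
    have hW : t + 1 < p ^ (W p t + 1) := lt_of_le_of_lt (Nat.le_self_pow (by norm_num) _)
      (Nat.lt_pow_succ_log_self hp.one_lt ((t + 1) ^ 6))
    have d1 := B_class hp.one_lt hdv hW (n := z.1) (fun i hi1 hi2 hdvd =>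
      c1 ⟨i, mem_Icc.2 ⟨hi1, hi2⟩, hdvd⟩)
    have d2 := B_shift (i0 := a) (J := J1) (n := z.1) (m := z.2) hp.pos
    have d3 := B_mono (p := p) (n := z.1) (m := z.2) h3
    have d4 := B_shift (i0 := i1) (J := J2) (n := z.1) (m := z.2) hp.pos
    omega
  have hc2 := hsub.trans ((cnt_or _ _ _).trans (Nat.add_le_add_right (cnt_or _ _ _) _))
  have e1 := count0 (N := N) (t := t) (q := q) (M := M) hp hN1
  have hlow : p ^ (a + J1) ≤ N := by
    refine le_trans ?_ (h1.trans hMN)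
    rw [pow_add, hq]
    have : 0 < q' := by
      rcases Nat.eq_zero_or_pos q' with h0 | h0
      · rw [h0, mul_zero] at hq; omega
      · exact h0
    calc p ^ a * p ^ J1 = p ^ a * 1 * p ^ J1 := by ring
      _ ≤ p ^ a * q' * p ^ J1 := Nat.mul_le_mul_right _ (Nat.mul_le_mul_left _ this)
  have e2 := gen_two (N := N) (i0 := a) (J := J1) (k := K1) (t := t) (q := q) (M := M) hp.two_le
    hlow (fib_low hp.pos hq hc hq0 h1) hK1
  have e3 := gen_two (N := N) (i0 := i1) (J := J2) (k := K2) (t := t) (q := q) (M := M) hp.two_le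
    (h4.trans hMN) (fib_top hp.pos hq0 h2 h4) hK2
  have hc3 : (cnt (FF N t q M) (fun z => Bad2' t p z.1 z.2) : ℝ) ≤
      (cnt (FF N t q M) (fun z => ∃ i ∈ Icc 1 (t + 1), p ^ (W p t + 1) ∣ z.1 + i) : ℝ) +
      (cnt (FF N t q M) (fun z => B p J1 (z.1 / p ^ a) (z.2 / p ^ a) < K1) : ℝ) +
      (cnt (FF N t q M) (fun z => B p J2 (z.1 / p ^ i1) (z.2 / p ^ i1) < K2) : ℝ) := by
    exact_mod_cast hc2
  rw [mul_add, mul_add]
  linarith

/-- larger primes -/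
theorem cls_prime_exp {p t q M N J : ℕ} (hp : p.Prime) (hq0 : 0 < q)
    (hc : Nat.Coprime p q) (h1 : q * p ^ J ≤ M) (hMN : M ≤ N) (hK : 24 * K p t ≤ J) :
    (cnt (FF N t q M) (fun z => Bad2' t p z.1 z.2) : ℝ) ≤
      N * (SS t q M).card * (32 * (7 / 8) ^ J) := by
  have hsub : cnt (FF N t q M) (fun z => Bad2' t p z.1 z.2) ≤ cnt (FF N t q M) (fun z =>
      B p J (z.1 / p ^ 0) (z.2 / p ^ 0) < K p t) := by
    refine cnt_mono fun z _ hb => ?_
    by_contra hcon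
    rw [not_lt, pow_zero, Nat.div_one, Nat.div_one] at hcon
    exact hb ⟨J, hcon⟩
  have hpow : p ^ (0 + J) ≤ N := by
    rw [Nat.zero_add]
    refine le_trans ?_ (h1.trans hMN)
    exact Nat.le_mul_of_pos_left _ hq0
  have e2 := gen_exp (N := N) (i0 := 0) (J := J) (k := K p t) (t := t) (q := q) (M := M)
    hp.two_le hpow (fib_low (q' := q) hp.pos (by rw [pow_zero, one_mul]) hc hq0 h1) hK
  have hc3 : (cnt (FF N t q M) (fun z => Bad2' t p z.1 z.2) : ℝ) ≤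
      (cnt (FF N t q M) (fun z => B p J (z.1 / p ^ 0) (z.2 / p ^ 0) < K p t) : ℝ) := by
    exact_mod_cast hsub
  exact hc3.trans e2

end Pool.Agent.NH76.FE
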