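import Pool.Agent.NH76.FE.Pairs
import Pool.Prelude.Def_F_a9b43d14

/-!
# Induction on the number of factorials
-/

set_option autoImplicit false

open Finset Filter

namespace Pool.Agent.NH76.FE

/-- for large `N` there is a set of small `m` such that for almost all pairs `(n, m)` the
product `(n - m)! (m + t)!` divides `n!`, where `t = ⌊τ log N⌋` -/
def BadSmall (τ : ℝ) : Prop :=
  ∀ η δ : ℝ, 0 < η → 0 < δ → ∀ᶠ N : ℕ in atTop,
    ∃ S : Finset ℕ, S.Nonempty ∧ (∀ m ∈ S, (m : ℝ) ≤ η * N) ∧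
      (cnt (range N ×ˢ S) (fun z => z.2 ≤ z.1 ∧
        ¬ (z.1 - z.2).factorial * (z.2 + ⌊τ * Real.log N⌋₊).factorial ∣ z.1.factorial) : ℝ)
        ≤ δ * N * S.card

theorem step {N k s t M : ℕ} {S : Finset ℕ} (hS : ∀ m ∈ S, m ≤ M) :
    S.card * cnt (range N) (fun n => ¬ H (k + 1) n (s + t)) ≤
      S.card * M + cnt (range N ×ˢ S) (fun z => z.2 ≤ z.1 ∧
        ¬ (z.1 - z.2).factorial * (z.2 + t).factorial ∣ z.1.factorial) +
      S.card * cnt (range N) (fun n => ¬ H k n s) := by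
  classical
  have e1 : S.card * cnt (range N) (fun n => ¬ H (k + 1) n (s + t)) =
      cnt (range N ×ˢ S) (fun z => ¬ H (k + 1) z.1 (s + t)) := by
    rw [cnt_eq, cnt_eq, mul_comm, ← card_product]
    congr 1
    ext z
    simp only [mem_filter, mem_product]
    tauto
  have e2 : cnt (range N ×ˢ S) (fun z => ¬ H (k + 1) z.1 (s + t)) ≤
      cnt (range N ×ˢ S) (fun z => (z.1 < z.2 ∨ (z.2 ≤ z.1 ∧
        ¬ (z.1 - z.2).factorial * (z.2 + t).factorial ∣ z.1.factorial)) ∨
        (z.2 ≤ z.1 ∧ ¬ H k (z.1 - z.2) s)) := by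
    refine cnt_mono fun z _ hz => ?_
    by_cases h1 : z.1 < z.2
    · exact Or.inl (Or.inl h1)
    · rw [not_lt] at h1
      by_cases h2 : (z.1 - z.2).factorial * (z.2 + t).factorial ∣ z.1.factorial
      · exact Or.inr ⟨h1, fun h3 => hz (H_succ h1 h3 h2)⟩
      · exact Or.inl (Or.inr ⟨h1, h2⟩)
  have e3 : cnt (range N ×ˢ S) (fun z => z.1 < z.2) ≤ S.card * M := by
    rw [cnt_eq]
    calc _ ≤ (range M ×ˢ S).card := by
          apply card_le_card
          intro z hz
          rw [mem_filter, mem_product] at hz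
          rw [mem_product, mem_range]
          exact ⟨lt_of_lt_of_le hz.2 (hS _ hz.1.2), hz.1.2⟩
      _ = _ := by rw [card_product, card_range, mul_comm]
  have e4 : cnt (range N ×ˢ S) (fun z => z.2 ≤ z.1 ∧ ¬ H k (z.1 - z.2) s) ≤
      S.card * cnt (range N) (fun n => ¬ H k n s) := by
    rw [cnt_eq, cnt_eq]
    calc _ ≤ (((range N).filter fun n => ¬ H k n s) ×ˢ S).card := by
          refine card_le_card_of_injOn (fun z => (z.1 - z.2, z.2)) ?_ ?_
          · intro z hz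
            rw [mem_coe, mem_filter, mem_product, mem_range] at hz
            rw [mem_coe, mem_product, mem_filter, mem_range]
            exact ⟨⟨lt_of_le_of_lt (Nat.sub_le _ _) hz.1.1, hz.2.2⟩, hz.1.2⟩
          · intro z hz w hw hzw
            rw [mem_coe, mem_filter] at hz hw
            rw [Prod.mk.injEq] at hzw
            have h1 := hz.2.1
            have h2 := hw.2.1
            have h3 := hzw.1
            have h4 := hzw.2
            exact Prod.ext (by omega) h4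
      _ = _ := by rw [card_product, mul_comm]
  have e5 := cnt_or (range N ×ˢ S) (fun z => z.1 < z.2 ∨ (z.2 ≤ z.1 ∧
        ¬ (z.1 - z.2).factorial * (z.2 + t).factorial ∣ z.1.factorial))
        (fun z => z.2 ≤ z.1 ∧ ¬ H k (z.1 - z.2) s)
  have e6 := cnt_or (range N ×ˢ S) (fun z => z.1 < z.2) (fun z => z.2 ≤ z.1 ∧
        ¬ (z.1 - z.2).factorial * (z.2 + t).factorial ∣ z.1.factorial)
  omega

/-- almost all `n` -/
theorem almost {τ : ℝ} (hτ : BadSmall τ) (k : ℕ) : ∀ δ : ℝ, 0 < δ → ∀ᶠ N : ℕ in atTop,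
    (cnt (range N) (fun n => ¬ H (k + 1) n (k * ⌊τ * Real.log N⌋₊)) : ℝ) ≤ δ * N := by
  induction k with
  | zero =>
    intro δ hδ
    refine Eventually.of_forall fun N => ?_
    have : cnt (range N) (fun n => ¬ H (0 + 1) n (0 * ⌊τ * Real.log N⌋₊)) = 0 :=
      cnt_false fun n hn => hn (by rw [Nat.zero_mul]; exact H_one n)
    rw [this, Nat.cast_zero]
    positivity
  | succ k ih =>
    intro δ hδ
    filter_upwards [hτ (δ / 3) (δ / 3) (by positivity) (by positivity),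
      ih (δ / 3) (by positivity)] with N h1 h2
    obtain ⟨S, hS, hS1, hS2⟩ := h1
    have h3 := step (N := N) (k := k + 1) (s := k * ⌊τ * Real.log N⌋₊) (t := ⌊τ * Real.log N⌋₊)
      (M := ⌊δ / 3 * N⌋₊) (S := S) (fun m hm => Nat.le_floor (hS1 m hm))
    have h4 : (S.card : ℝ) * (cnt (range N) (fun n => ¬ H (k + 1 + 1) n
        (k * ⌊τ * Real.log N⌋₊ + ⌊τ * Real.log N⌋₊)) : ℝ) ≤ S.card * (⌊δ / 3 * N⌋₊ : ℝ) +
        (cnt (range N ×ˢ S) (fun z => z.2 ≤ z.1 ∧
        ¬ (z.1 - z.2).factorial * (z.2 + ⌊τ * Real.log N⌋₊).factorial ∣ z.1.factorial) : ℝ) +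
        S.card * (cnt (range N) (fun n => ¬ H (k + 1) n (k * ⌊τ * Real.log N⌋₊)) : ℝ) := by
      exact_mod_cast h3
    have h5 : (0 : ℝ) < S.card := by exact_mod_cast hS.card_pos
    have h6 : (⌊δ / 3 * N⌋₊ : ℝ) ≤ δ / 3 * N := Nat.floor_le (by positivity)
    have h7 : (k + 1) * ⌊τ * Real.log N⌋₊ = k * ⌊τ * Real.log N⌋₊ + ⌊τ * Real.log N⌋₊ := by ring
    rw [h7]
    refine le_of_mul_le_mul_left ?_ h5
    refine h4.trans ?_
    have h8 := mul_le_mul_of_nonneg_left h6 h5.le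
    have h9 := mul_le_mul_of_nonneg_left h2 h5.le
    calc _ ≤ (S.card : ℝ) * (δ / 3 * N) + δ / 3 * N * S.card + S.card * (δ / 3 * N) :=
          add_le_add (add_le_add h8 hS2) h9
      _ = _ := by ring

/-! ### The function `g` -/

theorem g_bdd (k n : ℕ) : BddAbove { ((∑ i, a i) - n) | (a : Fin k → ℕ)
    (_ : (∏ i, (a i).factorial) ∣ n.factorial) } := by
  refine ⟨k * (n + 1), ?_⟩
  rintro _ ⟨a, ha, rfl⟩
  have h1 : ∀ i, a i ≤ n + 1 := by
    intro i
    by_contra hcon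
    rw [not_le] at hcon
    have h2 : (a i).factorial ≤ n.factorial :=
      Nat.le_of_dvd (Nat.factorial_pos n) ((dvd_prod_of_mem _ (mem_univ i)).trans ha)
    have h3 : (n + 1).factorial ≤ (a i).factorial := Nat.factorial_le (by omega)
    have h4 : (n + 1).factorial ≤ n.factorial := h3.trans h2
    have h5 : n = 0 := by
      by_contra h0
      have := Nat.factorial_lt_of_lt (Nat.pos_of_ne_zero h0) (Nat.lt_succ_self n)
      exact absurd h4 (not_le.2 this)
    subst h5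
    have h6 : (2 : ℕ).factorial ≤ (a i).factorial := Nat.factorial_le (by omega)
    simp at h2 h6
    omega
  calc (∑ i, a i) - n ≤ ∑ i, a i := Nat.sub_le _ _
    _ ≤ ∑ _i : Fin k, (n + 1) := sum_le_sum fun i _ => h1 i
    _ = k * (n + 1) := by simp

theorem g_ge {k n s : ℕ} (h : H k n s) : s ≤ Nfa7bfd82.g k n := by
  obtain ⟨a, ha1, ha2⟩ := h
  have h1 : (∑ i, a i) - n ≤ Nfa7bfd82.g k n := le_csSup (g_bdd k n) ⟨a, ha1, rfl⟩
  omega

theorem g_le {k n c : ℕ} (h : ∀ a : Fin k → ℕ, (∏ i, (a i).factorial) ∣ n.factorial →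
    (∑ i, a i) - n ≤ c) : Nfa7bfd82.g k n ≤ c := by
  refine csSup_le' ?_
  rintro _ ⟨a, ha, rfl⟩
  exact h a ha

end Pool.Agent.NH76.FE
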