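import Pool.Agent.NH76.FE.Asy

/-!
# The number of bad pairs, summary
-/

set_option autoImplicit false

open Finset Filter

namespace Pool.Agent.NH76.FE

theorem ev_card {τ η : ℝ} (hτ0 : 0 < τ) (hη : 0 < η) : ∀ᶠ N : ℕ in atTop,
    ((tt τ N : ℝ) + 1) ^ 6 ≤ (SS (tt τ N) (qq N) (MM η N)).card := by
  have hθ := th2_pos
  filter_upwards [ev_L hτ0 (s := th2 / 12) (by positivity), ev_M hη, ev_q_le hη,
    ev_log ((|Real.log (η / 2)| + Real.log 2) / (th2 / 2))] with N e1 e2 e3 e4
  rw [div_le_iff₀ (by positivity)] at e4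
  set T := (tt τ N : ℝ) + 1 with hT
  have hT1 : (1 : ℝ) ≤ T := by
    have := Nat.cast_nonneg (α := ℝ) (tt τ N)
    linarith
  set M := MM η N with hM
  set q := qq N with hq
  have hq0 : 0 < q := qq_pos N
  have h1 := card_SS (t := tt τ N) (M := M) hq0
  have h2 := qq_upper N
  rw [← hq] at h2
  have h3 : (th2 + th3) * Real.log N = Real.log N - th2 * Real.log N := by
    have := th_sum
    have h4 : th2 + th3 = 1 - th2 := by linarith
    rw [h4]; ring
  have hM0 : 0 < M := hq0.trans_le e3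
  have hM0' : (0 : ℝ) < M := by exact_mod_cast hM0
  have hq0' : (0 : ℝ) < q := by exact_mod_cast hq0
  have h4 : (M : ℝ) < q * (((M / q : ℕ) : ℝ) + 1) := by
    exact_mod_cast Nat.lt_mul_div_succ M hq0
  have h5 : Real.log (2 * T ^ 6) ≤ Real.log ((M : ℝ) / q) := by
    rw [Real.log_mul (by norm_num) (by positivity), Real.log_pow,
      Real.log_div hM0'.ne' hq0'.ne']
    push_cast
    linarith
  have h6 : 2 * T ^ 6 ≤ (M : ℝ) / q :=
    (Real.log_le_log_iff (by positivity) (by positivity)).1 h5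
  have h7 : (M : ℝ) / q ≤ ((M / q : ℕ) : ℝ) + 1 := by
    rw [div_le_iff₀ hq0']
    linarith
  have h8 : ((M / q : ℕ) : ℝ) ≤ ((SS (tt τ N) q M).card : ℝ) := by exact_mod_cast h1
  have h9 : (1 : ℝ) ≤ T ^ 6 := one_le_pow₀ hT1
  linarith

theorem ev_h0 {τ : ℝ} (hτ0 : 0 < τ) : ∀ᶠ N : ℕ in atTop, ∀ p : ℕ, p.Prime →
    ¬ Nat.Coprime (qq N) p → p ^ (W p (tt τ N) + 1) ∣ qq N ∧ p ≤ (tt τ N + 1) ^ 3 := by
  have h2 := th2_pos
  have h3 := th3_pos
  set s := min th2 th3 with hs
  have hs0 : 0 < s := lt_min h2 h3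
  filter_upwards [ev_L hτ0 (s := s / 12) (by positivity), ev_log (2 * Real.log 3 / (s / 2)),
    ev_T hτ0 3] with N e1 e2 e3 p hp hcop
  rw [div_le_iff₀ (by positivity)] at e2
  have hp23 : p = 2 ∨ p = 3 := by
    by_contra hcon
    rw [not_or] at hcon
    exact hcop (qq_coprime hp hcon.1 hcon.2 N).symm
  have hp3 : p ≤ 3 := by omega
  have hlp : 0 < Real.log p := Real.log_pos (by exact_mod_cast hp.one_lt)
  have hlp3 : Real.log p ≤ Real.log 3 :=
    Real.log_le_log (by exact_mod_cast hp.pos) (by exact_mod_cast hp3)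
  obtain ⟨a, q', hq, _, ha1, _⟩ := qq_split hp N
  have hthp : s ≤ thp p := by
    unfold thp
    rcases hp23 with h | h
    · simp only [h, if_true]
      exact min_le_left _ _
    · simp only [h, if_true]
      norm_num
      exact min_le_right _ _
  have hx : 0 ≤ Real.log N := Real.log_natCast_nonneg N
  have h4 : (W p (tt τ N) : ℝ) * Real.log p ≤ 6 * Real.log ((tt τ N : ℝ) + 1) := by
    have h7 := log_mul_le (n := (tt τ N + 1) ^ 6) hp.one_lt (by positivity)
    rw [Nat.cast_pow, Real.log_pow] at h7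
    push_cast at h7
    unfold W
    exact h7
  have h5 : s * Real.log N ≤ thp p * Real.log N := mul_le_mul_of_nonneg_right hthp hx
  have h6 : ((W p (tt τ N) : ℝ) + 1) * Real.log p ≤ a * Real.log p := by linarith
  have h7 : (W p (tt τ N) : ℝ) + 1 ≤ a := le_of_mul_le_mul_right h6 hlp
  have h8 : W p (tt τ N) + 1 ≤ a := by exact_mod_cast h7
  refine ⟨?_, ?_⟩
  · rw [hq]
    exact (pow_dvd_pow p h8).mul_right q'
  · have h9 : 3 ≤ tt τ N + 1 := by exact_mod_cast e3
    calc p ≤ 3 := hp3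
      _ ≤ tt τ N + 1 := h9
      _ ≤ (tt τ N + 1) ^ 3 := Nat.le_self_pow (by norm_num) _

theorem ev_logM {τ η : ℝ} (hτ0 : 0 < τ) (hη1 : η ≤ 1) : ∀ᶠ N : ℕ in atTop,
    4 * (1 + Real.log ((3 * MM η N : ℕ) : ℝ)) ≤ ((tt τ N : ℝ) + 1) ^ 3 := by
  filter_upwards [ev_T hτ0 (8 / τ + 1), ev_log 3, eventually_ge_atTop 1] with N e1 e2 e3
  have h1 : Real.log ((3 * MM η N : ℕ) : ℝ) ≤ 2 + Real.log N := by
    have hN : (0 : ℝ) < N := by exact_mod_cast e3
    rcases Nat.eq_zero_or_pos (MM η N) with h0 | h0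
    · rw [h0]
      simp only [mul_zero, Nat.cast_zero, Real.log_zero]
      linarith
    · have h2 : Real.log ((3 * MM η N : ℕ) : ℝ) ≤ Real.log (3 * N) := by
        apply Real.log_le_log (by exact_mod_cast (by omega : 0 < 3 * MM η N))
        have := M_le hη1 N
        exact_mod_cast Nat.mul_le_mul_left 3 this
      rw [Real.log_mul (by norm_num) hN.ne'] at h2
      have h3 : Real.log 3 ≤ 3 - 1 := Real.log_le_sub_one_of_pos (by norm_num)
      linarith
  set T := (tt τ N : ℝ) + 1 with hT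
  have h2 : τ * Real.log N < T := tt_lower τ N
  have h8 : 0 < 8 / τ := by positivity
  have h3 : 8 / τ ≤ T := by linarith
  have h4 : 1 ≤ T := by linarith
  have h5 : 8 ≤ T * τ := by rwa [div_le_iff₀ hτ0] at h3
  have h6 : 8 * Real.log N ≤ T * τ * Real.log N :=
    mul_le_mul_of_nonneg_right h5 (by linarith)
  have h7 : T * τ * Real.log N ≤ T * T := by
    have := mul_le_mul_of_nonneg_left h2.le (by linarith : (0 : ℝ) ≤ T)
    linarith
  have h9 : T * T ≤ T ^ 3 := by
    calc T * T = T ^ 2 := by ring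
      _ ≤ T ^ 3 := pow_le_pow_right₀ h4 (by norm_num)
  linarith

/-- for `τ < 4 / log 48` the number of bad pairs is small -/
theorem badSmall {τ : ℝ} (hτ0 : 0 < τ) (hτ : τ < 4 / Real.log 48) : BadSmall τ := by
  intro η0 δ hη0 hδ
  set η := min η0 1 / 2 with hηdef
  have hm : 0 < min η0 1 := lt_min hη0 one_pos
  have hη : 0 < η := by positivity
  have hη1 : η ≤ 1 := by
    have := min_le_right η0 1
    rw [hηdef]; linarith
  have hη2 : 2 * η ≤ η0 := by
    have := min_le_left η0 1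
    rw [hηdef]; linarith
  obtain ⟨P0, hP0⟩ := lemB hτ0 hη hη1
  set δ' := δ / (2 * (P0 + 1)) with hδ'
  have hδ'0 : 0 < δ' := by positivity
  have hsmall : ∀ᶠ N : ℕ in atTop, ∀ p ∈ range (P0 + 1), p.Prime →
      (cnt (FF N (tt τ N) (qq N) (MM η N)) (fun z => Bad2' (tt τ N) p z.1 z.2) : ℝ) ≤
      N * (SS (tt τ N) (qq N) (MM η N)).card * δ' := by
    rw [eventually_all_finset]
    intro p _
    by_cases hp : p.Prime
    · filter_upwards [lemA hτ0 hτ hη hη1 hδ'0 hp] with N hN _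
      exact hN
    · exact Eventually.of_forall fun N h => absurd h hp
  filter_upwards [hP0, hsmall, ev_card hτ0 hη, ev_h0 hτ0, ev_logM (η := η) hτ0 hη1,
    ev_q_le hη, ev_T hτ0 (88 / δ), ev_TT hτ0, ev_M hη,
    ev_L hτ0 (s := 1 / 2) (by norm_num), ev_log (2 * |Real.log (η / 2)|)]
    with N e1 e2 e3 e4 e5 e6 e7 e8 e9 e10 e11
  have hT0 : (0 : ℝ) < (tt τ N : ℝ) + 1 := by positivity
  have hc1 : (1 : ℝ) ≤ ((tt τ N : ℝ) + 1) ^ 6 := one_le_pow₀ (by
    have := Nat.cast_nonneg (α := ℝ) (tt τ N)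
    linarith)
  refine ⟨SS (tt τ N) (qq N) (MM η N), ?_, ?_, ?_⟩
  · rw [← card_pos]
    have : (0 : ℝ) < (SS (tt τ N) (qq N) (MM η N)).card := by linarith
    exact_mod_cast this
  · intro m hm
    rw [mem_SS] at hm
    have h1 : (m : ℝ) ≤ 2 * MM η N := by
      have : m ≤ 2 * MM η N := by omega
      exact_mod_cast this
    have h2 : (MM η N : ℝ) ≤ η * N := Nat.floor_le (by positivity)
    have h3 : 2 * η * N ≤ η0 * N := mul_le_mul_of_nonneg_right hη2 (Nat.cast_nonneg N)
    linarith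
  · have htM : tt τ N ≤ MM η N := by
      have hM0 : 0 < MM η N := (qq_pos N).trans_le e6
      have h1 : Real.log ((tt τ N : ℝ) + 1) ≤ Real.log (MM η N) := by linarith
      have h2 := (Real.log_le_log_iff hT0 (by exact_mod_cast hM0)).1 h1
      have h3 : (tt τ N : ℝ) ≤ MM η N := by linarith
      exact_mod_cast h3
    have h1 := bad_total2 (N := N) (M := MM η N) (t := tt τ N) (q := qq N) (P0 := P0) (δ := δ')
      (ρ := 1 / ((tt τ N : ℝ) + 1) ^ 4) (qq_pos N) e6 htM (M_le hη1 N) hδ'0.le (by positivity)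
      e4 (fun p hp hpP => e2 p (mem_range.2 (by omega)) hp) (fun p hp hpP hpT => e1 p hp hpP hpT)
    have hT : tt τ N = ⌊τ * Real.log N⌋₊ := rfl
    have h2 : (cnt (range N ×ˢ SS (tt τ N) (qq N) (MM η N)) (fun z => z.2 ≤ z.1 ∧
        ¬ (z.1 - z.2).factorial * (z.2 + ⌊τ * Real.log N⌋₊).factorial ∣ z.1.factorial) : ℝ) =
        (cnt (FF N (tt τ N) (qq N) (MM η N)) (fun z => z.2 ≤ z.1 ∧
      ¬ (z.1 - z.2).factorial * (z.2 + (tt τ N)).factorial ∣ z.1.factorial) : ℝ) := rfl
    rw [h2]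
    refine h1.trans ?_
    set c : ℝ := ((SS (tt τ N) (qq N) (MM η N)).card : ℝ) with hc
    set t : ℝ := (tt τ N : ℝ) with ht
    set T : ℝ := t + 1 with hTdef
    have ht0 : 0 ≤ t := Nat.cast_nonneg _
    have hT1 : 1 ≤ T := by linarith
    have htT : t ≤ T := by linarith
    have hc0 : 0 < c := by linarith
    have hN0 : (0 : ℝ) ≤ N := Nat.cast_nonneg _
    -- the four terms
    have k1 : T ^ 3 * (t * (2 * c * (1 / T ^ 6) + 1)) ≤ c * (3 / T) := by
      calc T ^ 3 * (t * (2 * c * (1 / T ^ 6) + 1)) ≤ T ^ 3 * (T * (2 * c * (1 / T ^ 6) + 1)) := by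
            refine mul_le_mul_of_nonneg_left (mul_le_mul_of_nonneg_right htT (by positivity))
              (by positivity)
        _ = 2 * c / T ^ 2 + T ^ 4 := by field_simp
        _ ≤ 2 * c / T + c / T := by
            refine add_le_add ?_ ?_
            · refine div_le_div_of_nonneg_left (by positivity) (by positivity) ?_
              calc T = T ^ 1 := (pow_one T).symm
                _ ≤ T ^ 2 := pow_le_pow_right₀ hT1 (by norm_num)
            · rw [le_div_iff₀ hT0]
              calc T ^ 4 * T = T ^ 5 := by ring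
                _ ≤ T ^ 6 := pow_le_pow_right₀ hT1 (by norm_num)
                _ ≤ c := e3
        _ = _ := by field_simp; ring
    have k2 : (P0 : ℝ) * δ' ≤ δ / 2 := by
      rw [hδ']
      have : (P0 : ℝ) * (δ / (2 * (P0 + 1))) = δ / 2 * (P0 / (P0 + 1)) := by
        field_simp
      rw [this]
      have h3 : (P0 : ℝ) / (P0 + 1) ≤ 1 := (div_le_one (by positivity)).2 (by linarith)
      calc δ / 2 * ((P0 : ℝ) / (P0 + 1)) ≤ δ / 2 * 1 :=
            mul_le_mul_of_nonneg_left h3 (by positivity)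
        _ = _ := mul_one _
    have k3 : T ^ 3 * (32 * (1 / T ^ 4)) = 32 / T := by field_simp
    have k4 : 4 * t ^ 2 * (2 * c * (1 / T ^ 3) + (1 + Real.log ((3 * MM η N : ℕ) : ℝ))) ≤
        c * (9 / T) := by
      have h3 : t ^ 2 ≤ T ^ 2 := pow_le_pow_left₀ ht0 htT 2
      have h4 : 0 ≤ Real.log ((3 * MM η N : ℕ) : ℝ) := Real.log_natCast_nonneg _
      calc 4 * t ^ 2 * (2 * c * (1 / T ^ 3) + (1 + Real.log ((3 * MM η N : ℕ) : ℝ)))
          ≤ 4 * T ^ 2 * (2 * c * (1 / T ^ 3) + (1 + Real.log ((3 * MM η N : ℕ) : ℝ))) :=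
            mul_le_mul_of_nonneg_right (by linarith) (by positivity)
        _ = 8 * c / T + T ^ 2 * (4 * (1 + Real.log ((3 * MM η N : ℕ) : ℝ))) := by
            field_simp
            ring
        _ ≤ 8 * c / T + T ^ 2 * T ^ 3 := by
            have := mul_le_mul_of_nonneg_left e5 (by positivity : 0 ≤ T ^ 2)
            linarith
        _ ≤ 8 * c / T + c / T := by
            have : T ^ 2 * T ^ 3 ≤ c / T := by
              rw [le_div_iff₀ hT0]
              calc T ^ 2 * T ^ 3 * T = T ^ 6 := by ring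
                _ ≤ c := e3
            linarith
        _ = _ := by field_simp; ring
    have k5 : 44 / T ≤ δ / 2 := by
      rw [div_le_iff₀ hT0]
      rw [div_le_iff₀ hδ] at e7
      linarith
    have j1 := mul_le_mul_of_nonneg_left k1 hN0
    have j4 := mul_le_mul_of_nonneg_left k4 hN0
    have j2 := mul_le_mul_of_nonneg_left k2 (by positivity : 0 ≤ N * c)
    have j5 := mul_le_mul_of_nonneg_left k5 (by positivity : 0 ≤ N * c)
    rw [k3]
    have j6 : N * (c * (3 / T)) + N * c * (32 / T) + N * (c * (9 / T)) = N * c * (44 / T) := by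
      field_simp
      ring
    linarith

end Pool.Agent.NH76.FE
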