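import Pool.Agent.NH76.FE.Basic

/-!
# The number of borrows for random digits: second moment and exponential moment
-/

set_option autoImplicit false

open Finset

namespace Pool.Agent.NH76.FE

/-- `1` if there is a borrow, `-1` otherwise -/
def e (x y : ℕ) : ℤ := if x < y then 1 else -1

theorem e_sq (x y : ℕ) : e x y * e x y = 1 := by
  unfold e; split_ifs <;> norm_num

theorem e_le (x y : ℕ) : e x y ≤ 1 := by
  unfold e; split_ifs <;> norm_num

theorem le_e (x y : ℕ) : -1 ≤ e x y := by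
  unfold e; split_ifs <;> norm_num

/-- the number of borrows minus the number of non-borrows -/
def U (p J n m : ℕ) : ℤ := ∑ j ∈ Icc 1 J, e (n % p ^ j) (m % p ^ j)

theorem U_eq (p J n m : ℕ) : U p J n m = 2 * (B p J n m : ℤ) - J := by
  unfold U B e
  have h : ∀ j ∈ Icc 1 J, (if n % p ^ j < m % p ^ j then (1 : ℤ) else -1)
      = 2 * (if n % p ^ j < m % p ^ j then 1 else 0) - 1 := by
    intro j _
    split_ifs <;> norm_num
  rw [sum_congr rfl h, sum_sub_distrib, ← mul_sum, card_filter]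
  simp

theorem sum_split {R : Type*} [AddCommMonoid R] (q k : ℕ) (f : ℕ → R) :
    ∑ n ∈ range (q * k), f n = ∑ c ∈ range k, ∑ x ∈ range q, f (q * c + x) := by
  induction k with
  | zero => simp
  | succ k ih =>
    rw [mul_add, mul_one, sum_range_add, ih, sum_range_succ]

theorem sum_split2 {R : Type*} [AddCommMonoid R] (q k : ℕ) (f : ℕ → ℕ → R) :
    ∑ n ∈ range (q * k), ∑ m ∈ range (q * k), f n m
      = ∑ x ∈ range q, ∑ y ∈ range q, ∑ c ∈ range k, ∑ d ∈ range k, f (q * c + x) (q * d + y) := by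
  rw [sum_split, sum_comm]
  refine sum_congr rfl fun x _ => ?_
  have h : ∀ c ∈ range k, ∑ m ∈ range (q * k), f (q * c + x) m
      = ∑ y ∈ range q, ∑ d ∈ range k, f (q * c + x) (q * d + y) := by
    intro c _
    rw [sum_split, sum_comm]
  rw [sum_congr rfl h, sum_comm]

theorem lt_iff {q c d x y : ℕ} (hx : x < q) (hy : y < q) :
    q * c + x < q * d + y ↔ c < d ∨ (c = d ∧ x < y) := by
  rcases lt_trichotomy c d with h | h | h
  · have : q * (c + 1) ≤ q * d := Nat.mul_le_mul_left q h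
    rw [mul_add, mul_one] at this
    constructor
    · intro _; exact Or.inl h
    · intro _; omega
  · subst h
    constructor
    · intro h1; exact Or.inr ⟨rfl, by omega⟩
    · rintro (h1 | h1)
      · exact absurd h1 (lt_irrefl _)
      · omega
  · have : q * (d + 1) ≤ q * c := Nat.mul_le_mul_left q h
    rw [mul_add, mul_one] at this
    constructor
    · intro h1; omega
    · rintro (h1 | h1)
      · omega
      · omega

theorem sum_e {q p x y : ℕ} (hx : x < q) (hy : y < q) :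
    ∑ c ∈ range p, ∑ d ∈ range p, e (q * c + x) (q * d + y) = p * e x y := by
  have h : ∀ c d : ℕ, e (q * c + x) (q * d + y)
      = ((if c < d then 1 else 0) - (if d < c then 1 else 0)) + (if c = d then e x y else 0) := by
    intro c d
    unfold e
    simp only [lt_iff hx hy]
    rcases lt_trichotomy c d with h | h | h
    · simp [h, h.ne, h.asymm]
    · subst h; simp
    · simp [h, h.ne', h.asymm]
  simp only [h, sum_add_distrib, sum_sub_distrib]
  have h1 : ∑ c ∈ range p, ∑ d ∈ range p, (if c < d then (1 : ℤ) else 0)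
      = ∑ c ∈ range p, ∑ d ∈ range p, (if d < c then (1 : ℤ) else 0) := by
    rw [sum_comm]
  rw [h1, sub_self, zero_add]
  have h2 : ∀ c ∈ range p, ∑ d ∈ range p, (if c = d then e x y else 0) = e x y := by
    intro c hc
    rw [sum_ite_eq, if_pos hc]
  rw [sum_congr rfl h2, sum_const, card_range, nsmul_eq_mul]

theorem mod_low {p J j c x : ℕ} (hj : j ≤ J) : (p ^ J * c + x) % p ^ j = x % p ^ j := by
  obtain ⟨r, hr⟩ := pow_dvd_pow p hj
  rw [hr, mul_assoc, Nat.mul_add_mod]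

theorem U_low (p J c d x y : ℕ) : U p J (p ^ J * c + x) (p ^ J * d + y) = U p J x y := by
  unfold U
  refine sum_congr rfl fun j hj => ?_
  rw [mod_low (mem_Icc.1 hj).2, mod_low (mem_Icc.1 hj).2]

theorem U_succ {p J n m : ℕ} (hn : n < p ^ (J + 1)) (hm : m < p ^ (J + 1)) :
    U p (J + 1) n m = U p J n m + e n m := by
  unfold U
  rw [Finset.sum_Icc_succ_top (by omega), Nat.mod_eq_of_lt hn, Nat.mod_eq_of_lt hm]

/-- the correlation of the sum with the last sign -/
def A (p J : ℕ) : ℤ := ∑ n ∈ range (p ^ J), ∑ m ∈ range (p ^ J), U p J n m * e n m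

/-- the second moment -/
def F (p J : ℕ) : ℤ := ∑ n ∈ range (p ^ J), ∑ m ∈ range (p ^ J), U p J n m ^ 2

theorem A_aux (p J : ℕ) :
    ∑ n ∈ range (p ^ (J + 1)), ∑ m ∈ range (p ^ (J + 1)), U p J n m * e n m = p * A p J := by
  rw [pow_succ, sum_split2]
  unfold A
  rw [mul_sum]
  refine sum_congr rfl fun x hx => ?_
  rw [mul_sum]
  refine sum_congr rfl fun y hy => ?_
  simp only [U_low]
  have : ∑ c ∈ range p, ∑ d ∈ range p, U p J x y * e (p ^ J * c + x) (p ^ J * d + y)
      = U p J x y * ∑ c ∈ range p, ∑ d ∈ range p, e (p ^ J * c + x) (p ^ J * d + y) := by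
    simp only [mul_sum]
  rw [this, sum_e (mem_range.1 hx) (mem_range.1 hy)]
  ring

theorem one_aux (q : ℕ) : ∑ _n ∈ range q, ∑ _m ∈ range q, (1 : ℤ) = (q : ℤ) ^ 2 := by
  simp; ring

theorem A_succ (p J : ℕ) : A p (J + 1) = p * A p J + (p : ℤ) ^ (2 * (J + 1)) := by
  rw [← A_aux]
  unfold A
  have h : ∀ n ∈ range (p ^ (J + 1)), ∑ m ∈ range (p ^ (J + 1)), U p (J + 1) n m * e n m
      = (∑ m ∈ range (p ^ (J + 1)), U p J n m * e n m) + ∑ _m ∈ range (p ^ (J + 1)), (1 : ℤ) := by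
    intro n hn
    rw [← sum_add_distrib]
    refine sum_congr rfl fun m hm => ?_
    rw [U_succ (mem_range.1 hn) (mem_range.1 hm), add_mul, e_sq]
  rw [sum_congr rfl h, sum_add_distrib, one_aux]
  push_cast
  ring

theorem F_succ (p J : ℕ) :
    F p (J + 1) = (p : ℤ) ^ 2 * F p J + 2 * (p * A p J) + (p : ℤ) ^ (2 * (J + 1)) := by
  have h0 : ∑ n ∈ range (p ^ (J + 1)), ∑ m ∈ range (p ^ (J + 1)), U p J n m ^ 2
      = (p : ℤ) ^ 2 * F p J := by
    rw [pow_succ, sum_split2]
    unfold F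
    rw [mul_sum]
    refine sum_congr rfl fun x hx => ?_
    rw [mul_sum]
    refine sum_congr rfl fun y hy => ?_
    simp only [U_low]
    simp
    ring
  rw [← h0, ← A_aux]
  unfold F
  have h : ∀ n ∈ range (p ^ (J + 1)), ∑ m ∈ range (p ^ (J + 1)), U p (J + 1) n m ^ 2
      = (∑ m ∈ range (p ^ (J + 1)), U p J n m ^ 2)
        + 2 * (∑ m ∈ range (p ^ (J + 1)), U p J n m * e n m)
        + ∑ _m ∈ range (p ^ (J + 1)), (1 : ℤ) := by
    intro n hn
    rw [mul_sum, ← sum_add_distrib, ← sum_add_distrib]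
    refine sum_congr rfl fun m hm => ?_
    rw [U_succ (mem_range.1 hn) (mem_range.1 hm)]
    have := e_sq n m
    linear_combination this
  rw [sum_congr rfl h, sum_add_distrib, sum_add_distrib, one_aux, ← mul_sum]
  push_cast
  ring

theorem A_le {p : ℕ} (hp : 2 ≤ p) (J : ℕ) : A p J ≤ 2 * (p : ℤ) ^ (2 * J) := by
  induction J with
  | zero => simp [A, U]
  | succ J ih =>
    rw [A_succ]
    have hp' : (2 : ℤ) ≤ p := by exact_mod_cast hp
    have h1 : (p : ℤ) ^ (2 * (J + 1)) = p ^ (2 * J) * p ^ 2 := by rw [← pow_add]; ring_nf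
    rw [h1]
    have h2 : (0 : ℤ) ≤ (p : ℤ) ^ (2 * J) := by positivity
    have h3 : (p : ℤ) * A p J ≤ p * (2 * (p : ℤ) ^ (2 * J)) :=
      mul_le_mul_of_nonneg_left ih (by positivity)
    have h4 : 0 ≤ (p : ℤ) ^ (2 * J) * (p * (p - 2)) := by
      have : (0 : ℤ) ≤ p * (p - 2) := mul_nonneg (by positivity) (by linarith)
      positivity
    nlinarith

theorem F_le {p : ℕ} (hp : 2 ≤ p) (J : ℕ) : F p J ≤ 3 * J * (p : ℤ) ^ (2 * J) := by
  induction J with
  | zero => simp [F, U]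
  | succ J ih =>
    rw [F_succ]
    have hp' : (2 : ℤ) ≤ p := by exact_mod_cast hp
    have h1 : (p : ℤ) ^ (2 * (J + 1)) = p ^ (2 * J) * p ^ 2 := by rw [← pow_add]; ring_nf
    rw [h1]
    have h2 : (0 : ℤ) ≤ (p : ℤ) ^ (2 * J) := by positivity
    have h3 : (p : ℤ) * A p J ≤ p * (2 * (p : ℤ) ^ (2 * J)) :=
      mul_le_mul_of_nonneg_left (A_le hp J) (by positivity)
    have h4 : 0 ≤ (p : ℤ) ^ (2 * J) * (p * (p - 2)) := by
      have : (0 : ℤ) ≤ p * (p - 2) := mul_nonneg (by positivity) (by linarith)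
      positivity
    have h5 : (p : ℤ) ^ 2 * F p J ≤ p ^ 2 * (3 * J * (p : ℤ) ^ (2 * J)) :=
      mul_le_mul_of_nonneg_left ih (by positivity)
    push_cast
    nlinarith

/-! ### the exponential moment -/

/-- the number of non-borrows -/
def NB (p J n m : ℕ) : ℕ := ((Icc 1 J).filter fun j => ¬ n % p ^ j < m % p ^ j).card

theorem B_add_NB (p J n m : ℕ) : B p J n m + NB p J n m = J := by
  unfold B NB
  rw [card_filter_add_card_filter_not]
  simp

theorem NB_low (p J c d x y : ℕ) : NB p J (p ^ J * c + x) (p ^ J * d + y) = NB p J x y := by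
  unfold NB
  congr 1
  refine filter_congr fun j hj => ?_
  rw [mod_low (mem_Icc.1 hj).2, mod_low (mem_Icc.1 hj).2]

theorem NB_succ {p J n m : ℕ} (hn : n < p ^ (J + 1)) (hm : m < p ^ (J + 1)) :
    NB p (J + 1) n m = NB p J n m + (if n < m then 0 else 1) := by
  unfold NB
  rw [card_filter, card_filter, Finset.sum_Icc_succ_top (by omega), Nat.mod_eq_of_lt hn,
    Nat.mod_eq_of_lt hm]
  congr 1
  split_ifs <;> simp_all

/-- the exponential moment -/
def G (p J : ℕ) : ℤ := ∑ n ∈ range (p ^ J), ∑ m ∈ range (p ^ J), (16 : ℤ) ^ NB p J n m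

theorem G_le {p : ℕ} (hp : 2 ≤ p) (J : ℕ) : 4 ^ J * G p J ≤ 49 ^ J * (p : ℤ) ^ (2 * J) := by
  induction J with
  | zero => simp [G, NB]
  | succ J ih =>
    have hp' : (2 : ℤ) ≤ p := by exact_mod_cast hp
    have hG : 4 * G p (J + 1) ≤ 49 * (p : ℤ) ^ 2 * G p J := by
      unfold G
      rw [pow_succ, sum_split2, mul_sum, mul_sum]
      refine sum_le_sum fun x hx => ?_
      rw [mul_sum, mul_sum]
      refine sum_le_sum fun y hy => ?_
      have hx' := mem_range.1 hx
      have hy' := mem_range.1 hy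
      have hlt : ∀ c ∈ range p, ∀ z, z < p ^ J → p ^ J * c + z < p ^ (J + 1) := by
        intro c hc z hz
        have h1 : p ^ J * (c + 1) ≤ p ^ J * p := Nat.mul_le_mul_left _ (mem_range.1 hc)
        rw [mul_add, mul_one] at h1
        rw [pow_succ]
        omega
      have h1 : ∀ c ∈ range p, ∀ d ∈ range p,
          (16 : ℤ) ^ NB p (J + 1) (p ^ J * c + x) (p ^ J * d + y) * 2
            = 16 ^ NB p J x y * (17 - 15 * e (p ^ J * c + x) (p ^ J * d + y)) := by
        intro c hc d hd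
        rw [NB_succ (hlt c hc x hx') (hlt d hd y hy'), NB_low, pow_add]
        unfold e
        split_ifs <;> ring
      have h2 : (∑ c ∈ range p, ∑ d ∈ range p,
          (16 : ℤ) ^ NB p (J + 1) (p ^ J * c + x) (p ^ J * d + y)) * 2
          = 16 ^ NB p J x y * (17 * (p : ℤ) ^ 2 - 15 * (p * e x y)) := by
        rw [sum_mul]
        have h3 : ∀ c ∈ range p, (∑ d ∈ range p,
            (16 : ℤ) ^ NB p (J + 1) (p ^ J * c + x) (p ^ J * d + y)) * 2
            = 16 ^ NB p J x y * (17 * p - 15 * ∑ d ∈ range p, e (p ^ J * c + x) (p ^ J * d + y)) := by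
          intro c hc
          rw [sum_mul, sum_congr rfl (h1 c hc), ← mul_sum, sum_sub_distrib, ← mul_sum]
          simp only [sum_const, card_range, nsmul_eq_mul]
          ring
        rw [sum_congr rfl h3, ← mul_sum, sum_sub_distrib, ← mul_sum, ← mul_sum, sum_e hx' hy']
        simp only [sum_const, card_range, nsmul_eq_mul]
        ring
      have h4 : (0 : ℤ) < 16 ^ NB p J x y := by positivity
      have h5 : 17 * (p : ℤ) ^ 2 - 15 * (p * e x y) ≤ 17 * (p : ℤ) ^ 2 + 15 * p := by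
        have := le_e x y
        nlinarith
      have h6 : 2 * (17 * (p : ℤ) ^ 2 + 15 * p) ≤ 49 * (p : ℤ) ^ 2 := by nlinarith
      have h7 : 2 * (16 ^ NB p J x y * (17 * (p : ℤ) ^ 2 - 15 * (p * e x y)))
          ≤ 16 ^ NB p J x y * (49 * (p : ℤ) ^ 2) := by
        have := mul_le_mul_of_nonneg_left (h5.trans (le_refl _)) h4.le
        have := mul_le_mul_of_nonneg_left h6 h4.le
        nlinarith
      linarith
    have h2 : (4 : ℤ) ^ (J + 1) * G p (J + 1) = 4 ^ J * (4 * G p (J + 1)) := by ring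
    rw [h2]
    calc (4 : ℤ) ^ J * (4 * G p (J + 1)) ≤ 4 ^ J * (49 * (p : ℤ) ^ 2 * G p J) :=
          mul_le_mul_of_nonneg_left hG (by positivity)
      _ = 49 * (p : ℤ) ^ 2 * (4 ^ J * G p J) := by ring
      _ ≤ 49 * (p : ℤ) ^ 2 * (49 ^ J * (p : ℤ) ^ (2 * J)) :=
          mul_le_mul_of_nonneg_left ih (by positivity)
      _ = _ := by rw [mul_add, pow_add, pow_add]; ring

/-! ### tails -/

/-- pairs of residues -/
def Q (q : ℕ) : Finset (ℕ × ℕ) := range q ×ˢ range q

/-- few borrows: second moment -/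
theorem tail_two {p : ℕ} (hp : 2 ≤ p) (J K : ℕ) (h : 2 * K ≤ J) :
    (((Q (p ^ J)).filter fun z => B p J z.1 z.2 < K).card : ℤ) * (J - 2 * K) ^ 2
      ≤ 3 * J * (p : ℤ) ^ (2 * J) := by
  refine le_trans ?_ (F_le hp J)
  unfold F
  rw [← sum_product' (range (p ^ J)) (range (p ^ J)) (fun n m => U p J n m ^ 2)]
  change _ ≤ ∑ z ∈ Q (p ^ J), U p J z.1 z.2 ^ 2
  rw [← nsmul_eq_mul]
  refine le_trans ?_ (sum_le_sum_of_subset_of_nonneg (filter_subset
    (fun z => B p J z.1 z.2 < K) (Q (p ^ J))) (fun _ _ _ => sq_nonneg _))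
  refine card_nsmul_le_sum _ _ _ ?_
  intro z hz
  have h1 := (mem_filter.1 hz).2
  rw [U_eq]
  have h2 : (B p J z.1 z.2 : ℤ) < K := by exact_mod_cast h1
  have h3 : 2 * (K : ℤ) ≤ J := by exact_mod_cast h
  have h4 : (0 : ℤ) ≤ (J : ℤ) - 2 * K := by linarith
  have h5 : (J : ℤ) - 2 * K ≤ -(2 * (B p J z.1 z.2 : ℤ) - J) := by linarith
  calc ((J : ℤ) - 2 * K) ^ 2 ≤ (-(2 * (B p J z.1 z.2 : ℤ) - J)) ^ 2 :=
        pow_le_pow_left₀ h4 h5 2
    _ = _ := by ring

/-- few borrows: exponential moment -/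
theorem tail_exp {p : ℕ} (hp : 2 ≤ p) (J K : ℕ) (h : K ≤ J) :
    (((Q (p ^ J)).filter fun z => B p J z.1 z.2 < K).card : ℤ) * (16 ^ (J - K) * 4 ^ J)
      ≤ 49 ^ J * (p : ℤ) ^ (2 * J) := by
  refine le_trans ?_ (G_le hp J)
  rw [← mul_assoc, mul_comm _ (4 ^ J : ℤ)]
  refine mul_le_mul_of_nonneg_left ?_ (by positivity)
  unfold G
  rw [← sum_product' (range (p ^ J)) (range (p ^ J)) (fun n m => (16 : ℤ) ^ NB p J n m)]
  change _ ≤ ∑ z ∈ Q (p ^ J), (16 : ℤ) ^ NB p J z.1 z.2
  rw [← nsmul_eq_mul]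
  refine le_trans ?_ (sum_le_sum_of_subset_of_nonneg (filter_subset
    (fun z => B p J z.1 z.2 < K) (Q (p ^ J))) (fun _ _ _ => by positivity))
  refine card_nsmul_le_sum _ _ _ ?_
  intro z hz
  have h1 := (mem_filter.1 hz).2
  have h2 := B_add_NB p J z.1 z.2
  exact pow_le_pow_right₀ (by norm_num) (by omega)

end Pool.Agent.NH76.FE
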