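import Pool.Agent.NH76.FE.Mom

/-!
# Counting the bad pairs
-/

set_option autoImplicit false

open Finset

namespace Pool.Agent.NH76.FE

/-- congruent integers in an interval -/
theorem card_cong {a L q : ℕ} (s : Finset ℕ) (h1 : ∀ x ∈ s, a ≤ x ∧ x < a + L)
    (h2 : ∀ x ∈ s, ∀ y ∈ s, x ≡ y [MOD q]) : s.card ≤ L / q + 1 := by
  calc s.card ≤ (range (L / q + 1)).card := by
        refine card_le_card_of_injOn (fun x => (x - a) / q) ?_ ?_
        · intro x hx
          have := h1 x hx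
          simp only [coe_range, Set.mem_Iio]
          rw [Nat.lt_succ_iff]
          exact Nat.div_le_div_right (by omega)
        · intro x hx y hy hxy
          have hx1 := h1 x hx
          have hy1 := h1 y hy
          have hxy' : (x - a) / q = (y - a) / q := hxy
          have h4 : (x - a) % q = (y - a) % q := by
            have h3 : (x - a) + a ≡ (y - a) + a [MOD q] := by
              rw [Nat.sub_add_cancel hx1.1, Nat.sub_add_cancel hy1.1]
              exact h2 x hx y hy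
            exact Nat.ModEq.add_right_cancel' a h3
          have h5 : x - a = y - a := by
            rw [← Nat.div_add_mod (x - a) q, ← Nat.div_add_mod (y - a) q, hxy', h4]
          omega
    _ = _ := card_range _

theorem card_mod {a L q r : ℕ} : ((Ico a (a + L)).filter fun x => x % q = r).card ≤ L / q + 1 := by
  refine card_cong (a := a) _ ?_ ?_
  · intro x hx
    rw [mem_filter, mem_Ico] at hx
    exact hx.1
  · intro x hx y hy
    rw [mem_filter] at hx hy
    exact hx.2.trans hy.2.symm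

theorem card_dvd {a L q i : ℕ} : ((Ico a (a + L)).filter fun x => q ∣ x + i).card ≤ L / q + 1 := by
  refine card_cong (a := a) _ ?_ ?_
  · intro x hx
    rw [mem_filter, mem_Ico] at hx
    exact hx.1
  · intro x hx y hy
    rw [mem_filter] at hx hy
    have h3 : x + i ≡ y + i [MOD q] :=
      (Nat.modEq_zero_iff_dvd.2 hx.2).trans (Nat.modEq_zero_iff_dvd.2 hy.2).symm
    exact Nat.ModEq.add_right_cancel' i h3

/-- the pairs -/
def PP (N M : ℕ) : Finset (ℕ × ℕ) := range N ×ˢ Ico M (M + M)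

theorem div_bound {N q c : ℕ} (hq : 0 < q) (h : q ≤ c * N) :
    (((N / q + 1 : ℕ)) : ℝ) ≤ (c + 1) * N / q := by
  have hq' : (0 : ℝ) < q := by exact_mod_cast hq
  have h1 : ((N / q : ℕ) : ℝ) ≤ (N : ℝ) / q := Nat.cast_div_le
  have h2 : (1 : ℝ) ≤ c * N / q := by
    rw [le_div_iff₀ hq', one_mul]
    exact_mod_cast h
  push_cast
  have h3 : ((c : ℝ) + 1) * N / q = c * N / q + N / q := by ring
  rw [h3]
  linarith

theorem transfer {N M q : ℕ} (hq : 0 < q) (hqM : q ≤ M) (hMN : M ≤ N) (R : ℕ → ℕ → Prop)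
    [∀ n m, Decidable (R n m)] (hR : ∀ n m, R n m → R (n % q) (m % q)) :
    (((PP N M).filter fun z => R z.1 z.2).card : ℝ) ≤
      (4 * N * M / q ^ 2) * ((Q q).filter fun z => R z.1 z.2).card := by
  have h1 : ((PP N M).filter fun z => R z.1 z.2).card ≤
      ((N / q + 1) * (M / q + 1)) * ((Q q).filter fun z => R z.1 z.2).card := by
    refine card_le_mul_card_image_of_maps_to (f := fun z => (z.1 % q, z.2 % q)) ?_ _ ?_
    · intro z hz
      rw [mem_filter] at hz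
      rw [mem_filter]
      refine ⟨?_, hR _ _ hz.2⟩
      unfold Q
      rw [mem_product]
      exact ⟨mem_range.2 (Nat.mod_lt _ hq), mem_range.2 (Nat.mod_lt _ hq)⟩
    · intro b _
      calc _ ≤ (((Ico 0 (0 + N)).filter fun x => x % q = b.1) ×ˢ
            ((Ico M (M + M)).filter fun x => x % q = b.2)).card := by
            apply card_le_card
            intro z hz
            rw [mem_filter, mem_filter] at hz
            unfold PP at hz
            rw [mem_product, mem_range] at hz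
            rw [mem_product, mem_filter, mem_filter, mem_Ico]
            have h3 := hz.2
            refine ⟨⟨⟨Nat.zero_le _, by omega⟩, ?_⟩, hz.1.1.2, ?_⟩
            · rw [← h3]
            · rw [← h3]
        _ ≤ _ := by
            rw [card_product]
            exact Nat.mul_le_mul card_mod card_mod
  have hq' : (0 : ℝ) < q := by exact_mod_cast hq
  have h2 := div_bound (N := N) (q := q) (c := 1) hq (by omega)
  have h3 := div_bound (N := M) (q := q) (c := 1) hq (by omega)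
  have h4 : (((PP N M).filter fun z => R z.1 z.2).card : ℝ) ≤
      (((N / q + 1 : ℕ) : ℝ) * ((M / q + 1 : ℕ) : ℝ)) * ((Q q).filter fun z => R z.1 z.2).card := by
    exact_mod_cast h1
  refine h4.trans ?_
  refine mul_le_mul_of_nonneg_right ?_ (by positivity)
  calc _ ≤ (((1 : ℕ) : ℝ) + 1) * N / q * ((((1 : ℕ) : ℝ) + 1) * M / q) :=
        mul_le_mul h2 h3 (by positivity) (by positivity)
    _ = _ := by push_cast; field_simp; ring

theorem B_mod (p J n m : ℕ) : B p J (n % p ^ J) (m % p ^ J) = B p J n m := by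
  unfold B
  congr 1
  refine filter_congr fun j hj => ?_
  rw [Nat.mod_mod_of_dvd _ (pow_dvd_pow p (mem_Icc.1 hj).2),
    Nat.mod_mod_of_dvd _ (pow_dvd_pow p (mem_Icc.1 hj).2)]

theorem pairs_two {N M p J K : ℕ} (hp : 2 ≤ p) (hq : p ^ J ≤ M) (hMN : M ≤ N) (h : 2 * K < J) :
    (((PP N M).filter fun z => B p J z.1 z.2 < K).card : ℝ) ≤
      N * M * (12 * J / ((J : ℝ) - 2 * K) ^ 2) := by
  have hpos : 0 < p ^ J := pow_pos (by omega) J
  have h1 := transfer hpos hq hMN (fun n m => B p J n m < K)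
    (fun n m hnm => by simpa only [B_mod] using hnm)
  refine h1.trans ?_
  have h2 := tail_two hp J K h.le
  have h3 : (0 : ℝ) < (J : ℝ) - 2 * K := by
    have : (2 : ℝ) * K < J := by exact_mod_cast h
    linarith
  have h4 : (((Q (p ^ J)).filter fun z => B p J z.1 z.2 < K).card : ℝ) * ((J : ℝ) - 2 * K) ^ 2
      ≤ 3 * J * (p : ℝ) ^ (2 * J) := by exact_mod_cast h2
  have h5 : (((Q (p ^ J)).filter fun z => B p J z.1 z.2 < K).card : ℝ)
      ≤ 3 * J * (p : ℝ) ^ (2 * J) / ((J : ℝ) - 2 * K) ^ 2 := by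
    rw [le_div_iff₀ (by positivity)]
    exact h4
  have hp' : (0 : ℝ) < (p : ℝ) ^ J := by exact_mod_cast hpos
  calc _ ≤ (4 * N * M / ((p ^ J : ℕ) : ℝ) ^ 2) *
        (3 * J * (p : ℝ) ^ (2 * J) / ((J : ℝ) - 2 * K) ^ 2) :=
        mul_le_mul_of_nonneg_left h5 (by positivity)
    _ = _ := by
        push_cast
        have : (p : ℝ) ^ (2 * J) = ((p : ℝ) ^ J) ^ 2 := by rw [← pow_mul, mul_comm]
        rw [this]
        field_simp
        ring

theorem pairs_exp {N M p J K : ℕ} (hp : 2 ≤ p) (hq : p ^ J ≤ M) (hMN : M ≤ N) (h : 24 * K ≤ J) :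
    (((PP N M).filter fun z => B p J z.1 z.2 < K).card : ℝ) ≤ N * M * (4 * (7 / 8) ^ J) := by
  have hpos : 0 < p ^ J := pow_pos (by omega) J
  have h1 := transfer hpos hq hMN (fun n m => B p J n m < K)
    (fun n m hnm => by simpa only [B_mod] using hnm)
  refine h1.trans ?_
  have h2 := tail_exp hp J K (by omega)
  have h4 : (((Q (p ^ J)).filter fun z => B p J z.1 z.2 < K).card : ℝ) * (16 ^ (J - K) * 4 ^ J)
      ≤ 49 ^ J * (p : ℝ) ^ (2 * J) := by exact_mod_cast h2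
  have h5 : (14 : ℝ) ^ J ≤ 16 ^ (J - K) := by
    have e1 : (16 : ℝ) ^ K ≤ (8 / 7) ^ J := by
      calc (16 : ℝ) ^ K ≤ ((8 / 7) ^ 24) ^ K := pow_le_pow_left₀ (by norm_num) (by norm_num) K
        _ = (8 / 7) ^ (24 * K) := by rw [pow_mul]
        _ ≤ (8 / 7) ^ J := pow_le_pow_right₀ (by norm_num) h
    have e2 : (16 : ℝ) ^ J = 16 ^ (J - K) * 16 ^ K := by
      rw [← pow_add]; congr 1; omega
    have e3 : (14 : ℝ) ^ J * (8 / 7) ^ J = 16 ^ J := by rw [← mul_pow]; norm_num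
    have e4 : (14 : ℝ) ^ J * (8 / 7) ^ J ≤ 16 ^ (J - K) * (8 / 7) ^ J := by
      rw [e3, e2]
      exact mul_le_mul_of_nonneg_left e1 (by positivity)
    exact le_of_mul_le_mul_right e4 (by positivity)
  have hp' : (0 : ℝ) < (p : ℝ) ^ J := by exact_mod_cast hpos
  have h6 : (((Q (p ^ J)).filter fun z => B p J z.1 z.2 < K).card : ℝ)
      ≤ (7 / 8) ^ J * (p : ℝ) ^ (2 * J) := by
    have e5 : (((Q (p ^ J)).filter fun z => B p J z.1 z.2 < K).card : ℝ) * (56 : ℝ) ^ J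
        ≤ 49 ^ J * (p : ℝ) ^ (2 * J) := by
      refine le_trans ?_ h4
      refine mul_le_mul_of_nonneg_left ?_ (by positivity)
      have : (56 : ℝ) ^ J = 14 ^ J * 4 ^ J := by rw [← mul_pow]; norm_num
      rw [this]
      exact mul_le_mul_of_nonneg_right h5 (by positivity)
    have e6 : (49 : ℝ) ^ J * (p : ℝ) ^ (2 * J) = (7 / 8) ^ J * (p : ℝ) ^ (2 * J) * 56 ^ J := by
      have : (49 : ℝ) ^ J = (7 / 8) ^ J * 56 ^ J := by rw [← mul_pow]; norm_num
      rw [this]; ring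
    rw [e6] at e5
    exact le_of_mul_le_mul_right e5 (by positivity)
  calc _ ≤ (4 * N * M / ((p ^ J : ℕ) : ℝ) ^ 2) * ((7 / 8) ^ J * (p : ℝ) ^ (2 * J)) :=
        mul_le_mul_of_nonneg_left h6 (by positivity)
    _ = _ := by
        push_cast
        have : (p : ℝ) ^ (2 * J) = ((p : ℝ) ^ J) ^ 2 := by rw [← pow_mul, mul_comm]
        rw [this]
        field_simp

/-- the number of excluded digits -/
def W (p t : ℕ) : ℕ := Nat.log p ((t + 1) ^ 6)

/-- the number of borrows which is needed -/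
def K (p t : ℕ) : ℕ := t / (p - 1) + W p t

/-- the four bad events -/
def Bad1 (t p m : ℕ) : Prop := ∃ i ∈ Icc 1 t, p ^ (W p t + 1) ∣ m + i
def Bad2 (t M p n m : ℕ) : Prop := B p (Nat.log p M) n m < K p t
def Bad3 (t d m : ℕ) : Prop := ∃ i ∈ Icc 1 t, d ^ 2 ∣ m + i
def Bad4 (t d n m : ℕ) : Prop := ∃ i ∈ Icc 1 t, d ∣ m + i ∧ ¬ n % d < m % d

/-- a pair which is not bad -/
theorem good_of {t M n m : ℕ} (hmn : m ≤ n)
    (h12 : ∀ p : ℕ, p.Prime → p ≤ (t + 1) ^ 3 → ¬ Bad1 t p m ∧ ¬ Bad2 t M p n m)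
    (h34 : ∀ p : ℕ, p.Prime → (t + 1) ^ 3 < p → ¬ Bad3 t p m ∧ ¬ Bad4 t p n m) :
    (n - m).factorial * (m + t).factorial ∣ n.factorial := by
  refine dvd_main hmn fun p hp => ?_
  by_cases hpt : p ≤ (t + 1) ^ 3
  · obtain ⟨h1, h2⟩ := h12 p hp hpt
    have hv := asc_val (p := p) (m := m) (t := t) (W := W p t) hp (fun i hi1 hi2 hdvd =>
      h1 ⟨i, mem_Icc.2 ⟨hi1, hi2⟩, hdvd⟩)
    have hp1 : 0 < p - 1 := by have := hp.two_le; omega
    have hv2 : ((m + 1).ascFactorial t).factorization p ≤ K p t := by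
      unfold K
      have : ((m + 1).ascFactorial t).factorization p ≤ (t + (p - 1) * W p t) / (p - 1) := by
        rw [Nat.le_div_iff_mul_le hp1, mul_comm]
        exact hv
      rw [Nat.add_mul_div_left _ _ hp1] at this
      exact this
    have h3 : K p t ≤ B p (Nat.log p M) n m := not_lt.1 h2
    exact hv2.trans (h3.trans (B_le hp hmn))
  · rw [not_le] at hpt
    obtain ⟨h3, h4⟩ := h34 p hp hpt
    have hbig : t + 1 < p := by
      refine lt_of_le_of_lt ?_ hpt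
      exact Nat.le_self_pow (by norm_num) _
    by_cases hex : ∃ i ∈ Icc 1 t, p ∣ m + i
    · obtain ⟨i, hi, hdvd⟩ := hex
      have hlt : n % p < m % p := by
        by_contra hcon
        exact h4 ⟨i, hi, hdvd, hcon⟩
      have hv := asc_val (p := p) (m := m) (t := t) (W := 1) hp (fun i hi1 hi2 hdvd =>
        h3 ⟨i, mem_Icc.2 ⟨hi1, hi2⟩, hdvd⟩)
      have hv2 : ((m + 1).ascFactorial t).factorization p ≤ 1 := by
        by_contra hcon
        rw [not_le] at hcon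
        have : (p - 1) * 2 ≤ (p - 1) * ((m + 1).ascFactorial t).factorization p :=
          Nat.mul_le_mul_left _ hcon
        omega
      have hB : 1 ≤ B p 1 n m := by
        unfold B
        rw [Nat.one_le_iff_ne_zero, ← Nat.pos_iff_ne_zero, card_pos]
        exact ⟨1, by rw [mem_filter]; simp [hlt]⟩
      exact hv2.trans (hB.trans (B_le hp hmn))
    · have hv := asc_val (p := p) (m := m) (t := t) (W := 0) hp (fun i hi1 hi2 hdvd =>
        hex ⟨i, mem_Icc.2 ⟨hi1, hi2⟩, by simpa using hdvd⟩)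
      have hv2 : ((m + 1).ascFactorial t).factorization p = 0 := by
        by_contra hcon
        have : (p - 1) * 1 ≤ (p - 1) * ((m + 1).ascFactorial t).factorization p :=
          Nat.mul_le_mul_left _ (Nat.pos_of_ne_zero hcon)
        omega
      rw [hv2]
      exact Nat.zero_le _

/-- the number of elements of `s` with the property `P` -/
noncomputable def cnt {α : Type*} (s : Finset α) (P : α → Prop) : ℕ :=
  (@Finset.filter α P (fun _ => Classical.propDecidable _) s).card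

theorem cnt_eq {α : Type*} (s : Finset α) (P : α → Prop) [DecidablePred P] :
    cnt s P = (s.filter P).card := by
  unfold cnt
  congr

theorem cnt_mono {α : Type*} {s : Finset α} {P R : α → Prop} (h : ∀ x ∈ s, P x → R x) :
    cnt s P ≤ cnt s R := by
  classical
  rw [cnt_eq, cnt_eq]
  apply card_le_card
  intro x hx
  rw [mem_filter] at hx ⊢
  exact ⟨hx.1, h x hx.1 hx.2⟩

theorem cnt_or {α : Type*} (s : Finset α) (P R : α → Prop) :
    cnt s (fun x => P x ∨ R x) ≤ cnt s P + cnt s R := by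
  classical
  rw [cnt_eq, cnt_eq, cnt_eq, filter_or]
  exact card_union_le _ _

theorem cnt_false {α : Type*} {s : Finset α} {P : α → Prop} (h : ∀ x, ¬ P x) : cnt s P = 0 := by
  classical
  rw [cnt_eq, card_eq_zero, filter_eq_empty_iff]
  exact fun x _ => h x

theorem card_ex_le {α ι : Type*} (s : Finset α) (I : Finset ι) (P : ι → α → Prop) (c : ι → ℝ)
    (h : ∀ i ∈ I, (cnt s (P i) : ℝ) ≤ c i) :
    (cnt s (fun x => ∃ i ∈ I, P i x) : ℝ) ≤ ∑ i ∈ I, c i := by
  classical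
  have h1 : s.filter (fun x => ∃ i ∈ I, P i x) = I.biUnion fun i => s.filter (P i) := by
    ext x
    simp only [mem_filter, mem_biUnion]
    constructor
    · rintro ⟨hx, i, hi, hp⟩; exact ⟨i, hi, hx, hp⟩
    · rintro ⟨i, hi, hx, hp⟩; exact ⟨hx, i, hi, hp⟩
  rw [cnt_eq, h1]
  calc ((I.biUnion fun i => s.filter (P i)).card : ℝ)
      ≤ ((∑ i ∈ I, (s.filter (P i)).card : ℕ) : ℝ) := by exact_mod_cast card_biUnion_le
    _ = ∑ i ∈ I, (cnt s (P i) : ℝ) := by
        push_cast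
        exact sum_congr rfl fun i _ => by rw [cnt_eq]
    _ ≤ _ := sum_le_sum h

/-- pairs whose second component satisfies a condition -/
theorem card_snd {N M : ℕ} (P : ℕ → Prop) :
    cnt (PP N M) (fun z => P z.2) = N * cnt (Ico M (M + M)) P := by
  classical
  have : (PP N M).filter (fun z => P z.2) = range N ×ˢ ((Ico M (M + M)).filter P) := by
    ext z
    unfold PP
    simp only [mem_filter, mem_product]
    tauto
  rw [cnt_eq, cnt_eq, this, card_product, card_range]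

theorem cnt_dvd {M q i : ℕ} : cnt (Ico M (M + M)) (fun m => q ∣ m + i) ≤ M / q + 1 := by
  rw [cnt_eq]
  exact card_dvd

theorem count1 {N M t p : ℕ} (hp : p.Prime) (hM : 1 ≤ M) :
    (cnt (PP N M) (fun z => Bad1 t p z.2) : ℝ) ≤
      N * M * (t * (1 / ((t : ℝ) + 1) ^ 6 + 1 / M)) := by
  have hM' : (0 : ℝ) < M := by exact_mod_cast hM
  rw [card_snd (fun m => Bad1 t p m)]
  have hq : (t + 1) ^ 6 < p ^ (W p t + 1) := Nat.lt_pow_succ_log_self hp.one_lt _
  have h1 : (cnt (Ico M (M + M)) (fun m => Bad1 t p m) : ℝ) ≤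
      ∑ _i ∈ Icc 1 t, ((M : ℝ) / ((t : ℝ) + 1) ^ 6 + 1) := by
    refine card_ex_le _ _ (fun i m => p ^ (W p t + 1) ∣ m + i) _ ?_
    intro i _
    have h2 : (cnt (Ico M (M + M)) (fun m => p ^ (W p t + 1) ∣ m + i) : ℝ)
        ≤ ((M / p ^ (W p t + 1) + 1 : ℕ) : ℝ) := by exact_mod_cast cnt_dvd
    refine h2.trans ?_
    rw [Nat.cast_add, Nat.cast_one]
    have h3 : ((M / p ^ (W p t + 1) : ℕ) : ℝ) ≤ (M : ℝ) / ((p ^ (W p t + 1) : ℕ) : ℝ) :=
      Nat.cast_div_le
    have h4 : (M : ℝ) / ((p ^ (W p t + 1) : ℕ) : ℝ) ≤ (M : ℝ) / ((t : ℝ) + 1) ^ 6 := by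
      refine div_le_div_of_nonneg_left hM'.le (by positivity) ?_
      exact_mod_cast hq.le
    linarith
  rw [sum_const, Nat.card_Icc, Nat.add_sub_cancel, nsmul_eq_mul] at h1
  rw [Nat.cast_mul]
  calc (N : ℝ) * (cnt (Ico M (M + M)) (fun m => Bad1 t p m) : ℝ)
      ≤ N * (t * ((M : ℝ) / ((t : ℝ) + 1) ^ 6 + 1)) :=
        mul_le_mul_of_nonneg_left h1 (by positivity)
    _ = _ := by field_simp

theorem sum_sq_le {a b : ℕ} (ha : 0 < a) : ∑ d ∈ Ioc a b, (1 : ℝ) / (d : ℝ) ^ 2 ≤ 1 / a := by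
  rcases le_total a b with h | h
  · have h1 := sum_Ioc_inv_sq_le_sub (α := ℝ) ha.ne' h
    have h2 : (0 : ℝ) ≤ ((b : ℝ))⁻¹ := by positivity
    simp only [one_div]
    linarith
  · rw [Ioc_eq_empty_of_le h, sum_empty]
    positivity

theorem count3 {N M t : ℕ} (hM : 1 ≤ M) (S : ℕ) :
    (cnt (PP N M) (fun z => ∃ d ∈ Ioc ((t + 1) ^ 3) S, Bad3 t d z.2) : ℝ) ≤
      N * M * (t * (1 / ((t : ℝ) + 1) ^ 3 + S / M)) := by
  have hM' : (0 : ℝ) < M := by exact_mod_cast hM
  rw [card_snd (fun m => ∃ d ∈ Ioc ((t + 1) ^ 3) S, Bad3 t d m)]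
  have h1 : (cnt (Ico M (M + M)) (fun m => ∃ d ∈ Ioc ((t + 1) ^ 3) S, Bad3 t d m) : ℝ) ≤
      ∑ d ∈ Ioc ((t + 1) ^ 3) S, ((t : ℝ) * (M * (1 / (d : ℝ) ^ 2) + 1)) := by
    refine card_ex_le _ _ (fun d m => Bad3 t d m) _ ?_
    intro d hd
    have h2 : (cnt (Ico M (M + M)) (fun m => Bad3 t d m) : ℝ) ≤
        ∑ _i ∈ Icc 1 t, ((M : ℝ) * (1 / (d : ℝ) ^ 2) + 1) := by
      refine card_ex_le _ _ (fun i m => d ^ 2 ∣ m + i) _ ?_
      intro i _
      have h2 : (cnt (Ico M (M + M)) (fun m => d ^ 2 ∣ m + i) : ℝ)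
          ≤ ((M / d ^ 2 + 1 : ℕ) : ℝ) := by exact_mod_cast cnt_dvd
      refine h2.trans ?_
      rw [Nat.cast_add, Nat.cast_one]
      have h3 : ((M / d ^ 2 : ℕ) : ℝ) ≤ (M : ℝ) / ((d ^ 2 : ℕ) : ℝ) := Nat.cast_div_le
      have h4 : (M : ℝ) / ((d ^ 2 : ℕ) : ℝ) = M * (1 / (d : ℝ) ^ 2) := by push_cast; ring
      linarith
    rw [sum_const, Nat.card_Icc, Nat.add_sub_cancel, nsmul_eq_mul] at h2
    exact h2
  have h5 : ∑ d ∈ Ioc ((t + 1) ^ 3) S, ((t : ℝ) * (M * (1 / (d : ℝ) ^ 2) + 1))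
      ≤ t * (M * (1 / ((t : ℝ) + 1) ^ 3) + S) := by
    rw [← mul_sum, sum_add_distrib, ← mul_sum]
    refine mul_le_mul_of_nonneg_left ?_ (by positivity)
    have e1 := sum_sq_le (a := (t + 1) ^ 3) (b := S) (by positivity)
    rw [Nat.cast_pow, Nat.cast_add, Nat.cast_one] at e1
    have e2 : ∑ _d ∈ Ioc ((t + 1) ^ 3) S, (1 : ℝ) ≤ S := by
      rw [sum_const, Nat.card_Ioc, nsmul_eq_mul, mul_one]
      exact_mod_cast Nat.sub_le _ _
    have e3 := mul_le_mul_of_nonneg_left e1 hM'.le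
    linarith
  rw [Nat.cast_mul]
  calc (N : ℝ) * (cnt (Ico M (M + M)) (fun m => ∃ d ∈ Ioc ((t + 1) ^ 3) S, Bad3 t d m) : ℝ)
      ≤ N * (t * (M * (1 / ((t : ℝ) + 1) ^ 3) + S)) :=
        mul_le_mul_of_nonneg_left (h1.trans h5) (by positivity)
    _ = _ := by field_simp

theorem count4 {N M t : ℕ} (hM : 1 ≤ M) (hMN : M ≤ N) :
    (cnt (PP N M) (fun z => ∃ d ∈ Ioc ((t + 1) ^ 3) (3 * M), Bad4 t d z.1 z.2) : ℝ) ≤
      N * M * (16 * t ^ 2 / ((t : ℝ) + 1) ^ 3) := by
  have h1 : (cnt (PP N M) (fun z => ∃ d ∈ Ioc ((t + 1) ^ 3) (3 * M),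
      Bad4 t d z.1 z.2) : ℝ) ≤
      ∑ d ∈ Ioc ((t + 1) ^ 3) (3 * M), (16 * (t : ℝ) ^ 2 * N * M) * (1 / (d : ℝ) ^ 2) := by
    refine card_ex_le _ _ (fun (d : ℕ) (z : ℕ × ℕ) => Bad4 t d z.1 z.2) _ ?_
    intro d hd
    rw [mem_Ioc] at hd
    have htd : t + 1 < d := lt_of_le_of_lt (Nat.le_self_pow (by norm_num) _) hd.1
    have hd0 : 0 < d := by omega
    have hd' : (0 : ℝ) < d := by exact_mod_cast hd0
    have e1 := div_bound (N := N) (q := d) (c := 3) hd0 (by omega)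
    have e2 := div_bound (N := M) (q := d) (c := 3) hd0 (by omega)
    have h2 : (cnt (PP N M) (fun z => Bad4 t d z.1 z.2) : ℝ) ≤
        ∑ _i ∈ Icc 1 t, ((t : ℝ) * (((N / d + 1 : ℕ) : ℝ) * ((M / d + 1 : ℕ) : ℝ))) := by
      refine card_ex_le _ _ (fun (i : ℕ) (z : ℕ × ℕ) => d ∣ z.2 + i ∧ ¬ z.1 % d < z.2 % d) _ ?_
      intro i hi
      rw [mem_Icc] at hi
      have h3 : (cnt (PP N M) (fun z => ∃ j ∈ Icc 1 t,
          z.1 % d = d - j ∧ d ∣ z.2 + i) : ℝ) ≤
          ∑ _j ∈ Icc 1 t, (((N / d + 1 : ℕ) : ℝ) * ((M / d + 1 : ℕ) : ℝ)) := by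
        refine card_ex_le _ _ (fun (j : ℕ) (z : ℕ × ℕ) => z.1 % d = d - j ∧ d ∣ z.2 + i) _ ?_
        intro j _
        have h4 : cnt (PP N M) (fun z => z.1 % d = d - j ∧ d ∣ z.2 + i) ≤
            (N / d + 1) * (M / d + 1) := by
          rw [cnt_eq]
          calc _ ≤ (((Ico 0 (0 + N)).filter fun x => x % d = d - j) ×ˢ
                ((Ico M (M + M)).filter fun x => d ∣ x + i)).card := by
                apply card_le_card
                intro z hz
                rw [mem_filter] at hz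
                unfold PP at hz
                rw [mem_product, mem_range] at hz
                rw [mem_product, mem_filter, mem_filter, mem_Ico]
                exact ⟨⟨⟨Nat.zero_le _, by omega⟩, hz.2.1⟩, hz.1.2, hz.2.2⟩
            _ ≤ _ := by
                rw [card_product]
                exact Nat.mul_le_mul card_mod card_dvd
        exact_mod_cast h4
      rw [sum_const, Nat.card_Icc, Nat.add_sub_cancel, nsmul_eq_mul] at h3
      refine le_trans ?_ h3
      have h5 : cnt (PP N M) (fun z => d ∣ z.2 + i ∧ ¬ z.1 % d < z.2 % d) ≤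
          cnt (PP N M) (fun z => ∃ j ∈ Icc 1 t, z.1 % d = d - j ∧ d ∣ z.2 + i) := by
        refine cnt_mono fun z _ hz => ?_
        refine ⟨d - z.1 % d, ?_, ?_, hz.1⟩
        · have h6 := Nat.mod_lt z.1 hd0
          have h7 : z.2 % d = d - i := by
            have h8 : (z.2 + i) % d = 0 := Nat.mod_eq_zero_of_dvd hz.1
            have h9 := Nat.mod_lt z.2 hd0
            rw [Nat.add_mod, Nat.mod_eq_of_lt (show i < d by omega)] at h8
            by_contra hne
            rcases lt_or_ge (z.2 % d + i) d with hlt | hge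
            · rw [Nat.mod_eq_of_lt hlt] at h8; omega
            · rw [Nat.mod_eq_sub_mod hge, Nat.mod_eq_of_lt (by omega)] at h8; omega
          have h10 := hz.2
          rw [mem_Icc]
          omega
        · have h6 := Nat.mod_lt z.1 hd0
          omega
      exact_mod_cast h5
    rw [sum_const, Nat.card_Icc, Nat.add_sub_cancel, nsmul_eq_mul] at h2
    refine h2.trans ?_
    calc (t : ℝ) * (t * (((N / d + 1 : ℕ) : ℝ) * ((M / d + 1 : ℕ) : ℝ)))
        ≤ t * (t * ((((3 : ℕ) : ℝ) + 1) * N / d * ((((3 : ℕ) : ℝ) + 1) * M / d))) := by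
          refine mul_le_mul_of_nonneg_left (mul_le_mul_of_nonneg_left
            (mul_le_mul e1 e2 (by positivity) (by positivity)) (by positivity)) (by positivity)
      _ = _ := by push_cast; field_simp; ring
  refine h1.trans ?_
  rw [← mul_sum]
  have e1 := sum_sq_le (a := (t + 1) ^ 3) (b := 3 * M) (by positivity)
  rw [Nat.cast_pow, Nat.cast_add, Nat.cast_one] at e1
  calc _ ≤ (16 * (t : ℝ) ^ 2 * N * M) * (1 / ((t : ℝ) + 1) ^ 3) :=
        mul_le_mul_of_nonneg_left e1 (by positivity)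
    _ = _ := by ring

/-- the number of bad pairs -/
theorem bad_total {N M t P0 : ℕ} {δ ρ : ℝ} (hM : 1 ≤ M) (htM : t ≤ M) (hMN : M ≤ N)
    (hδ : 0 ≤ δ) (hρ : 0 ≤ ρ)
    (h1 : ∀ p : ℕ, p.Prime → p ≤ P0 → 2 * K p t < Nat.log p M ∧
      12 * (Nat.log p M : ℝ) / ((Nat.log p M : ℝ) - 2 * K p t) ^ 2 ≤ δ)
    (h2 : ∀ p : ℕ, p.Prime → P0 < p → p ≤ (t + 1) ^ 3 → 24 * K p t ≤ Nat.log p M ∧
      (7 / 8 : ℝ) ^ Nat.log p M ≤ ρ) :
    (cnt (PP N M) (fun z => z.2 ≤ z.1 ∧
      ¬ (z.1 - z.2).factorial * (z.2 + t).factorial ∣ z.1.factorial) : ℝ) ≤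
      N * M * (P0 * δ + ((t : ℝ) + 1) ^ 3 * (4 * ρ)
        + ((t : ℝ) + 1) ^ 3 * (t * (1 / ((t : ℝ) + 1) ^ 6 + 1 / M))
        + t * (1 / ((t : ℝ) + 1) ^ 3 + Nat.sqrt (3 * M) / M)
        + 16 * t ^ 2 / ((t : ℝ) + 1) ^ 3) := by
  have hM0 : M ≠ 0 := by omega
  have hsub : cnt (PP N M) (fun z => z.2 ≤ z.1 ∧
      ¬ (z.1 - z.2).factorial * (z.2 + t).factorial ∣ z.1.factorial)
      ≤ cnt (PP N M) (fun z =>
        ((((∃ p ∈ Icc 1 ((t + 1) ^ 3), p.Prime ∧ Bad1 t p z.2) ∨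
        (∃ p ∈ Icc 1 P0, p.Prime ∧ Bad2 t M p z.1 z.2)) ∨
        (∃ p ∈ Icc 1 ((t + 1) ^ 3), (p.Prime ∧ P0 < p) ∧ Bad2 t M p z.1 z.2)) ∨
        (∃ d ∈ Ioc ((t + 1) ^ 3) (Nat.sqrt (3 * M)), Bad3 t d z.2)) ∨
        (∃ d ∈ Ioc ((t + 1) ^ 3) (3 * M), Bad4 t d z.1 z.2)) := by
    refine cnt_mono fun z hz hzz => ?_
    by_contra hcon
    simp only [not_or] at hcon
    obtain ⟨⟨⟨⟨c1, c2⟩, c3⟩, c4⟩, c5⟩ := hcon
    have hz2 : z.2 < M + M := by
      unfold PP at hz
      rw [mem_product, mem_Ico] at hz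
      exact hz.2.2
    refine hzz.2 (good_of (M := M) hzz.1 ?_ ?_)
    · intro p hp hpt
      refine ⟨fun hb => c1 ⟨p, mem_Icc.2 ⟨hp.one_lt.le, hpt⟩, hp, hb⟩, fun hb => ?_⟩
      by_cases hpP : p ≤ P0
      · exact c2 ⟨p, mem_Icc.2 ⟨hp.one_lt.le, hpP⟩, hp, hb⟩
      · exact c3 ⟨p, mem_Icc.2 ⟨hp.one_lt.le, hpt⟩, ⟨hp, not_le.1 hpP⟩, hb⟩
    · intro p hp hpt
      refine ⟨fun hb => c4 ⟨p, ?_, hb⟩, fun hb => c5 ⟨p, ?_, hb⟩⟩
      · obtain ⟨i, hi, hdvd⟩ := hb
        rw [mem_Icc] at hi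
        rw [mem_Ioc]
        refine ⟨hpt, ?_⟩
        rw [Nat.le_sqrt']
        exact (Nat.le_of_dvd (by omega) hdvd).trans (by omega)
      · obtain ⟨i, hi, hdvd, _⟩ := hb
        rw [mem_Icc] at hi
        rw [mem_Ioc]
        exact ⟨hpt, (Nat.le_of_dvd (by omega) hdvd).trans (by omega)⟩
  have b1 : (cnt (PP N M) (fun z => ∃ p ∈ Icc 1 ((t + 1) ^ 3), p.Prime ∧ Bad1 t p z.2) : ℝ)
      ≤ N * M * (((t : ℝ) + 1) ^ 3 * (t * (1 / ((t : ℝ) + 1) ^ 6 + 1 / M))) := by
    have := card_ex_le (PP N M) (Icc 1 ((t + 1) ^ 3)) (fun p z => p.Prime ∧ Bad1 t p z.2)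
      (fun _ => (N : ℝ) * M * (t * (1 / ((t : ℝ) + 1) ^ 6 + 1 / M))) (fun p _ => by
        by_cases hp : p.Prime
        · refine le_trans ?_ (count1 (N := N) hp hM)
          have e0 : cnt (PP N M) (fun z => p.Prime ∧ Bad1 t p z.2) ≤
              cnt (PP N M) (fun z => Bad1 t p z.2) := cnt_mono fun z _ hz => hz.2
          exact_mod_cast e0
        · rw [cnt_false (P := _) (s := _) (fun z hz => hp (And.left hz)), Nat.cast_zero]
          positivity)
    refine this.trans (le_of_eq ?_)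
    rw [sum_const, Nat.card_Icc, Nat.add_sub_cancel, nsmul_eq_mul]
    rw [Nat.cast_pow, Nat.cast_add, Nat.cast_one]
    ring
  have b2 : (cnt (PP N M) (fun z => ∃ p ∈ Icc 1 P0, p.Prime ∧ Bad2 t M p z.1 z.2) : ℝ)
      ≤ N * M * (P0 * δ) := by
    have := card_ex_le (PP N M) (Icc 1 P0) (fun p z => p.Prime ∧ Bad2 t M p z.1 z.2)
      (fun _ => (N : ℝ) * M * δ) (fun p hp0 => by
        by_cases hp : p.Prime
        · obtain ⟨e1, e2⟩ := h1 p hp (mem_Icc.1 hp0).2
          have e3 : cnt (PP N M) (fun z => p.Prime ∧ Bad2 t M p z.1 z.2) ≤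
              ((PP N M).filter fun z => B p (Nat.log p M) z.1 z.2 < K p t).card := by
            rw [← cnt_eq]
            exact cnt_mono fun z _ hz => hz.2
          have e4 : (cnt (PP N M) (fun z => p.Prime ∧ Bad2 t M p z.1 z.2) : ℝ) ≤
              (((PP N M).filter fun z => B p (Nat.log p M) z.1 z.2 < K p t).card : ℝ) := by
            exact_mod_cast e3
          refine e4.trans ?_
          refine (pairs_two hp.two_le (Nat.pow_log_le_self p hM0) hMN e1).trans ?_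
          exact mul_le_mul_of_nonneg_left e2 (by positivity)
        · rw [cnt_false (P := _) (s := _) (fun z hz => hp (And.left hz)), Nat.cast_zero]
          positivity)
    refine this.trans (le_of_eq ?_)
    rw [sum_const, Nat.card_Icc, Nat.add_sub_cancel, nsmul_eq_mul]
    ring
  have b3 : (cnt (PP N M) (fun z => ∃ p ∈ Icc 1 ((t + 1) ^ 3), (p.Prime ∧ P0 < p) ∧
      Bad2 t M p z.1 z.2) : ℝ) ≤ N * M * (((t : ℝ) + 1) ^ 3 * (4 * ρ)) := by
    have := card_ex_le (PP N M) (Icc 1 ((t + 1) ^ 3))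
      (fun p z => (p.Prime ∧ P0 < p) ∧ Bad2 t M p z.1 z.2)
      (fun _ => (N : ℝ) * M * (4 * ρ)) (fun p hp0 => by
        by_cases hp : p.Prime ∧ P0 < p
        · obtain ⟨e1, e2⟩ := h2 p hp.1 hp.2 (mem_Icc.1 hp0).2
          have e3 : cnt (PP N M) (fun z => (p.Prime ∧ P0 < p) ∧ Bad2 t M p z.1 z.2) ≤
              ((PP N M).filter fun z => B p (Nat.log p M) z.1 z.2 < K p t).card := by
            rw [← cnt_eq]
            exact cnt_mono fun z _ hz => hz.2
          have e4 : (cnt (PP N M) (fun z => (p.Prime ∧ P0 < p) ∧ Bad2 t M p z.1 z.2) : ℝ) ≤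
              (((PP N M).filter fun z => B p (Nat.log p M) z.1 z.2 < K p t).card : ℝ) := by
            exact_mod_cast e3
          refine e4.trans ?_
          refine (pairs_exp hp.1.two_le (Nat.pow_log_le_self p hM0) hMN e1).trans ?_
          exact mul_le_mul_of_nonneg_left (by linarith) (by positivity)
        · rw [cnt_false (P := _) (s := _) (fun z hz => hp (And.left hz)), Nat.cast_zero]
          positivity)
    refine this.trans (le_of_eq ?_)
    rw [sum_const, Nat.card_Icc, Nat.add_sub_cancel, nsmul_eq_mul]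
    rw [Nat.cast_pow, Nat.cast_add, Nat.cast_one]
    ring
  have b4 := count3 (N := N) (M := M) (t := t) hM (Nat.sqrt (3 * M))
  have b5 := count4 (N := N) (M := M) (t := t) hM hMN
  have hc := hsub.trans ((cnt_or _ _ _).trans (Nat.add_le_add_right ((cnt_or _ _ _).trans
    (Nat.add_le_add_right ((cnt_or _ _ _).trans (Nat.add_le_add_right (cnt_or _ _ _) _)) _)) _))
  have hc' : (cnt (PP N M) (fun z => z.2 ≤ z.1 ∧
      ¬ (z.1 - z.2).factorial * (z.2 + t).factorial ∣ z.1.factorial) : ℝ) ≤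
      (cnt (PP N M) (fun z => ∃ p ∈ Icc 1 ((t + 1) ^ 3), p.Prime ∧ Bad1 t p z.2) : ℝ)
      + (cnt (PP N M) (fun z => ∃ p ∈ Icc 1 P0, p.Prime ∧ Bad2 t M p z.1 z.2) : ℝ)
      + (cnt (PP N M) (fun z => ∃ p ∈ Icc 1 ((t + 1) ^ 3), (p.Prime ∧ P0 < p) ∧
          Bad2 t M p z.1 z.2) : ℝ)
      + (cnt (PP N M) (fun z => ∃ d ∈ Ioc ((t + 1) ^ 3) (Nat.sqrt (3 * M)), Bad3 t d z.2) : ℝ)
      + (cnt (PP N M) (fun z => ∃ d ∈ Ioc ((t + 1) ^ 3) (3 * M), Bad4 t d z.1 z.2) : ℝ) := by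
    exact_mod_cast hc
  refine hc'.trans ?_
  rw [mul_add, mul_add, mul_add, mul_add]
  linarith

end Pool.Agent.NH76.FE
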