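import Pool.Agent.NH76.FE.Tot

/-!
# Choice of the parameters for a fixed prime
-/

set_option autoImplicit false

open Finset

namespace Pool.Agent.NH76.FE

theorem log_mul_le {p n : ℕ} (hp : 1 < p) (hn : n ≠ 0) :
    (Nat.log p n : ℝ) * Real.log p ≤ Real.log n := by
  rw [← Real.log_pow]
  apply Real.log_le_log (by positivity)
  exact_mod_cast Nat.pow_log_le_self p hn

theorem lt_log_mul {p n : ℕ} (hp : 1 < p) (hn : n ≠ 0) :
    Real.log n ≤ ((Nat.log p n : ℝ) + 1) * Real.log p := by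
  have h1 : n < p ^ (Nat.log p n + 1) := Nat.lt_pow_succ_log_self hp n
  have h2 : Real.log n ≤ Real.log ((p ^ (Nat.log p n + 1) : ℕ) : ℝ) :=
    Real.log_le_log (by exact_mod_cast Nat.pos_of_ne_zero hn) (by exact_mod_cast h1.le)
  rw [Nat.cast_pow, Real.log_pow] at h2
  push_cast at h2
  exact h2

/-- `J1 = log_p (M / q)` -/
theorem J1_lower {p q M : ℕ} (hp : 1 < p) (hq0 : 0 < q) (hqM : q ≤ M) :
    Real.log M - Real.log q ≤ ((Nat.log p (M / q) : ℝ) + 1) * Real.log p := by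
  have h1 : M / q < p ^ (Nat.log p (M / q) + 1) := Nat.lt_pow_succ_log_self hp _
  have h2 : M < q * p ^ (Nat.log p (M / q) + 1) := by
    rw [Nat.div_lt_iff_lt_mul hq0] at h1
    rw [mul_comm]; exact h1
  have hq' : (0 : ℝ) < q := by exact_mod_cast hq0
  have hp' : (0 : ℝ) < p := by exact_mod_cast (by omega : 0 < p)
  have h3 : Real.log M ≤ Real.log ((q * p ^ (Nat.log p (M / q) + 1) : ℕ) : ℝ) :=
    Real.log_le_log (by exact_mod_cast (by omega : 0 < M)) (by exact_mod_cast h2.le)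
  rw [Nat.cast_mul, Nat.cast_pow, Real.log_mul hq'.ne' (pow_pos hp' _).ne', Real.log_pow] at h3
  push_cast at h3
  linarith

theorem J1_pow {p q M : ℕ} (hq0 : 0 < q) (hqM : q ≤ M) :
    q * p ^ Nat.log p (M / q) ≤ M := by
  have h1 : p ^ Nat.log p (M / q) ≤ M / q :=
    Nat.pow_log_le_self p (Nat.div_pos hqM hq0).ne'
  rw [mul_comm]
  exact (Nat.le_div_iff_mul_le hq0).1 h1

theorem J1_upper {p q M : ℕ} (hp : 1 < p) (hq0 : 0 < q) (hqM : q ≤ M) :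
    (Nat.log p (M / q) : ℝ) * Real.log p ≤ Real.log M - Real.log q := by
  have h1 := J1_pow (p := p) hq0 hqM
  have hq' : (0 : ℝ) < q := by exact_mod_cast hq0
  have hp' : (0 : ℝ) < p := by exact_mod_cast (by omega : 0 < p)
  have h3 : Real.log ((q * p ^ (Nat.log p (M / q)) : ℕ) : ℝ) ≤ Real.log M :=
    Real.log_le_log (by positivity) (by exact_mod_cast h1)
  rw [Nat.cast_mul, Nat.cast_pow, Real.log_mul hq'.ne' (pow_pos hp' _).ne', Real.log_pow] at h3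
  linarith

theorem clog_upper {p q : ℕ} (hp : 1 < p) :
    (Nat.clog p q : ℝ) * Real.log p ≤ Real.log q + Real.log p := by
  have hlp : 0 ≤ Real.log p := Real.log_natCast_nonneg p
  have hlq : 0 ≤ Real.log q := Real.log_natCast_nonneg q
  rcases Nat.lt_or_ge 1 q with h | h
  · have h1 : p ^ (Nat.clog p q).pred < q := Nat.pow_pred_clog_lt_self hp h
    have h2 : 0 < Nat.clog p q := Nat.clog_pos hp h
    have h3 : Real.log ((p ^ (Nat.clog p q).pred : ℕ) : ℝ) ≤ Real.log q :=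
      Real.log_le_log (by positivity) (by exact_mod_cast h1.le)
    rw [Nat.cast_pow, Real.log_pow] at h3
    have h4 : (((Nat.clog p q).pred : ℕ) : ℝ) = (Nat.clog p q : ℝ) - 1 := by
      rw [Nat.pred_eq_sub_one, Nat.cast_sub h2, Nat.cast_one]
    rw [h4] at h3
    linarith
  · have h1 : Nat.clog p q = 0 := Nat.clog_of_right_le_one h p
    rw [h1, Nat.cast_zero, zero_mul]
    linarith

theorem floor_facts {κ δ : ℝ} {J : ℕ} (hκ : 0 < κ) (hκ1 : κ < 1) (hδ : 0 < δ)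
    (hJ1 : 1 ≤ (J : ℝ)) (hJ : 96 / (κ ^ 2 * δ) ≤ J) :
    2 * ⌊(1 - κ) / 2 * (J : ℝ)⌋₊ < J ∧
    96 * (J : ℝ) / ((J : ℝ) - 2 * (⌊(1 - κ) / 2 * (J : ℝ)⌋₊ : ℕ)) ^ 2 ≤ δ := by
  have h0 : 0 ≤ (1 - κ) / 2 * (J : ℝ) := by
    have : 0 ≤ 1 - κ := by linarith
    positivity
  have h1 : ((⌊(1 - κ) / 2 * (J : ℝ)⌋₊ : ℕ) : ℝ) ≤ (1 - κ) / 2 * J := Nat.floor_le h0
  have h2 : κ * J ≤ (J : ℝ) - 2 * (⌊(1 - κ) / 2 * (J : ℝ)⌋₊ : ℕ) := by linarith
  have h3 : 0 < κ * (J : ℝ) := by positivity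
  constructor
  · have h4 : (2 : ℝ) * (⌊(1 - κ) / 2 * (J : ℝ)⌋₊ : ℕ) < J := by linarith
    exact_mod_cast h4
  · have h5 : (κ * J) ^ 2 ≤ ((J : ℝ) - 2 * (⌊(1 - κ) / 2 * (J : ℝ)⌋₊ : ℕ)) ^ 2 :=
      pow_le_pow_left₀ h3.le h2 2
    have h6 : 96 * (J : ℝ) / ((J : ℝ) - 2 * (⌊(1 - κ) / 2 * (J : ℝ)⌋₊ : ℕ)) ^ 2 ≤
        96 * J / (κ * J) ^ 2 := div_le_div_of_nonneg_left (by positivity) (by positivity) h5
    refine h6.trans ?_
    have hJ0 : (0 : ℝ) < J := by linarith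
    rw [div_le_iff₀ (by positivity)] at hJ
    rw [div_le_iff₀ (by positivity)]
    nlinarith

/-- the parameters for a fixed prime -/
theorem exists_param {p a q M t : ℕ} (hp : p.Prime) (hq0 : 0 < q) (hqM : q ≤ M)
    {x C θp θ τ κ s δ : ℝ} (hC : Real.log p ≤ C)
    (ha1 : θp * x - C ≤ a * Real.log p) (ha2 : a * Real.log p ≤ θp * x)
    (hq1 : θ * x - C ≤ Real.log q) (hq2 : Real.log q ≤ θ * x)
    (hM1 : x - C ≤ Real.log M)
    (ht : (t : ℝ) ≤ τ * x) (hW : Real.log ((t : ℝ) + 1) ≤ s * x)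
    (hκ : 0 < κ) (hκ1 : κ < 1) (hδ : 0 < δ)
    (hN1 : (1 + 96 / (κ ^ 2 * δ)) * Real.log p ≤ (1 - θ) * x - 4 * C)
    (hN2 : (1 + 96 / (κ ^ 2 * δ)) * Real.log p ≤ (θ - θp) * x - 4 * C)
    (hN3 : τ * x * (Real.log p / (p - 1)) + 12 * (s * x) + 8 * C ≤
      θp * x + (1 - κ) / 2 * ((1 - θp) * x))
    (hN4 : τ * x * (Real.log p / (p - 1)) + 12 * (s * x) + 8 * C ≤
      θp * x + (1 - κ) / 2 * (2 * (1 - θ) * x)) :
    ∃ J1 i1 J2 K1 K2 : ℕ, q * p ^ J1 ≤ M ∧ q ≤ p ^ i1 ∧ a + J1 ≤ i1 ∧ p ^ (i1 + J2) ≤ M ∧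
      K p t ≤ (a - W p t) + K1 + K2 ∧ 2 * K1 < J1 ∧ 2 * K2 < J2 ∧
      96 * (J1 : ℝ) / ((J1 : ℝ) - 2 * K1) ^ 2 ≤ δ ∧ 96 * (J2 : ℝ) / ((J2 : ℝ) - 2 * K2) ^ 2 ≤ δ := by
  have hp1 := hp.one_lt
  have hM0 : M ≠ 0 := by omega
  have hlp : 0 < Real.log p := Real.log_pos (by exact_mod_cast hp1)
  have hC0 : 0 < C := hlp.trans_le hC
  set lp := Real.log p with hlpdef
  set J1 := Nat.log p (M / q) with hJ1
  set cq := Nat.clog p q with hcq
  set i1 := max (a + J1) cq with hi1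
  set LM := Nat.log p M with hLM
  set J2 := LM - i1 with hJ2
  have e1 := J1_lower hp1 hq0 hqM
  have e2 := J1_upper hp1 hq0 hqM
  have e3 := clog_upper (q := q) hp1
  have e4 := lt_log_mul hp1 hM0
  have e5 := log_mul_le hp1 hM0
  rw [← hlpdef] at e1 e2 e3 e4 e5
  rw [← hJ1] at e1 e2
  rw [← hcq] at e3
  rw [← hLM] at e4 e5
  have hA : 0 ≤ 96 / (κ ^ 2 * δ) := by positivity
  set A := 96 / (κ ^ 2 * δ) with hAdef
  have hAlp : 0 ≤ A * lp := by positivity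
  -- `i1 ≤ LM` with room
  have f1 : ((a + J1 : ℕ) : ℝ) * lp + (1 + A) * lp ≤ LM * lp := by
    push_cast
    linarith
  have f2 : (cq : ℝ) * lp + (1 + A) * lp ≤ LM * lp := by linarith
  have f3 : (i1 : ℝ) * lp + (1 + A) * lp ≤ LM * lp := by
    rcases max_choice (a + J1) cq with h | h
    · rw [hi1, h]; exact f1
    · rw [hi1, h]; exact f2
  have f4 : (i1 : ℝ) + (1 + A) ≤ LM := by
    have : ((i1 : ℝ) + (1 + A)) * lp ≤ LM * lp := by linarith
    exact le_of_mul_le_mul_right this hlp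
  have f5 : i1 ≤ LM := by
    have : (i1 : ℝ) ≤ LM := by linarith
    exact_mod_cast this
  have f6 : (J2 : ℝ) = LM - i1 := by rw [hJ2, Nat.cast_sub f5]
  have g1 : 1 + A ≤ J1 := by
    have : (1 + A) * lp ≤ J1 * lp := by linarith
    exact le_of_mul_le_mul_right this hlp
  have g2 : 1 + A ≤ J2 := by rw [f6]; linarith
  obtain ⟨k1, k2⟩ := floor_facts (J := J1) hκ hκ1 hδ (by linarith) (by linarith)
  obtain ⟨k3, k4⟩ := floor_facts (J := J2) hκ hκ1 hδ (by linarith) (by linarith)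
  refine ⟨J1, i1, J2, ⌊(1 - κ) / 2 * (J1 : ℝ)⌋₊, ⌊(1 - κ) / 2 * (J2 : ℝ)⌋₊, J1_pow hq0 hqM, ?_,
    le_max_left _ _, ?_, ?_, k1, k3, k2, k4⟩
  · calc q ≤ p ^ cq := Nat.le_pow_clog hp1 q
      _ ≤ p ^ i1 := Nat.pow_le_pow_right hp.pos (le_max_right _ _)
  · have : i1 + J2 = LM := by omega
    rw [this]
    exact Nat.pow_log_le_self p hM0
  · -- the main inequality
    have h1 : (1 - κ) / 2 * (J1 : ℝ) < (⌊(1 - κ) / 2 * (J1 : ℝ)⌋₊ : ℕ) + 1 :=
      Nat.lt_floor_add_one _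
    have h2 : (1 - κ) / 2 * (J2 : ℝ) < (⌊(1 - κ) / 2 * (J2 : ℝ)⌋₊ : ℕ) + 1 :=
      Nat.lt_floor_add_one _
    set K1 := ⌊(1 - κ) / 2 * (J1 : ℝ)⌋₊
    set K2 := ⌊(1 - κ) / 2 * (J2 : ℝ)⌋₊
    have hp1' : (0 : ℝ) < (p : ℝ) - 1 := by
      have : (1 : ℝ) < p := by exact_mod_cast hp1
      linarith
    have h3 : ((t / (p - 1) : ℕ) : ℝ) ≤ τ * x / ((p : ℝ) - 1) := by
      have h4 : ((t / (p - 1) : ℕ) : ℝ) ≤ (t : ℝ) / ((p - 1 : ℕ) : ℝ) := Nat.cast_div_le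
      rw [Nat.cast_sub hp.one_lt.le, Nat.cast_one] at h4
      exact h4.trans (div_le_div_of_nonneg_right ht hp1'.le)
    have h5 : (W p t : ℝ) * lp ≤ 6 * (s * x) := by
      have h6 := log_mul_le (n := (t + 1) ^ 6) hp1 (by positivity)
      rw [Nat.cast_pow, Real.log_pow] at h6
      push_cast at h6
      unfold W
      linarith
    -- the sum of the lengths
    have h7 : (1 - κ) / 2 * ((J1 : ℝ) + J2) * lp ≥ τ * x * (lp / (p - 1)) + 12 * (s * x) + 8 * C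
        - θp * x - 5 * C := by
      have hk : 0 ≤ (1 - κ) / 2 := by linarith
      have hk2 : (1 - κ) / 2 ≤ 1 := by linarith
      rcases max_choice (a + J1) cq with h | h
      · have h8 : (1 - θp) * x - 5 * C ≤ ((J1 : ℝ) + J2) * lp := by
          rw [f6]
          have : (i1 : ℝ) = a + J1 := by rw [hi1, h]; push_cast; ring
          rw [this]
          linarith
        have h9 := mul_le_mul_of_nonneg_left h8 hk
        have h10 := mul_le_mul_of_nonneg_right hk2 (by positivity : 0 ≤ 5 * C)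
        linarith
      · have h8 : 2 * (1 - θ) * x - 5 * C ≤ ((J1 : ℝ) + J2) * lp := by
          rw [f6]
          have : (i1 : ℝ) = cq := by rw [hi1, h]
          rw [this]
          linarith
        have h9 := mul_le_mul_of_nonneg_left h8 hk
        have h10 := mul_le_mul_of_nonneg_right hk2 (by positivity : 0 ≤ 5 * C)
        linarith
    have h11 : (((t / (p - 1) : ℕ) : ℝ) + 2 * W p t) * lp ≤ ((a : ℝ) + K1 + K2) * lp := by
      have h12 : ((t / (p - 1) : ℕ) : ℝ) * lp ≤ τ * x * (lp / (p - 1)) := by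
        calc _ ≤ τ * x / ((p : ℝ) - 1) * lp := mul_le_mul_of_nonneg_right h3 hlp.le
          _ = _ := by ring
      have h13 : (1 - κ) / 2 * ((J1 : ℝ) + J2) * lp ≤ (K1 + K2 + 2) * lp :=
        mul_le_mul_of_nonneg_right (by linarith) hlp.le
      linarith
    have h14 : ((t / (p - 1) : ℕ) : ℝ) + 2 * W p t ≤ (a : ℝ) + K1 + K2 :=
      le_of_mul_le_mul_right h11 hlp
    have h15 : t / (p - 1) + 2 * W p t ≤ a + K1 + K2 := by exact_mod_cast h14
    unfold K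
    omega

end Pool.Agent.NH76.FE
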