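import Pool.Agent.NH76.FE.Cnt

/-!
# The total number of bad pairs in a residue class
-/

set_option autoImplicit false

open Finset

namespace Pool.Agent.NH76.FE

/-- `M / (q d)` in terms of the cardinality of the class -/
theorem div_le_card {t q M d : ℕ} (hq0 : 0 < q) (hqM : q ≤ M) (hd : 0 < d) :
    (((M / (q * d) + 1 : ℕ)) : ℝ) ≤ 2 * (SS t q M).card * (1 / d) + 1 := by
  have h2 := card_SS (t := t) (M := M) hq0
  have hq' : (0 : ℝ) < q := by exact_mod_cast hq0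
  have hd' : (0 : ℝ) < d := by exact_mod_cast hd
  have e3 : ((M / q : ℕ) : ℝ) ≤ (SS t q M).card := by exact_mod_cast h2
  have e4 : (M : ℝ) / q ≤ 2 * ((M / q : ℕ) : ℝ) := by
    have g1 : 1 ≤ M / q := by
      rw [Nat.le_div_iff_mul_le hq0, one_mul]
      exact hqM
    have g2 : M < q * (M / q + 1) := Nat.lt_mul_div_succ M hq0
    have g3 : (M : ℝ) < q * (((M / q : ℕ) : ℝ) + 1) := by exact_mod_cast g2
    have g4 : (1 : ℝ) ≤ ((M / q : ℕ) : ℝ) := by exact_mod_cast g1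
    rw [div_le_iff₀ hq']
    nlinarith
  have e5 : ((M / (q * d) : ℕ) : ℝ) ≤ (M : ℝ) / ((q * d : ℕ) : ℝ) := Nat.cast_div_le
  have e6 : (M : ℝ) / ((q * d : ℕ) : ℝ) = (M : ℝ) / q * (1 / d) := by
    push_cast; field_simp
  rw [e6] at e5
  have e7 : (M : ℝ) / q * (1 / d) ≤ 2 * (SS t q M).card * (1 / d) :=
    mul_le_mul_of_nonneg_right (by linarith) (by positivity)
  rw [Nat.cast_add, Nat.cast_one]
  linarith

theorem count1' {N t q M p : ℕ} (hp : p.Prime) (hq0 : 0 < q) (hqM : q ≤ M)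
    (hc : Nat.Coprime q p) :
    (cnt (FF N t q M) (fun z => Bad1 t p z.2) : ℝ) ≤
      N * (t * (2 * (SS t q M).card * (1 / ((t : ℝ) + 1) ^ 6) + 1)) := by
  rw [cnt_snd (fun m => Bad1 t p m)]
  have hq : (t + 1) ^ 6 < p ^ (W p t + 1) := Nat.lt_pow_succ_log_self hp.one_lt _
  have h1 : (cnt (SS t q M) (fun m => Bad1 t p m) : ℝ) ≤
      ∑ _i ∈ Icc 1 t, (2 * ((SS t q M).card : ℝ) * (1 / ((t : ℝ) + 1) ^ 6) + 1) := by
    refine card_ex_le _ _ (fun (i m : ℕ) => p ^ (W p t + 1) ∣ m + i) _ ?_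
    intro i _
    have e0 : cnt (SS t q M) (fun m => p ^ (W p t + 1) ∣ m + i) ≤
        M / (q * p ^ (W p t + 1)) + 1 := by
      rw [cnt_eq]
      exact SS_dvd (Nat.Coprime.pow_right _ hc)
    have h2 : (cnt (SS t q M) (fun m => p ^ (W p t + 1) ∣ m + i) : ℝ)
        ≤ ((M / (q * p ^ (W p t + 1)) + 1 : ℕ) : ℝ) := by exact_mod_cast e0
    have h3 := div_le_card (t := t) (d := p ^ (W p t + 1)) hq0 hqM (pow_pos hp.pos _)
    refine h2.trans (h3.trans ?_)
    have h4 : (1 : ℝ) / ((p ^ (W p t + 1) : ℕ) : ℝ) ≤ 1 / ((t : ℝ) + 1) ^ 6 := by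
      refine div_le_div_of_nonneg_left zero_le_one (by positivity) ?_
      exact_mod_cast hq.le
    have h5 := mul_le_mul_of_nonneg_left h4 (by positivity : (0 : ℝ) ≤ 2 * (SS t q M).card)
    linarith
  rw [sum_const, Nat.card_Icc, Nat.add_sub_cancel, nsmul_eq_mul] at h1
  rw [Nat.cast_mul]
  exact mul_le_mul_of_nonneg_left h1 (by positivity)

theorem bad1_false {t q M p m : ℕ} (hp : p.Prime) (hpq : p ^ (W p t + 1) ∣ q)
    (hm : m ∈ SS t q M) : ¬ Bad1 t p m := by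
  rintro ⟨i, hi, hdvd⟩
  rw [mem_Icc] at hi
  rw [mem_SS] at hm
  have h1 : p ^ (W p t + 1) ∣ m + (t + 1) := hpq.trans hm.2
  have h2 : p ^ (W p t + 1) ∣ (m + (t + 1)) - (m + i) := Nat.dvd_sub h1 hdvd
  have h3 := Nat.le_of_dvd (by omega) h2
  have hW : t + 1 < p ^ (W p t + 1) := lt_of_le_of_lt (Nat.le_self_pow (by norm_num) _)
    (Nat.lt_pow_succ_log_self hp.one_lt ((t + 1) ^ 6))
  omega

theorem sum_inv_le (a b : ℕ) : ∑ d ∈ Ioc a b, (1 : ℝ) / d ≤ 1 + Real.log b := by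
  have h1 : ∑ d ∈ Ioc a b, (1 : ℝ) / d ≤ ∑ d ∈ Icc 1 b, (1 : ℝ) / d := by
    refine sum_le_sum_of_subset_of_nonneg ?_ fun _ _ _ => by positivity
    intro d hd
    rw [mem_Ioc] at hd
    rw [mem_Icc]
    omega
  have h2 := harmonic_le_one_add_log b
  rw [harmonic_eq_sum_Icc] at h2
  push_cast at h2
  refine h1.trans (le_trans (le_of_eq ?_) h2)
  exact sum_congr rfl fun d _ => one_div _

theorem count4' {N M t q : ℕ} (hq0 : 0 < q) (hqM : q ≤ M) (hMN : M ≤ N) :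
    (cnt (FF N t q M) (fun z => ∃ d ∈ Ioc ((t + 1) ^ 3) (3 * M), Nat.Coprime q d ∧
      Bad4 t d z.1 z.2) : ℝ) ≤
      N * (4 * t ^ 2 * (2 * (SS t q M).card * (1 / ((t : ℝ) + 1) ^ 3) +
        (1 + Real.log ((3 * M : ℕ) : ℝ)))) := by
  set c : ℝ := ((SS t q M).card : ℝ) with hc
  have h1 : (cnt (FF N t q M) (fun z => ∃ d ∈ Ioc ((t + 1) ^ 3) (3 * M), Nat.Coprime q d ∧
      Bad4 t d z.1 z.2) : ℝ) ≤
      ∑ d ∈ Ioc ((t + 1) ^ 3) (3 * M), N * (4 * (t : ℝ) ^ 2 *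
        (2 * c * (1 / (d : ℝ) ^ 2) + 1 / (d : ℝ))) := by
    refine card_ex_le _ _ (fun (d : ℕ) (z : ℕ × ℕ) => Nat.Coprime q d ∧ Bad4 t d z.1 z.2) _ ?_
    intro d hd
    rw [mem_Ioc] at hd
    have htd : t + 1 < d := lt_of_le_of_lt (Nat.le_self_pow (by norm_num) _) hd.1
    have hd0 : 0 < d := by omega
    have hd' : (0 : ℝ) < d := by exact_mod_cast hd0
    by_cases hcop : Nat.Coprime q d
    swap
    · rw [cnt_false (P := _) (s := _) (fun z hz => hcop (And.left hz)), Nat.cast_zero]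
      positivity
    have e1 := div_bound (N := N) (q := d) (c := 3) hd0 (by omega)
    have e2 := div_le_card (t := t) (M := M) (d := d) hq0 hqM hd0
    have h2 : (cnt (FF N t q M) (fun z => Bad4 t d z.1 z.2) : ℝ) ≤
        ∑ _i ∈ Icc 1 t, ((t : ℝ) * (((N / d + 1 : ℕ) : ℝ) * ((M / (q * d) + 1 : ℕ) : ℝ))) := by
      refine card_ex_le _ _ (fun (i : ℕ) (z : ℕ × ℕ) => d ∣ z.2 + i ∧ ¬ z.1 % d < z.2 % d) _ ?_
      intro i hi
      rw [mem_Icc] at hi
      have h3 : (cnt (FF N t q M) (fun z => ∃ j ∈ Icc 1 t,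
          z.1 % d = d - j ∧ d ∣ z.2 + i) : ℝ) ≤
          ∑ _j ∈ Icc 1 t, (((N / d + 1 : ℕ) : ℝ) * ((M / (q * d) + 1 : ℕ) : ℝ)) := by
        refine card_ex_le _ _ (fun (j : ℕ) (z : ℕ × ℕ) => z.1 % d = d - j ∧ d ∣ z.2 + i) _ ?_
        intro j _
        have h4 : cnt (FF N t q M) (fun z => z.1 % d = d - j ∧ d ∣ z.2 + i) ≤
            (N / d + 1) * (M / (q * d) + 1) := by
          rw [cnt_eq]
          calc _ ≤ (((Ico 0 (0 + N)).filter fun x => x % d = d - j) ×ˢ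
                ((SS t q M).filter fun x => d ∣ x + i)).card := by
                apply card_le_card
                intro z hz
                rw [mem_filter] at hz
                unfold FF at hz
                rw [mem_product, mem_range] at hz
                rw [mem_product, mem_filter, mem_filter, mem_Ico]
                exact ⟨⟨⟨Nat.zero_le _, by omega⟩, hz.2.1⟩, hz.1.2, hz.2.2⟩
            _ ≤ _ := by
                rw [card_product]
                exact Nat.mul_le_mul card_mod (SS_dvd hcop)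
        exact_mod_cast h4
      rw [sum_const, Nat.card_Icc, Nat.add_sub_cancel, nsmul_eq_mul] at h3
      refine le_trans ?_ h3
      have h5 : cnt (FF N t q M) (fun z => d ∣ z.2 + i ∧ ¬ z.1 % d < z.2 % d) ≤
          cnt (FF N t q M) (fun z => ∃ j ∈ Icc 1 t, z.1 % d = d - j ∧ d ∣ z.2 + i) := by
        refine cnt_mono fun z _ hz => ?_
        refine ⟨d - z.1 % d, ?_, ?_, hz.1⟩
        · have h6 := Nat.mod_lt z.1 hd0
          have h7 : z.2 % d = d - i := by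
            have h8 : (z.2 + i) % d = 0 := Nat.mod_eq_zero_of_dvd hz.1
            have h9 := Nat.mod_lt z.2 hd0
            rw [Nat.add_mod, Nat.mod_eq_of_lt (show i < d by omega)] at h8
            by_contra hne
            rcases lt_or_ge (z.2 % d + i) d with hlt | hge
            · rw [Nat.mod_eq_of_lt hlt] at h8; omega
            · rw [Nat.mod_eq_sub_mod hge, Nat.mod_eq_of_lt (by omega)] at h8; omega
          have h10 := hz.2
          rw [mem_Icc]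
          omega
        · have h6 := Nat.mod_lt z.1 hd0
          omega
      exact_mod_cast h5
    rw [sum_const, Nat.card_Icc, Nat.add_sub_cancel, nsmul_eq_mul] at h2
    have h0 : cnt (FF N t q M) (fun z => Nat.Coprime q d ∧ Bad4 t d z.1 z.2) ≤
        cnt (FF N t q M) (fun z => Bad4 t d z.1 z.2) := cnt_mono fun z _ hz => hz.2
    have h0' : (cnt (FF N t q M) (fun z => Nat.Coprime q d ∧ Bad4 t d z.1 z.2) : ℝ) ≤
        (cnt (FF N t q M) (fun z => Bad4 t d z.1 z.2) : ℝ) := by exact_mod_cast h0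
    refine h0'.trans (h2.trans ?_)
    calc (t : ℝ) * (t * (((N / d + 1 : ℕ) : ℝ) * ((M / (q * d) + 1 : ℕ) : ℝ)))
        ≤ t * (t * ((((3 : ℕ) : ℝ) + 1) * N / d * (2 * c * (1 / d) + 1))) := by
          refine mul_le_mul_of_nonneg_left (mul_le_mul_of_nonneg_left
            (mul_le_mul e1 e2 (by positivity) (by positivity)) (by positivity)) (by positivity)
      _ = _ := by push_cast; field_simp; ring
  refine h1.trans ?_
  rw [← mul_sum, ← mul_sum, sum_add_distrib, ← mul_sum]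
  have e1 := sum_sq_le (a := (t + 1) ^ 3) (b := 3 * M) (by positivity)
  rw [Nat.cast_pow, Nat.cast_add, Nat.cast_one] at e1
  have e2 := sum_inv_le ((t + 1) ^ 3) (3 * M)
  refine mul_le_mul_of_nonneg_left (mul_le_mul_of_nonneg_left (add_le_add ?_ e2)
    (by positivity)) (by positivity)
  exact mul_le_mul_of_nonneg_left e1 (by positivity)

/-- the number of bad pairs -/
theorem bad_total2 {N M t q P0 : ℕ} {δ ρ : ℝ} (hq0 : 0 < q) (hqM : q ≤ M) (htM : t ≤ M)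
    (hMN : M ≤ N) (hδ : 0 ≤ δ) (hρ : 0 ≤ ρ)
    (h0 : ∀ p : ℕ, p.Prime → ¬ Nat.Coprime q p → p ^ (W p t + 1) ∣ q ∧ p ≤ (t + 1) ^ 3)
    (h1 : ∀ p : ℕ, p.Prime → p ≤ P0 → (cnt (FF N t q M) (fun z => Bad2' t p z.1 z.2) : ℝ) ≤
      N * (SS t q M).card * δ)
    (h2 : ∀ p : ℕ, p.Prime → P0 < p → p ≤ (t + 1) ^ 3 →
      (cnt (FF N t q M) (fun z => Bad2' t p z.1 z.2) : ℝ) ≤ N * (SS t q M).card * (32 * ρ)) :
    (cnt (FF N t q M) (fun z => z.2 ≤ z.1 ∧
      ¬ (z.1 - z.2).factorial * (z.2 + t).factorial ∣ z.1.factorial) : ℝ) ≤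
      N * (((t : ℝ) + 1) ^ 3 * (t * (2 * (SS t q M).card * (1 / ((t : ℝ) + 1) ^ 6) + 1)))
      + N * (SS t q M).card * (P0 * δ)
      + N * (SS t q M).card * (((t : ℝ) + 1) ^ 3 * (32 * ρ))
      + N * (4 * t ^ 2 * (2 * (SS t q M).card * (1 / ((t : ℝ) + 1) ^ 3) +
        (1 + Real.log ((3 * M : ℕ) : ℝ)))) := by
  have hM0 : M ≠ 0 := by omega
  have hsub : cnt (FF N t q M) (fun z => z.2 ≤ z.1 ∧
      ¬ (z.1 - z.2).factorial * (z.2 + t).factorial ∣ z.1.factorial)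
      ≤ cnt (FF N t q M) (fun z =>
        (((∃ p ∈ Icc 1 ((t + 1) ^ 3), (p.Prime ∧ Nat.Coprime q p) ∧ Bad1 t p z.2) ∨
        (∃ p ∈ Icc 1 P0, p.Prime ∧ Bad2' t p z.1 z.2)) ∨
        (∃ p ∈ Icc 1 ((t + 1) ^ 3), (p.Prime ∧ P0 < p) ∧ Bad2' t p z.1 z.2)) ∨
        (∃ d ∈ Ioc ((t + 1) ^ 3) (3 * M), Nat.Coprime q d ∧ Bad4 t d z.1 z.2)) := by
    refine cnt_mono fun z hz hzz => ?_
    by_contra hcon
    simp only [not_or] at hcon
    obtain ⟨⟨⟨c1, c2⟩, c3⟩, c5⟩ := hcon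
    unfold FF at hz
    rw [mem_product] at hz
    have hz2 : z.2 < M + M := (mem_SS.1 hz.2).1.2
    refine hzz.2 (good_of2 hzz.1 ?_ ?_)
    · intro p hp hpt
      refine ⟨fun hb => ?_, ?_⟩
      · by_cases hcop : Nat.Coprime q p
        · exact c1 ⟨p, mem_Icc.2 ⟨hp.one_lt.le, hpt⟩, ⟨hp, hcop⟩, hb⟩
        · exact bad1_false hp (h0 p hp hcop).1 hz.2 hb
      · by_contra hb
        by_cases hpP : p ≤ P0
        · exact c2 ⟨p, mem_Icc.2 ⟨hp.one_lt.le, hpP⟩, hp, hb⟩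
        · exact c3 ⟨p, mem_Icc.2 ⟨hp.one_lt.le, hpt⟩, ⟨hp, not_le.1 hpP⟩, hb⟩
    · intro p hp hpt hb
      refine c5 ⟨p, ?_, ?_, hb⟩
      · obtain ⟨i, hi, hdvd, _⟩ := hb
        rw [mem_Icc] at hi
        rw [mem_Ioc]
        exact ⟨hpt, (Nat.le_of_dvd (by omega) hdvd).trans (by omega)⟩
      · by_contra hcop
        have := (h0 p hp hcop).2
        omega
  have b1 : (cnt (FF N t q M) (fun z => ∃ p ∈ Icc 1 ((t + 1) ^ 3),
      (p.Prime ∧ Nat.Coprime q p) ∧ Bad1 t p z.2) : ℝ)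
      ≤ N * (((t : ℝ) + 1) ^ 3 *
        (t * (2 * (SS t q M).card * (1 / ((t : ℝ) + 1) ^ 6) + 1))) := by
    have := card_ex_le (FF N t q M) (Icc 1 ((t + 1) ^ 3))
      (fun p z => (p.Prime ∧ Nat.Coprime q p) ∧ Bad1 t p z.2)
      (fun _ => (N : ℝ) * (t * (2 * (SS t q M).card * (1 / ((t : ℝ) + 1) ^ 6) + 1)))
      (fun p _ => by
        by_cases hp : p.Prime ∧ Nat.Coprime q p
        · refine le_trans ?_ (count1' (N := N) hp.1 hq0 hqM hp.2)
          have e0 : cnt (FF N t q M) (fun z => (p.Prime ∧ Nat.Coprime q p) ∧ Bad1 t p z.2) ≤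
              cnt (FF N t q M) (fun z => Bad1 t p z.2) := cnt_mono fun z _ hz => hz.2
          exact_mod_cast e0
        · rw [cnt_false (P := _) (s := _) (fun z hz => hp (And.left hz)), Nat.cast_zero]
          positivity)
    refine this.trans (le_of_eq ?_)
    rw [sum_const, Nat.card_Icc, Nat.add_sub_cancel, nsmul_eq_mul]
    rw [Nat.cast_pow, Nat.cast_add, Nat.cast_one]
    ring
  have b2 : (cnt (FF N t q M) (fun z => ∃ p ∈ Icc 1 P0, p.Prime ∧ Bad2' t p z.1 z.2) : ℝ)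
      ≤ N * (SS t q M).card * (P0 * δ) := by
    have := card_ex_le (FF N t q M) (Icc 1 P0) (fun p z => p.Prime ∧ Bad2' t p z.1 z.2)
      (fun _ => (N : ℝ) * (SS t q M).card * δ) (fun p hp0 => by
        by_cases hp : p.Prime
        · have e3 : cnt (FF N t q M) (fun z => p.Prime ∧ Bad2' t p z.1 z.2) ≤
              cnt (FF N t q M) (fun z => Bad2' t p z.1 z.2) := cnt_mono fun z _ hz => hz.2
          have e4 : (cnt (FF N t q M) (fun z => p.Prime ∧ Bad2' t p z.1 z.2) : ℝ) ≤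
              (cnt (FF N t q M) (fun z => Bad2' t p z.1 z.2) : ℝ) := by
            exact_mod_cast e3
          exact e4.trans (h1 p hp (mem_Icc.1 hp0).2)
        · rw [cnt_false (P := _) (s := _) (fun z hz => hp (And.left hz)), Nat.cast_zero]
          positivity)
    refine this.trans (le_of_eq ?_)
    rw [sum_const, Nat.card_Icc, Nat.add_sub_cancel, nsmul_eq_mul]
    ring
  have b3 : (cnt (FF N t q M) (fun z => ∃ p ∈ Icc 1 ((t + 1) ^ 3), (p.Prime ∧ P0 < p) ∧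
      Bad2' t p z.1 z.2) : ℝ) ≤ N * (SS t q M).card * (((t : ℝ) + 1) ^ 3 * (32 * ρ)) := by
    have := card_ex_le (FF N t q M) (Icc 1 ((t + 1) ^ 3))
      (fun p z => (p.Prime ∧ P0 < p) ∧ Bad2' t p z.1 z.2)
      (fun _ => (N : ℝ) * (SS t q M).card * (32 * ρ)) (fun p hp0 => by
        by_cases hp : p.Prime ∧ P0 < p
        · have e3 : cnt (FF N t q M) (fun z => (p.Prime ∧ P0 < p) ∧ Bad2' t p z.1 z.2) ≤
              cnt (FF N t q M) (fun z => Bad2' t p z.1 z.2) := cnt_mono fun z _ hz => hz.2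
          have e4 : (cnt (FF N t q M) (fun z => (p.Prime ∧ P0 < p) ∧ Bad2' t p z.1 z.2) : ℝ) ≤
              (cnt (FF N t q M) (fun z => Bad2' t p z.1 z.2) : ℝ) := by
            exact_mod_cast e3
          exact e4.trans (h2 p hp.1 hp.2 (mem_Icc.1 hp0).2)
        · rw [cnt_false (P := _) (s := _) (fun z hz => hp (And.left hz)), Nat.cast_zero]
          positivity)
    refine this.trans (le_of_eq ?_)
    rw [sum_const, Nat.card_Icc, Nat.add_sub_cancel, nsmul_eq_mul]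
    rw [Nat.cast_pow, Nat.cast_add, Nat.cast_one]
    ring
  have b5 := count4' (N := N) (M := M) (t := t) (q := q) hq0 hqM hMN
  have hc := hsub.trans ((cnt_or _ _ _).trans (Nat.add_le_add_right ((cnt_or _ _ _).trans
    (Nat.add_le_add_right (cnt_or _ _ _) _)) _))
  have hc' : (cnt (FF N t q M) (fun z => z.2 ≤ z.1 ∧
      ¬ (z.1 - z.2).factorial * (z.2 + t).factorial ∣ z.1.factorial) : ℝ) ≤
      (cnt (FF N t q M) (fun z => ∃ p ∈ Icc 1 ((t + 1) ^ 3),
        (p.Prime ∧ Nat.Coprime q p) ∧ Bad1 t p z.2) : ℝ)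
      + (cnt (FF N t q M) (fun z => ∃ p ∈ Icc 1 P0, p.Prime ∧ Bad2' t p z.1 z.2) : ℝ)
      + (cnt (FF N t q M) (fun z => ∃ p ∈ Icc 1 ((t + 1) ^ 3), (p.Prime ∧ P0 < p) ∧
          Bad2' t p z.1 z.2) : ℝ)
      + (cnt (FF N t q M) (fun z => ∃ d ∈ Ioc ((t + 1) ^ 3) (3 * M), Nat.Coprime q d ∧
          Bad4 t d z.1 z.2) : ℝ) := by
    exact_mod_cast hc
  refine hc'.trans ?_
  linarith

end Pool.Agent.NH76.FE
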